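import Pool.Agent.H87.SA.SDefs

/-!
# MP_821da1_nt: effective Siegel theorem over anchored fields, general families -- definitions

`f(t, X) = X^d + ∑_{i ≤ m, j < d} a_ij t^i X^j`. `p0 = f(0, X)`, `q0 l` the coefficient of `t^(l+1)`.
`gN = N^(m d) f(1/N, X/N^m)`, a monic integral polynomial, and
`N^(m d) f(1/N + (M/N) s, X/N^m) = gN + ∑_{l<m} s^(l+1) hN l`.
`pe p Q m c u = p (u) + ∑_{l<m} (c X)^(l+1) Q_l (u)` for a power series `u`.
`tayC h a`: the Taylor expansion at the real number `h` of a complex power series.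
-/

namespace Pool.Agent.H97.GA

open Finset Polynomial Pool.Agent.H87.SA

/-- the polynomial `f(t, x)` -/
noncomputable def fv {S : Type*} [CommRing S] (d m : ℕ) (a : ℕ → ℕ → ℤ) (t x : S) : S :=
  x ^ d + ∑ i ∈ range (m + 1), ∑ j ∈ range d, (a i j : S) * t ^ i * x ^ j

/-- the polynomial `f(0, X)` -/
noncomputable def p0 (d : ℕ) (a : ℕ → ℕ → ℤ) : ℤ[X] := X ^ d + ∑ j ∈ range d, C (a 0 j) * X ^ j

/-- the coefficient of `t^(l+1)` in `f(t, X)` -/
noncomputable def q0 (d : ℕ) (a : ℕ → ℕ → ℤ) (l : ℕ) : ℤ[X] := ∑ j ∈ range d, C (a (l + 1) j) * X ^ j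

/-- `N^(m d) f(1/N, X/N^m)` -/
noncomputable def gN (d m : ℕ) (a : ℕ → ℕ → ℤ) (N : ℕ) : ℤ[X] :=
  X ^ d + ∑ j ∈ range d, C (∑ i ∈ range (m + 1), a i j * (N : ℤ) ^ (m * (d - j) - i)) * X ^ j

/-- the coefficient of `s^(l+1)` in `N^(m d) f(1/N + (M/N) s, X/N^m)` -/
noncomputable def hN (d m : ℕ) (a : ℕ → ℕ → ℤ) (N M : ℕ) (l : ℕ) : ℤ[X] :=
  ∑ j ∈ range d, C (∑ i ∈ range (m + 1), a i j * (N : ℤ) ^ (m * (d - j) - i) *
    (i.choose (l + 1) : ℤ) * (M : ℤ) ^ (l + 1)) * X ^ j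

/-- `p (u) + ∑_{l<m} (c X)^(l+1) Q_l (u)` -/
noncomputable def pe {S : Type*} [CommRing S] (p : ℤ[X]) (Q : ℕ → ℤ[X]) (m : ℕ) (c : S)
    (u : PowerSeries S) : PowerSeries S :=
  ei p u + ∑ l ∈ range m, (PowerSeries.C c * PowerSeries.X) ^ (l + 1) * ei (Q l) u

theorem map_pe {S S' : Type*} [CommRing S] [CommRing S'] (φ : S →+* S') (p : ℤ[X]) (Q : ℕ → ℤ[X])
    (m : ℕ) (c : S) (u : PowerSeries S) :
    (pe p Q m c u).map φ = pe p Q m (φ c) (u.map φ) := by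
  unfold pe
  rw [map_add, map_ei, map_sum]
  congr 1
  refine sum_congr rfl fun l _ => ?_
  rw [map_mul, map_pow, map_mul, PowerSeries.map_C, PowerSeries.map_X, map_ei]

/-- the real part -/
noncomputable def reS (a : PowerSeries ℂ) : PowerSeries ℝ :=
  PowerSeries.mk fun k => (PowerSeries.coeff k a).re

/-- the imaginary part -/
noncomputable def imS (a : PowerSeries ℂ) : PowerSeries ℝ :=
  PowerSeries.mk fun k => (PowerSeries.coeff k a).im

/-- radius of convergence larger than `h` -/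
def CvC (h : ℝ) (a : PowerSeries ℂ) : Prop := Cv h (reS a) ∧ Cv h (imS a)

/-- the Taylor expansion at `h` of a complex power series -/
noncomputable def tayC (h : ℝ) (a : PowerSeries ℂ) : PowerSeries ℂ :=
  (tay h (reS a)).map Complex.ofRealHom +
    PowerSeries.C Complex.I * (tay h (imS a)).map Complex.ofRealHom

/-- the value at `h` of a complex power series -/
noncomputable def evC (h : ℝ) (a : PowerSeries ℂ) : ℂ := PowerSeries.constantCoeff (tayC h a)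

/-- the weight `∑_{l<d} w^l x^l` -/
noncomputable def wv {S : Type*} [CommRing S] (d w : ℕ) (x : S) : S :=
  ∑ l ∈ range d, (w : S) ^ l * x ^ l

theorem map_wv {S S' : Type*} [CommRing S] [CommRing S'] (φ : S →+* S') (d w : ℕ) (x : S) :
    φ (wv d w x) = wv d w (φ x) := by
  unfold wv
  simp [map_sum, map_mul, map_pow]

/-- the hypotheses on the family -/
structure GHyp (d m : ℕ) (a : ℕ → ℕ → ℤ) (B N : ℕ) (c : Fin d → ℂ) : Prop where
  d3 : 3 ≤ d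
  m1 : 1 ≤ m
  B2 : 2 ≤ B
  aB : ∀ i j, |a i j| ≤ (B : ℤ)
  prod : (p0 d a).map (Int.castRingHom ℂ) = ∏ i, (X - C (c i))
  inj : Function.Injective c
  big : B ^ (200 * d ^ 2 * (d + m)) ≤ N

/-- growth of the series at `0` -/
noncomputable def RR (d m B : ℕ) : ℝ := (B : ℝ) ^ (70 * d ^ 2 * (d + m))

/-- the expansions at `0` of the roots of `f(t, X)`, in the variable `T = t / q` -/
structure SerC (d m : ℕ) (a : ℕ → ℕ → ℤ) (B : ℕ) (c : Fin d → ℂ) where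
  q : ℕ
  q1 : 1 ≤ q
  qle : q ≤ B ^ (6 * d ^ 2)
  qd : (q : ℂ) = ∏ i, ei (derivative (p0 d a)) (c i) ^ 2
  x : Fin d → PowerSeries ℂ
  x0 : ∀ i, PowerSeries.constantCoeff (x i) = c i
  eq : ∀ i, pe (p0 d a) (q0 d a) m (q : ℂ) (x i) = 0
  le : ∀ i k, ‖PowerSeries.coeff k (x i)‖ ≤ (B : ℝ) ^ (8 * d ^ 2) * RR d m B ^ k

/-- the evaluation point is `1 / M`, `M = q N` -/
def SerC.M {d m : ℕ} {a : ℕ → ℕ → ℤ} {B : ℕ} {c : Fin d → ℂ} (S : SerC d m a B c) (N : ℕ) : ℕ :=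
  S.q * N

/-- the roots of `gN` -/
noncomputable def SerC.y {d m : ℕ} {a : ℕ → ℕ → ℤ} {B : ℕ} {c : Fin d → ℂ} (S : SerC d m a B c)
    (N : ℕ) (i : Fin d) : ℂ := (N : ℂ) ^ m * evC (1 / (S.M N : ℝ)) (S.x i)

/-- the Taylor expansions at `1 / M`, times `N^m` -/
noncomputable def SerC.W {d m : ℕ} {a : ℕ → ℕ → ℤ} {B : ℕ} {c : Fin d → ℂ} (S : SerC d m a B c)
    (N : ℕ) (i : Fin d) : PowerSeries ℂ :=
  PowerSeries.C ((N : ℂ) ^ m) * tayC (1 / (S.M N : ℝ)) (S.x i)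

end Pool.Agent.H97.GA
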