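import Pool.Agent.H97.GA.FldC

/-! # [GA-DISC] The product of the derivatives at the roots is a nonzero integer

`p` is monic (`monic_prod_of_monic`, `Polynomial.monic_of_injective`), so all `c i` are algebraic
integers. `exists_fieldC c` gives `k`, `ι0`, `co : Fin d → 𝓞 k` with `ι0 (co i) = c i`. Put
`a = ∏ i, ei p' (co i) ∈ 𝓞 k`. For `σ : k →+* ℂ` `exists_permC` gives a permutation `π` with
`σ (co i) = c (π i)`, so `σ a = ∏ i, ei p' (c (π i)) = ι0 a` (`Equiv.prod_comp`, `map_ei`). By `inv_intC`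
`a = r`, an integer. `r ≠ 0`: `ei p' (c i) = ∏_{j ≠ i} (c i - c j) ≠ 0` (derivative of the product,
`Polynomial.derivative_prod`, or `Polynomial.eval_derivative...`; `ei_der_ne`). -/

namespace Pool.Agent.H97.GA

open Finset Polynomial NumberField Pool.Agent.H87.SA

/-- the derivative at a root of a product of linear factors -/
theorem ei_der {S : Type} [CommRing S] {d : ℕ} {p : ℤ[X]} {y : Fin d → S}
    (hp : p.map (Int.castRingHom S) = ∏ i, (X - C (y i))) (i : Fin d) :
    ei (derivative p) (y i) = ∏ j ∈ univ.erase i, (y i - y j) := by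
  unfold ei
  rw [eval₂_eq_eval_map, ← derivative_map, hp, derivative_prod_finset, eval_finsetSum,
    Finset.sum_eq_single i]
  · rw [derivative_X_sub_C, mul_one, eval_prod]
    exact Finset.prod_congr rfl fun j _ => by rw [eval_sub, eval_X, eval_C]
  · intro k _ hk
    rw [eval_mul, eval_prod]
    have : ∏ j ∈ univ.erase k, eval (y i) (X - C (y j)) = 0 :=
      Finset.prod_eq_zero (Finset.mem_erase.2 ⟨hk.symm, Finset.mem_univ i⟩)
        (by rw [eval_sub, eval_X, eval_C, sub_self])
    rw [this, zero_mul]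
  · intro h
    exact absurd (Finset.mem_univ i) h

/-- the derivative at a root of a product of different linear factors is not zero -/
theorem ei_der_ne {d : ℕ} {p : ℤ[X]} {c : Fin d → ℂ} (hc : Function.Injective c)
    (hp : p.map (Int.castRingHom ℂ) = ∏ i, (X - C (c i))) (i : Fin d) :
    ei (derivative p) (c i) ≠ 0 := by
  rw [ei_der hp i, Finset.prod_ne_zero_iff]
  intro j hj h
  exact (Finset.mem_erase.1 hj).1 (hc (sub_eq_zero.1 h)).symm

theorem exists_disc {d : ℕ} {p : ℤ[X]} {c : Fin d → ℂ} (hc : Function.Injective c)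
    (hp : p.map (Int.castRingHom ℂ) = ∏ i, (X - C (c i))) :
    ∃ r : ℤ, r ≠ 0 ∧ (r : ℂ) = ∏ i, ei (derivative p) (c i) := by
  have hmon : p.Monic := by
    apply Polynomial.monic_of_injective (f := Int.castRingHom ℂ)
    · intro a b hab
      exact Int.cast_injective (α := ℂ) hab
    · rw [hp]
      exact monic_prod_of_monic _ _ fun i _ => monic_X_sub_C (c i)
  have hint : ∀ i, IsIntegral ℤ (c i) := by
    intro i
    refine ⟨p, hmon, ?_⟩
    rw [eval₂_eq_eval_map]
    have h1 : algebraMap ℤ ℂ = Int.castRingHom ℂ := rfl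
    rw [h1, hp, eval_prod]
    exact Finset.prod_eq_zero (Finset.mem_univ i) (by rw [eval_sub, eval_X, eval_C, sub_self])
  obtain ⟨k, _, _, ι0, co, hco, -⟩ := exists_fieldC c hint
  obtain ⟨a, ha⟩ : ∃ a : 𝓞 k, a = ∏ i, ei (derivative p) (co i) := ⟨_, rfl⟩
  have hval : ∀ σ : k →+* ℂ, σ (a : k) = ∏ i, ei (derivative p) (σ (co i : k)) := by
    intro σ
    have h1 : (a : k) = (algebraMap (𝓞 k) k) a := rfl
    rw [h1, ha, map_prod, map_prod]
    refine Finset.prod_congr rfl fun i _ => ?_
    rw [map_ei, map_ei]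
  have h0 : ι0 (a : k) = ∏ i, ei (derivative p) (c i) := by
    rw [hval ι0]
    exact Finset.prod_congr rfl fun i _ => by rw [hco i]
  have hinv : ∀ σ : k →+* ℂ, σ (a : k) = ι0 (a : k) := by
    intro σ
    obtain ⟨π, hπ⟩ := exists_permC hc hp ι0 (fun i => (co i : k)) hco σ
    rw [h0, hval σ, ← Equiv.prod_comp π (fun i => ei (derivative p) (c i))]
    exact Finset.prod_congr rfl fun i _ => by rw [hπ i]
  obtain ⟨r, hr⟩ := inv_intC ι0 a hinv
  have h2 : (r : ℂ) = ∏ i, ei (derivative p) (c i) := by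
    rw [← h0, hr]
    simp
  refine ⟨r, ?_, h2⟩
  rintro rfl
  rw [Int.cast_zero] at h2
  have h3 : ∏ i, ei (derivative p) (c i) ≠ 0 :=
    Finset.prod_ne_zero_iff.2 fun i _ => ei_der_ne hc hp i
  exact h3 h2.symm

end Pool.Agent.H97.GA
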