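import Pool.Agent.H97.GA.Defs

/-! # [GA-FLDC] Number fields in `ℂ`, permutations of roots, invariants

`exists_fieldC`: adapt `Pool.Agent.H87.SA.exists_field` (`Pool/Agent/H87/SA/Fld.lean`, proved) with `ℂ`
instead of `ℝ`: `k = IntermediateField.adjoin ℚ (Set.range y)`.
`exists_permC`: `σ (yo i)` is a root of `p` in `ℂ` (`ei p (yo i) = 0` because `ι0` is injective),
hence some `y j`; `i ↦ j` is injective, hence a permutation (same file).
`inv_intC`: the roots of `minpoly ℚ a` in `ℂ` are the `σ a`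
(`NumberField.Embeddings.range_eval_eq_rootSet_minpoly`), a single number; `minpoly` is separable, so it
has degree `1`, `a` is rational and integral over `ℤ`, so an integer (`IsIntegrallyClosed`; see
`inv_int` in `Pool/Agent/H87/SA/House.lean`). -/

namespace Pool.Agent.H97.GA

open Finset Polynomial NumberField Pool.Agent.H87.SA

theorem exists_fieldC {κ : Type} [Finite κ] (y : κ → ℂ) (hy : ∀ i, IsIntegral ℤ (y i)) :
    ∃ (k : Type) (_ : Field k) (_ : NumberField k) (ι0 : k →+* ℂ) (yo : κ → 𝓞 k),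
      (∀ i, ι0 (yo i : k) = y i) ∧
      (∀ σ τ : k →+* ℂ, (∀ i, σ (yo i : k) = τ (yo i : k)) → σ = τ) := by
  obtain ⟨K, hK⟩ : ∃ K : IntermediateField ℚ ℂ, K = IntermediateField.adjoin ℚ (Set.range y) :=
    ⟨_, rfl⟩
  have hfd : FiniteDimensional ℚ K := by
    rw [hK]
    apply IntermediateField.finiteDimensional_adjoin
    rintro x ⟨i, rfl⟩
    exact (hy i).tower_top
  have hnf : NumberField K := { to_charZero := inferInstance, to_finiteDimensional := hfd }
  have hmem : ∀ i, y i ∈ K := by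
    intro i
    rw [hK]
    exact IntermediateField.subset_adjoin _ _ ⟨i, rfl⟩
  obtain ⟨yk, hyk⟩ : ∃ yk : κ → K, ∀ i, algebraMap K ℂ (yk i) = y i :=
    ⟨fun i => ⟨y i, hmem i⟩, fun i => rfl⟩
  have hinj : Function.Injective (algebraMap K ℂ) := (algebraMap K ℂ).injective
  have hykint : ∀ i, IsIntegral ℤ (yk i) := by
    intro i
    rw [← isIntegral_algebraMap_iff (B := ℂ) hinj, hyk]
    exact hy i
  obtain ⟨yo, hyo⟩ : ∃ yo : κ → 𝓞 K, ∀ i, (yo i : K) = yk i :=
    ⟨fun i => ⟨yk i, hykint i⟩, fun i => rfl⟩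
  have huniq : ∀ σ τ : K →+* ℂ, (∀ i, σ (yk i) = τ (yk i)) → σ = τ := by
    intro σ τ h
    have h1 : RingHom.toRatAlgHom σ = RingHom.toRatAlgHom τ := by
      apply IntermediateField.algHom_ext_of_eq_adjoin (hS := hK)
      rintro x ⟨i, rfl⟩
      have h2 : (⟨y i, hmem i⟩ : K) = yk i := by
        apply hinj
        rw [hyk]
        rfl
      show σ ⟨y i, _⟩ = τ ⟨y i, _⟩
      rw [h2]
      exact h i
    have h2 := congrArg (fun f : K →ₐ[ℚ] ℂ => (f : K →+* ℂ)) h1
    simpa using h2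
  refine ⟨K, inferInstance, hnf, algebraMap K ℂ, yo, ?_, ?_⟩
  · intro i
    rw [hyo, hyk]
  · intro σ τ h
    apply huniq
    intro i
    rw [← hyo]
    exact h i

theorem exists_permC {d : ℕ} {p : ℤ[X]} {y : Fin d → ℂ} (hy : Function.Injective y)
    (hp : p.map (Int.castRingHom ℂ) = ∏ i, (X - C (y i))) {k : Type} [Field k] (ι0 : k →+* ℂ)
    (yo : Fin d → k) (h : ∀ i, ι0 (yo i) = y i) (σ : k →+* ℂ) :
    ∃ π : Equiv.Perm (Fin d), ∀ i, σ (yo i) = y (π i) := by
  have hroot : ∀ i, eval₂ (Int.castRingHom ℂ) (y i) p = 0 := by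
    intro i
    rw [← eval_map, hp, eval_prod]
    exact Finset.prod_eq_zero (mem_univ i) (by simp)
  have hkroot : ∀ i, eval₂ (Int.castRingHom k) (yo i) p = 0 := by
    intro i
    apply ι0.injective
    rw [Polynomial.hom_eval₂, h, map_zero]
    have : ι0.comp (Int.castRingHom k) = Int.castRingHom ℂ := RingHom.ext_int _ _
    rw [this]
    exact hroot i
  have h1 : ∀ i, ∃ j, σ (yo i) = y j := by
    intro i
    have h2 : eval (σ (yo i)) (p.map (Int.castRingHom ℂ)) = 0 := by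
      rw [eval_map]
      have h3 : σ.comp (Int.castRingHom k) = Int.castRingHom ℂ := RingHom.ext_int _ _
      rw [← h3, ← Polynomial.hom_eval₂, hkroot i, map_zero]
    rw [hp, eval_prod, Finset.prod_eq_zero_iff] at h2
    obtain ⟨j, -, hj⟩ := h2
    refine ⟨j, ?_⟩
    rw [eval_sub, eval_X, eval_C, sub_eq_zero] at hj
    exact hj
  choose π hπ using h1
  have hπi : Function.Injective π := by
    intro i j hij
    have h2 : σ (yo i) = σ (yo j) := by rw [hπ, hπ, hij]
    have h3 := σ.injective h2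
    apply hy
    rw [← h, ← h, h3]
  exact ⟨Equiv.ofBijective π (Finite.injective_iff_bijective.1 hπi), fun i => hπ i⟩

theorem inv_intC {k : Type} [Field k] [NumberField k] (ι0 : k →+* ℂ) (a : 𝓞 k)
    (ha : ∀ σ : k →+* ℂ, σ (a : k) = ι0 (a : k)) : ∃ m : ℤ, a = (m : 𝓞 k) := by
  have h1 : algebraMap ℚ ℂ (Algebra.trace ℚ k (a : k)) = ∑ σ : k →ₐ[ℚ] ℂ, σ (a : k) :=
    trace_eq_sum_embeddings ℂ
  have h2 : ∑ σ : k →ₐ[ℚ] ℂ, σ (a : k) = (Module.finrank ℚ k : ℂ) * ι0 (a : k) := by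
    have h3 : ∀ σ : k →ₐ[ℚ] ℂ, σ (a : k) = ι0 (a : k) := fun σ => ha (σ : k →+* ℂ)
    rw [Finset.sum_congr rfl fun σ _ => h3 σ, Finset.sum_const,
      Finset.card_univ, AlgHom.card, nsmul_eq_mul]
  have hfr : (Module.finrank ℚ k : ℂ) ≠ 0 := by
    have := Module.finrank_pos (R := ℚ) (M := k)
    exact_mod_cast this.ne'
  obtain ⟨q, hq⟩ : ∃ q : ℚ, q = Algebra.trace ℚ k (a : k) / Module.finrank ℚ k := ⟨_, rfl⟩
  have h5 : ι0 (a : k) = algebraMap ℚ ℂ q := by
    rw [hq, map_div₀, h1, h2, map_natCast, mul_div_cancel_left₀ _ hfr]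
  have h6 : (a : k) = algebraMap ℚ k q := by
    apply ι0.injective
    rw [h5]
    simp
  have h7 : IsIntegral ℤ q := by
    have h8 : IsIntegral ℤ (a : k) := RingOfIntegers.isIntegral_coe a
    rw [h6] at h8
    exact (isIntegral_algebraMap_iff (algebraMap ℚ k).injective).mp h8
  obtain ⟨m, hm⟩ := IsIntegrallyClosed.isIntegral_iff.mp h7
  refine ⟨m, ?_⟩
  apply RingOfIntegers.ext
  rw [h6, ← hm]
  simp

end Pool.Agent.H97.GA
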