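import Pool.Agent.H97.GA.Defs
import Pool.Agent.H72.ES.Series
import Pool.Agent.H87.SA.Hens

/-! # [GA-HENS] Scaled Hensel series for `p (u) + ∑_{l<m} (s X)^(l+1) Q_l (u) = 0`

Adapt `Pool.Agent.H87.SA.hens_exists` (`Pool/Agent/H87/SA/Hens.lean`, proved: the case `m = 1`;
`he_taylor` there is reusable: import `Pool.Agent.H87.SA.Hens`).
`δ = ei p' y`, `s = μ δ²`, `u = C y + C δ * w`. Taylor: `ei p u = δ² w + ∑_{j≥2} a_j δ^j w^j`
(`a_0 = ei p y = 0`, `a_1 = δ`), `ei (Q l) u = ∑_j b_(l,j) δ^j w^j`. The equation is `δ²` times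
`w = - ∑_{j≥2} a_j δ^(j-2) w^j - ∑_{l<m} ∑_j μ^(l+1) δ^(2 l) b_(l,j) δ^j X^(l+1) w^j`, solved by
`Pool.Agent.H72.ES.exists_series n c` with `n` larger than `m` and all degrees,
`c 0 j = - a_j δ^(j-2)` for `j ≥ 2`, `c (l+1) j = - μ^(l+1) δ^(2 l) b_(l,j) δ^j` for `l < m`, all other
`c i j = 0`. -/

namespace Pool.Agent.H97.GA

open Finset Polynomial Pool.Agent.H72.ES Pool.Agent.H87.SA

/-- the coefficients of the fixed point equation -/
noncomputable def hensC {S : Type} [CommRing S] (p : ℤ[X]) (Q : ℕ → ℤ[X]) (m : ℕ) (y μ δ : S)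
    (i j : ℕ) : S :=
  if i = 0 then (if 2 ≤ j then
    -((taylor y (p.map (Int.castRingHom S))).coeff j * δ ^ (j - 2)) else 0) else
  if i - 1 < m then
    -(μ ^ i * δ ^ (2 * (i - 1)) * (taylor y ((Q (i - 1)).map (Int.castRingHom S))).coeff j * δ ^ j)
  else 0

theorem hens_core {S : Type} [CommRing S] (p : ℤ[X]) (Q : ℕ → ℤ[X]) (n m : ℕ) (hm : m ≤ n)
    (hp : p.natDegree ≤ n) (hQ : ∀ l < m, (Q l).natDegree ≤ n) (y μ δ : S) (hy : ei p y = 0)
    (hδ : δ = ei (derivative p) y) (w : PowerSeries S)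
    (hw : w = ∑ i ∈ range (n + 1), ∑ j ∈ range (n + 1),
      PowerSeries.C (hensC p Q m y μ δ i j) * PowerSeries.X ^ i * w ^ j) :
    pe p Q m (μ * δ ^ 2) (PowerSeries.C y + PowerSeries.C δ * w) = 0 := by
  obtain ⟨a, ha⟩ : ∃ a : ℕ → S, ∀ j, (taylor y (p.map (Int.castRingHom S))).coeff j = a j :=
    ⟨_, fun _ => rfl⟩
  obtain ⟨b, hb⟩ : ∃ b : ℕ → ℕ → S, ∀ l j,
      (taylor y ((Q l).map (Int.castRingHom S))).coeff j = b l j := ⟨_, fun _ _ => rfl⟩
  have ha0 : a 0 = 0 := by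
    rw [← ha, taylor_coeff_zero, eval_map]
    exact hy
  have ha1 : a 1 = δ := by
    rw [← ha, taylor_coeff_one, derivative_map, eval_map, hδ]
    rfl
  unfold pe
  have hQe : ∀ l ∈ range m, (PowerSeries.C (μ * δ ^ 2) * PowerSeries.X) ^ (l + 1) *
      ei (Q l) (PowerSeries.C y + PowerSeries.C δ * w) =
      PowerSeries.C (δ ^ 2) * ∑ j ∈ range (n + 1),
        PowerSeries.C (μ ^ (l + 1) * δ ^ (2 * l) * b l j * δ ^ j) * PowerSeries.X ^ (l + 1) * w ^ j := by
    intro l hl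
    rw [he_taylor (Q l) y δ w (n + 1) (Nat.lt_succ_of_le (hQ l (mem_range.1 hl))), mul_sum, mul_sum]
    refine sum_congr rfl fun j _ => ?_
    rw [hb, mul_pow, ← map_pow]
    have e : (μ * δ ^ 2) ^ (l + 1) * (b l j * δ ^ j) =
        δ ^ 2 * (μ ^ (l + 1) * δ ^ (2 * l) * b l j * δ ^ j) := by
      ring
    calc PowerSeries.C ((μ * δ ^ 2) ^ (l + 1)) * PowerSeries.X ^ (l + 1) *
          (PowerSeries.C (b l j * δ ^ j) * w ^ j)
        = PowerSeries.C ((μ * δ ^ 2) ^ (l + 1) * (b l j * δ ^ j)) * PowerSeries.X ^ (l + 1) *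
          w ^ j := by
          rw [map_mul PowerSeries.C ((μ * δ ^ 2) ^ (l + 1)) (b l j * δ ^ j)]
          ring
      _ = _ := by
          rw [e, map_mul PowerSeries.C (δ ^ 2)]
          ring
  rw [sum_congr rfl hQe, ← mul_sum, he_taylor p y δ w (n + 1) (Nat.lt_succ_of_le hp)]
  simp only [ha]
  rcases n with _ | n
  · have hm0 : m = 0 := by omega
    subst hm0
    simp [ha0]
  have hw2 : w = ∑ j ∈ range n, PowerSeries.C (-(a (j + 2) * δ ^ j)) * w ^ (j + 2) +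
      ∑ l ∈ range m, ∑ j ∈ range (n + 1 + 1),
        PowerSeries.C (-(μ ^ (l + 1) * δ ^ (2 * l) * b l j * δ ^ j)) *
          PowerSeries.X ^ (l + 1) * w ^ j := by
    conv_lhs => rw [hw]
    rw [Finset.sum_range_succ', add_comm]
    congr 1
    · rw [Finset.sum_range_succ', Finset.sum_range_succ']
      simp [hensC, ha]
    · have h1 : ∀ i ∈ range (n + 1), i ∉ range m → ∑ j ∈ range (n + 1 + 1),
          PowerSeries.C (hensC p Q m y μ δ (i + 1) j) * PowerSeries.X ^ (i + 1) * w ^ j = 0 := by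
        intro i _ hi
        rw [mem_range] at hi
        refine sum_eq_zero fun j _ => ?_
        unfold hensC
        rw [if_neg (by omega), if_neg (by omega)]
        simp
      rw [← sum_subset (range_subset_range.2 hm) h1]
      refine sum_congr rfl fun l hl => ?_
      rw [mem_range] at hl
      refine sum_congr rfl fun j _ => ?_
      unfold hensC
      rw [if_neg (by omega), if_pos (by omega), Nat.add_sub_cancel, hb]
  have hP : ∑ j ∈ range (n + 1 + 1), PowerSeries.C (a j * δ ^ j) * w ^ j =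
      PowerSeries.C (δ ^ 2) * w +
        PowerSeries.C (δ ^ 2) * ∑ j ∈ range n, PowerSeries.C (a (j + 2) * δ ^ j) * w ^ (j + 2) := by
    rw [Finset.sum_range_succ', Finset.sum_range_succ', ha0, ha1, mul_sum]
    have h2 : ∀ j ∈ range n, PowerSeries.C (a (j + 1 + 1) * δ ^ (j + 1 + 1)) * w ^ (j + 1 + 1) =
        PowerSeries.C (δ ^ 2) * (PowerSeries.C (a (j + 2) * δ ^ j) * w ^ (j + 2)) := by
      intro j _
      rw [← mul_assoc, ← map_mul]
      congr 2
      ring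
    rw [sum_congr rfl h2]
    simp
    ring
  rw [hP]
  have h4 : ∑ j ∈ range n, PowerSeries.C (-(a (j + 2) * δ ^ j)) * w ^ (j + 2) =
      -∑ j ∈ range n, PowerSeries.C (a (j + 2) * δ ^ j) * w ^ (j + 2) := by
    rw [← sum_neg_distrib]
    refine sum_congr rfl fun j _ => ?_
    rw [map_neg]
    ring
  have h5 : ∑ l ∈ range m, ∑ j ∈ range (n + 1 + 1),
        PowerSeries.C (-(μ ^ (l + 1) * δ ^ (2 * l) * b l j * δ ^ j)) *
          PowerSeries.X ^ (l + 1) * w ^ j =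
      -∑ l ∈ range m, ∑ j ∈ range (n + 1 + 1),
        PowerSeries.C (μ ^ (l + 1) * δ ^ (2 * l) * b l j * δ ^ j) *
          PowerSeries.X ^ (l + 1) * w ^ j := by
    rw [← sum_neg_distrib]
    refine sum_congr rfl fun l _ => ?_
    rw [← sum_neg_distrib]
    refine sum_congr rfl fun j _ => ?_
    rw [map_neg]
    ring
  rw [h4, h5] at hw2
  obtain ⟨A, hA⟩ : ∃ A : PowerSeries S, A = ∑ j ∈ range n,
      PowerSeries.C (a (j + 2) * δ ^ j) * w ^ (j + 2) := ⟨_, rfl⟩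
  obtain ⟨B, hB⟩ : ∃ B : PowerSeries S, B = ∑ l ∈ range m, ∑ j ∈ range (n + 1 + 1),
        PowerSeries.C (μ ^ (l + 1) * δ ^ (2 * l) * b l j * δ ^ j) *
          PowerSeries.X ^ (l + 1) * w ^ j := ⟨_, rfl⟩
  rw [← hA, ← hB] at hw2
  rw [← hA, ← hB]
  have h6 : w + A + B = 0 := by
    linear_combination hw2
  linear_combination PowerSeries.C (δ ^ 2) * h6

theorem hens_ex {S : Type} [CommRing S] (p : ℤ[X]) (Q : ℕ → ℤ[X]) (m : ℕ) (y μ : S)
    (hy : ei p y = 0) :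
    ∃ u : PowerSeries S, PowerSeries.constantCoeff u = y ∧
      pe p Q m (μ * ei (derivative p) y ^ 2) u = 0 := by
  obtain ⟨δ, hδ⟩ : ∃ δ : S, δ = ei (derivative p) y := ⟨_, rfl⟩
  rw [← hδ]
  obtain ⟨n, hm, hp, hQ⟩ : ∃ n : ℕ, m ≤ n ∧ p.natDegree ≤ n ∧ ∀ l < m, (Q l).natDegree ≤ n := by
    refine ⟨m + p.natDegree + ∑ l ∈ range m, (Q l).natDegree, by omega, by omega, ?_⟩
    intro l hl
    have := single_le_sum (f := fun l => (Q l).natDegree) (fun _ _ => Nat.zero_le _)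
      (mem_range.2 hl)
    omega
  obtain ⟨w, hw0, hw⟩ := exists_series (R := S) n (hensC p Q m y μ δ) (by simp [hensC])
    (by simp [hensC])
  exact ⟨PowerSeries.C y + PowerSeries.C δ * w, by simp [hw0],
    hens_core p Q n m hm hp hQ y μ δ hy hδ w hw⟩

end Pool.Agent.H97.GA
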