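import Pool.Agent.H97.GA.Defs

/-! # [GA-PEU] Uniqueness of Hensel series, rescaling

`pe_unique`: adapt `Pool.Agent.H87.SA.hens_unique` (`Pool/Agent/H87/SA/Hens.lean`): `w = u - u'` has
constant coefficient `0`; `ei p u - ei p u' = w A`, `constantCoeff A = ei p' y`
(`Polynomial.binomExpansion`), `ei (Q l) u - ei (Q l) u' = w E_l` (`Polynomial.sub_dvd_eval_sub`), so
`w (A + ∑ (c X)^(l+1) E_l) = 0`, and the second factor has constant coefficient `ei p' y ≠ 0`.
`pe_rescale`: `PowerSeries.rescale b` is a ring homomorphism with `C c ↦ C c` and `X ↦ C b * X`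
(`PowerSeries.rescale_X`), it commutes with `ei` (`map_ei`).
`pe_const`: `constantCoeff` is a ring homomorphism. -/

namespace Pool.Agent.H97.GA

open Finset Polynomial Pool.Agent.H72.ES Pool.Agent.H87.SA

theorem pe_unique {S : Type} [CommRing S] [IsDomain S] (p : ℤ[X]) (Q : ℕ → ℤ[X]) (m : ℕ) (y c : S)
    (hδ : ei (derivative p) y ≠ 0) (u u' : PowerSeries S) (hu0 : PowerSeries.constantCoeff u = y)
    (hu0' : PowerSeries.constantCoeff u' = y) (hu : pe p Q m c u = 0) (hu' : pe p Q m c u' = 0) :
    u = u' := by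
  have hei : ∀ (r : ℤ[X]) (v : PowerSeries S),
      ei r v = (r.map (Int.castRingHom (PowerSeries S))).eval v := by
    intro r v
    rw [eval_map]
    rfl
  obtain ⟨k, hk⟩ := Polynomial.binomExpansion (p.map (Int.castRingHom (PowerSeries S))) u' (u - u')
  have he : ∀ l : ℕ, ∃ e : PowerSeries S, ei (Q l) u - ei (Q l) u' = (u - u') * e := by
    intro l
    obtain ⟨e, he⟩ := Polynomial.sub_dvd_eval_sub u u' ((Q l).map (Int.castRingHom (PowerSeries S)))
    exact ⟨e, by rw [hei, hei]; exact he⟩
  choose e he using he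
  rw [add_sub_cancel, derivative_map, ← hei, ← hei, ← hei] at hk
  have hsum : ∑ l ∈ range m, (PowerSeries.C c * PowerSeries.X) ^ (l + 1) * ei (Q l) u -
      ∑ l ∈ range m, (PowerSeries.C c * PowerSeries.X) ^ (l + 1) * ei (Q l) u' =
      (u - u') * ∑ l ∈ range m, (PowerSeries.C c * PowerSeries.X) ^ (l + 1) * e l := by
    rw [← sum_sub_distrib, mul_sum]
    refine sum_congr rfl fun l _ => ?_
    rw [← mul_sub, he]
    ring
  unfold pe at hu hu'
  have hprod : (u - u') * (ei (derivative p) u' + k * (u - u') +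
      ∑ l ∈ range m, (PowerSeries.C c * PowerSeries.X) ^ (l + 1) * e l) = 0 := by
    linear_combination hu - hu' - hk - hsum
  rcases mul_eq_zero.1 hprod with h | h
  · exact sub_eq_zero.1 h
  · exfalso
    apply hδ
    have h1 := congrArg PowerSeries.constantCoeff h
    rw [map_add, map_add, map_mul, map_sub, hu0, hu0', map_ei, hu0', sub_self, map_sum,
      map_zero] at h1
    rw [sum_eq_zero (fun l _ => by
      rw [map_mul, map_pow, map_mul, PowerSeries.constantCoeff_X]; simp)] at h1
    simpa using h1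

theorem pe_rescale {S : Type} [CommRing S] (p : ℤ[X]) (Q : ℕ → ℤ[X]) (m : ℕ) (c b : S)
    (u : PowerSeries S) :
    PowerSeries.rescale b (pe p Q m c u) = pe p Q m (c * b) (PowerSeries.rescale b u) := by
  have hC : ∀ x : S, PowerSeries.rescale b (PowerSeries.C x) = PowerSeries.C x := by
    intro x
    ext n
    rw [PowerSeries.coeff_rescale, PowerSeries.coeff_C]
    split_ifs with h
    · rw [h, pow_zero, one_mul]
    · rw [mul_zero]
  unfold pe
  rw [map_add, map_ei, map_sum]
  congr 1
  refine sum_congr rfl fun l _ => ?_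
  rw [map_mul, map_pow, map_mul, map_ei, PowerSeries.rescale_X, hC, map_mul (PowerSeries.C),
    mul_assoc]

theorem pe_const {S : Type} [CommRing S] (p : ℤ[X]) (Q : ℕ → ℤ[X]) (m : ℕ) (c : S)
    (u : PowerSeries S) :
    PowerSeries.constantCoeff (pe p Q m c u) = ei p (PowerSeries.constantCoeff u) := by
  unfold pe
  rw [map_add, map_ei, map_sum, sum_eq_zero, add_zero]
  intro l _
  rw [map_mul, map_pow, map_mul, PowerSeries.constantCoeff_X]
  simp

end Pool.Agent.H97.GA
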