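import Pool.Agent.H87.SA.NFG

/-! # [GA-FAC2] A factor of small degree over the ring of integers of the twisted field

Adapt `Pool.Agent.H87.SA.exists_fac` (`Pool/Agent/H87/SA/NFG.lean`, proved; all of it except the
degree can be copied: `g1 = minpoly (𝓞 k) θ`).
Degree: `A = ι(k)` (a subfield of `ℝ`), `F = A(c)`. `[F : A] ≤ r = deg (minpoly ℚ c)`.
`s = deg (minpoly ℚ(ξ) θ)`: `s deg (minpoly ℚ ξ) ≤ n` (`deg_K0` in that file proves it with `3` in place
of `deg (minpoly ℚ ξ)`; the proof gives the product), `ξ ∈ ℚ(z, c) ⊆ F`, so `deg (minpoly F θ) ≤ s`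
(`minpoly.dvd_map_of_isScalarTower`), and
`deg (minpoly A θ) = [A(θ) : A] ≤ [F(θ) : A] = deg (minpoly F θ) [F : A] ≤ s r`. With
`3 r ≤ deg (minpoly ℚ ξ)`: `3 s r ≤ n`. -/

namespace Pool.Agent.H97.GA

open Finset Polynomial NumberField Pool.Agent.H87.SA

/-- degree over the field generated by `ξ` -/
theorem deg_K0_mul {n : ℕ} {f : ℤ[X]} (hm : f.Monic) (hd : f.natDegree = n) (θ : ℝ)
    (hθ : aeval θ f = 0) (ξ : ℝ) (hξ1 : ξ ∈ IntermediateField.adjoin ℚ {θ})
    (hξint : IsIntegral ℚ ξ) :
    (minpoly ℚ ξ).natDegree * (minpoly (IntermediateField.adjoin ℚ {ξ}) θ).natDegree ≤ n := by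
  have hint : IsIntegral ℤ θ := ⟨f, hm, hθ⟩
  have hintQ : IsIntegral ℚ θ := hint.tower_top
  have hintK : IsIntegral (IntermediateField.adjoin ℚ {ξ}) θ := hintQ.tower_top
  set K0 := IntermediateField.adjoin ℚ {ξ} with hK0
  set E := IntermediateField.adjoin K0 {θ} with hE
  have e1 : Module.finrank K0 E = (minpoly K0 θ).natDegree :=
    IntermediateField.adjoin.finrank hintK
  have e2 : Module.finrank ℚ K0 = (minpoly ℚ ξ).natDegree :=
    IntermediateField.adjoin.finrank hξint
  have e3 : Module.finrank ℚ K0 * Module.finrank K0 E = Module.finrank ℚ E :=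
    Module.finrank_mul_finrank ℚ K0 E
  have e4 : E.restrictScalars ℚ = IntermediateField.adjoin ℚ {θ} := by
    have e4' : E.restrictScalars ℚ = IntermediateField.adjoin ℚ {ξ, θ} :=
      IntermediateField.adjoin_simple_adjoin_simple ℚ ξ θ
    rw [e4']
    apply le_antisymm
    · rw [IntermediateField.adjoin_le_iff]
      intro x hx
      rcases hx with rfl | hx
      · exact hξ1
      · rw [Set.mem_singleton_iff] at hx
        rw [hx]
        exact IntermediateField.mem_adjoin_simple_self ℚ θ
    · apply IntermediateField.adjoin.mono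
      intro x hx
      rw [Set.mem_singleton_iff] at hx
      rw [hx]
      simp
  have e5 : Module.finrank ℚ E = Module.finrank ℚ (IntermediateField.adjoin ℚ {θ}) := by
    rw [← e4]
    rfl
  have e6 : Module.finrank ℚ (IntermediateField.adjoin ℚ {θ}) = (minpoly ℚ θ).natDegree :=
    IntermediateField.adjoin.finrank hintQ
  have e7 : (minpoly ℚ θ).natDegree ≤ n := by
    have h1 : minpoly ℚ θ ∣ f.map (algebraMap ℤ ℚ) := by
      apply minpoly.dvd
      rw [aeval_map_algebraMap]
      exact hθ
    have h2 := natDegree_le_of_dvd h1 (hm.map (algebraMap ℤ ℚ)).ne_zero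
    rw [hm.natDegree_map, hd] at h2
    exact h2
  rw [e1, e2, e5, e6] at e3
  omega

/-- the degree over `k` is at most the degree over the field generated by `ξ` times that of `c` -/
theorem deg_le_K0_mul {k : Type} [Field k] [NumberField k] (ι : k →+* ℝ) {θ : ℝ}
    (hint : IsIntegral ℤ θ) (ξ c z : ℝ) (hz : ∃ b : k, ι b = z) (hc : IsIntegral ℚ c)
    (hξ2 : ξ ∈ IntermediateField.adjoin ℚ {z, c}) :
    (@minpoly k ℝ _ _ ι.toAlgebra θ).natDegree ≤
      (minpoly (IntermediateField.adjoin ℚ {ξ}) θ).natDegree * (minpoly ℚ c).natDegree := by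
  let algk : Algebra k ℝ := ι.toAlgebra
  have hintQ : IsIntegral ℚ θ := hint.tower_top
  have hintK : IsIntegral (IntermediateField.adjoin ℚ {ξ}) θ := hintQ.tower_top
  have towerQ : IsScalarTower ℚ k ℝ := inferInstance
  have hck : IsIntegral k c := hc.tower_top
  set F := IntermediateField.adjoin k {c} with hF
  have hθF : IsIntegral F θ := hintQ.tower_top
  set E := IntermediateField.adjoin F {θ} with hE
  have e1 : Module.finrank k F = (minpoly k c).natDegree := IntermediateField.adjoin.finrank hck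
  have e2 : Module.finrank F E = (minpoly F θ).natDegree := IntermediateField.adjoin.finrank hθF
  have e3 : Module.finrank k F * Module.finrank F E = Module.finrank k E :=
    Module.finrank_mul_finrank k F E
  have e4 : (minpoly k c).natDegree ≤ (minpoly ℚ c).natDegree := by
    have h1 := minpoly.dvd_map_of_isScalarTower ℚ k c
    have h2 := natDegree_le_of_dvd h1 ((minpoly.monic hc).map _).ne_zero
    rw [(minpoly.monic hc).natDegree_map] at h2
    exact h2
  have hle : IntermediateField.adjoin ℚ {ξ} ≤ F.restrictScalars ℚ := by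
    rw [IntermediateField.adjoin_simple_le_iff]
    have h1 : IntermediateField.adjoin ℚ {z, c} ≤ F.restrictScalars ℚ := by
      rw [IntermediateField.adjoin_le_iff]
      intro x hx
      rcases hx with rfl | hx
      · obtain ⟨b, hb⟩ := hz
        have h2 : algebraMap k ℝ b ∈ F := F.algebraMap_mem b
        rw [← hb]
        exact h2
      · rw [Set.mem_singleton_iff] at hx
        rw [hx]
        exact IntermediateField.mem_adjoin_simple_self k c
    exact h1 hξ2
  let φ : (IntermediateField.adjoin ℚ {ξ}) →+* F :=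
    { toFun := fun x => ⟨(x : ℝ), hle x.2⟩
      map_one' := rfl
      map_mul' := fun _ _ => rfl
      map_zero' := rfl
      map_add' := fun _ _ => rfl }
  let algφ : Algebra (IntermediateField.adjoin ℚ {ξ}) F := φ.toAlgebra
  have tower : IsScalarTower (IntermediateField.adjoin ℚ {ξ}) F ℝ :=
    IsScalarTower.of_algebraMap_eq (fun x => rfl)
  have e5 : (minpoly F θ).natDegree ≤ (minpoly (IntermediateField.adjoin ℚ {ξ}) θ).natDegree := by
    have h1 := minpoly.dvd_map_of_isScalarTower (IntermediateField.adjoin ℚ {ξ}) F θ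
    have h2 := natDegree_le_of_dvd h1 ((minpoly.monic hintK).map _).ne_zero
    rw [(minpoly.monic hintK).natDegree_map] at h2
    exact h2
  have fdF : FiniteDimensional k F := IntermediateField.adjoin.finiteDimensional hck
  have fdE : FiniteDimensional F E := IntermediateField.adjoin.finiteDimensional hθF
  have fdkE : FiniteDimensional k E := FiniteDimensional.trans k F E
  have e6 : (minpoly k θ).natDegree ≤ Module.finrank k E := by
    let θ' : E := ⟨θ, IntermediateField.mem_adjoin_simple_self F θ⟩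
    have towerE : IsScalarTower k E ℝ := IsScalarTower.of_algebraMap_eq (fun x => rfl)
    have h1 : minpoly k θ = minpoly k θ' := by
      have := minpoly.algebraMap_eq (A := k) (B := E) (B' := ℝ)
        (FaithfulSMul.algebraMap_injective E ℝ) θ'
      exact this
    rw [h1]
    exact minpoly.natDegree_le θ'
  rw [← e3, e1, e2] at e6
  calc (minpoly k θ).natDegree ≤ (minpoly k c).natDegree * (minpoly F θ).natDegree := e6
    _ ≤ (minpoly ℚ c).natDegree * (minpoly (IntermediateField.adjoin ℚ {ξ}) θ).natDegree :=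
        Nat.mul_le_mul e4 e5
    _ = _ := mul_comm _ _

theorem exists_fac2 {k : Type} [Field k] [NumberField k] (ι : k →+* ℝ) {n : ℕ} {f : ℤ[X]}
    (hm : f.Monic) (hd : f.natDegree = n) (hf : Irreducible f) (θ : ℝ) (hθ : aeval θ f = 0)
    (ξ c z : ℝ) (hz : ∃ b : k, ι b = z) (hc : IsIntegral ℚ c)
    (hξ1 : ξ ∈ IntermediateField.adjoin ℚ {θ}) (hξ2 : ξ ∈ IntermediateField.adjoin ℚ {z, c})
    (hξ3 : 3 * (minpoly ℚ c).natDegree ≤ (minpoly ℚ ξ).natDegree) :
    ∃ g1 : (𝓞 k)[X], g1.Monic ∧ 0 < g1.natDegree ∧ 3 * g1.natDegree ≤ n ∧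
      g1 ∣ f.map (algebraMap ℤ (𝓞 k)) ∧ eval₂ (ι.comp (algebraMap (𝓞 k) k)) θ g1 = 0 := by
  have hint : IsIntegral ℤ θ := ⟨f, hm, hθ⟩
  have hcpos : 0 < (minpoly ℚ c).natDegree := minpoly.natDegree_pos hc
  have hξint : IsIntegral ℚ ξ := by
    by_contra h
    rw [minpoly.eq_zero h, natDegree_zero] at hξ3
    omega
  -- algebra structures
  let algk : Algebra k ℝ := ι.toAlgebra
  let algO : Algebra (𝓞 k) ℝ := (ι.comp (algebraMap (𝓞 k) k)).toAlgebra
  have tower : IsScalarTower (𝓞 k) k ℝ := IsScalarTower.of_algebraMap_eq (fun x => rfl)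
  have inj : FaithfulSMul (𝓞 k) ℝ := by
    rw [faithfulSMul_iff_algebraMap_injective]
    exact ι.injective.comp (FaithfulSMul.algebraMap_injective (𝓞 k) k)
  have hev : aeval θ (f.map (algebraMap ℤ (𝓞 k))) = 0 := by
    rw [aeval_map_algebraMap]
    exact hθ
  have hintO : IsIntegral (𝓞 k) θ := ⟨f.map (algebraMap ℤ (𝓞 k)), hm.map _, hev⟩
  refine ⟨minpoly (𝓞 k) θ, minpoly.monic hintO, minpoly.natDegree_pos hintO, ?_,
    minpoly.isIntegrallyClosed_dvd hintO hev, minpoly.aeval (𝓞 k) θ⟩
  have h1 : minpoly k θ = (minpoly (𝓞 k) θ).map (algebraMap (𝓞 k) k) :=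
    minpoly.isIntegrallyClosed_eq_field_fractions' k hintO
  have h2 : (minpoly (𝓞 k) θ).natDegree = (minpoly k θ).natDegree := by
    rw [h1, (minpoly.monic hintO).natDegree_map]
  rw [h2]
  have h3 := deg_le_K0_mul ι hint ξ c z hz hc hξ2
  have h4 := deg_K0_mul hm hd θ hθ ξ hξ1 hξint
  calc 3 * (minpoly k θ).natDegree ≤ 3 * ((minpoly (IntermediateField.adjoin ℚ {ξ}) θ).natDegree *
        (minpoly ℚ c).natDegree) := Nat.mul_le_mul_left 3 h3
    _ = (3 * (minpoly ℚ c).natDegree) *
        (minpoly (IntermediateField.adjoin ℚ {ξ}) θ).natDegree := by ring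
    _ ≤ (minpoly ℚ ξ).natDegree * (minpoly (IntermediateField.adjoin ℚ {ξ}) θ).natDegree :=
        Nat.mul_le_mul_right _ hξ3
    _ ≤ n := h4

end Pool.Agent.H97.GA
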