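import Pool.Agent.H97.GA.Defs

/-! # [GA-WEQA] The polynomial identities between `fv`, `p0`, `q0`, `gN`, `hN`

`fv_pe`: `fv` is a double sum over `i ≤ m`, `j < d`; the terms `i = 0` give `p0`, the terms `i = l + 1`
give `t^(l+1) q0 l` (`Finset.sum_range_succ'`; `ei` of a sum: `eval₂_add`, `eval₂_finsetSum`, ...).
`gN_hN`: both sides are
`N^(md) w^d + ∑_{i≤m, j<d} a_ij N^(m(d-j)-i) (1 + M X)^i N^(mj) w^j`, and
`(1 + M X)^i = 1 + ∑_{l<m} binom(i, l+1) (M X)^(l+1)` for `i ≤ m` (`add_pow`, `Nat.choose` is `0` for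
`l + 1 > i`); `N^(m(d-j)-i) N^(mj) = N^(md) (1/N)^i` as `i ≤ m ≤ m (d-j)`.
`gN_val`: the same identity without the power series variable. (One may prove first a general
statement in a commutative ring in which the image of `N` has an inverse `t`.) -/

namespace Pool.Agent.H97.GA

open Finset Polynomial NumberField Pool.Agent.H72.ES Pool.Agent.H87.SA

theorem weqa_sumC {S : Type*} [CommRing S] (d : ℕ) (b : ℕ → ℤ) (w : S) :
    ei (∑ j ∈ range d, C (b j) * X ^ j) w = ∑ j ∈ range d, (b j : S) * w ^ j := by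
  unfold ei
  rw [eval₂_finsetSum]
  refine sum_congr rfl fun j _ => ?_
  rw [eval₂_mul, eval₂_C, eval₂_X_pow]
  rfl

theorem weqa_poly {S : Type*} [CommRing S] (d : ℕ) (b : ℕ → ℤ) (w : S) :
    ei (X ^ d + ∑ j ∈ range d, C (b j) * X ^ j) w = w ^ d + ∑ j ∈ range d, (b j : S) * w ^ j := by
  rw [← weqa_sumC]
  unfold ei
  rw [eval₂_add, eval₂_X_pow]

theorem fv_pe {S : Type} [CommRing S] (d m : ℕ) (a : ℕ → ℕ → ℤ) (t w : S) :
    fv d m a t w = ei (p0 d a) w + ∑ l ∈ range m, t ^ (l + 1) * ei (q0 d a l) w := by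
  unfold fv p0 q0
  rw [weqa_poly, sum_range_succ']
  have h1 : ∑ l ∈ range m, t ^ (l + 1) * ei (∑ j ∈ range d, C (a (l + 1) j) * X ^ j) w =
      ∑ l ∈ range m, ∑ j ∈ range d, (a (l + 1) j : S) * t ^ (l + 1) * w ^ j := by
    refine sum_congr rfl fun l _ => ?_
    rw [weqa_sumC, mul_sum]
    refine sum_congr rfl fun j _ => ?_
    ring
  have h2 : ∑ j ∈ range d, (a 0 j : S) * t ^ 0 * w ^ j = ∑ j ∈ range d, (a 0 j : S) * w ^ j := by
    refine sum_congr rfl fun j _ => ?_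
    rw [pow_zero, mul_one]
  rw [h1, h2]
  ring

theorem weqa_binom {S : Type*} [CommRing S] (m i : ℕ) (hi : i ≤ m) (y : S) :
    (1 + y) ^ i = 1 + ∑ l ∈ range m, (i.choose (l + 1) : S) * y ^ (l + 1) := by
  have h1 : (1 + y) ^ i = ∑ k ∈ range (i + 1), (i.choose k : S) * y ^ k := by
    rw [add_comm, add_pow]
    refine sum_congr rfl fun k _ => ?_
    rw [one_pow]
    ring
  have h2 : ∑ k ∈ range (i + 1), (i.choose k : S) * y ^ k =
      ∑ k ∈ range (m + 1), (i.choose k : S) * y ^ k := by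
    apply sum_subset
    · intro k hk
      rw [mem_range] at hk ⊢
      omega
    · intro k _ hk
      rw [mem_range] at hk
      rw [Nat.choose_eq_zero_of_lt (by omega), Nat.cast_zero, zero_mul]
  rw [h1, h2, sum_range_succ', Nat.choose_zero_right, Nat.cast_one, pow_zero]
  ring

theorem weqa_gen {S : Type*} [CommRing S] (d m : ℕ) (a : ℕ → ℕ → ℤ) (N M : ℕ) (t s w : S)
    (ht : (N : S) * t = 1) :
    ei (gN d m a N) ((N : S) ^ m * w) +
      ∑ l ∈ range m, s ^ (l + 1) * ei (hN d m a N M l) ((N : S) ^ m * w) =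
    (N : S) ^ (m * d) * fv d m a (t * (1 + (M : S) * s)) w := by
  obtain ⟨A, hA⟩ : ∃ A : ℕ → ℕ → S, ∀ i j, A i j =
      (a i j : S) * (N : S) ^ (m * (d - j) - i) * ((N : S) ^ m * w) ^ j := ⟨_, fun _ _ => rfl⟩
  -- the terms of the right side
  have h1 : ∀ i ∈ range (m + 1), ∀ j ∈ range d,
      (N : S) ^ (m * d) * ((a i j : S) * (t * (1 + (M : S) * s)) ^ i * w ^ j) =
      A i j + ∑ l ∈ range m, A i j * (i.choose (l + 1) : S) * (M : S) ^ (l + 1) * s ^ (l + 1) := by
    intro i hi j hj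
    rw [mem_range] at hi hj
    have hi' : i ≤ m := by omega
    have e1 : (N : S) ^ (m * d) * t ^ i = (N : S) ^ (m * (d - j) - i) * ((N : S) ^ m) ^ j := by
      have e2 : m * d = (m * (d - j) - i) + i + m * j := by
        have e3 : m * d = m * (d - j) + m * j := by
          rw [← Nat.mul_add]
          congr 1
          omega
        have e4 : m ≤ m * (d - j) := Nat.le_mul_of_pos_right _ (by omega)
        omega
      have e5 : (N : S) ^ i * t ^ i = 1 := by
        rw [← mul_pow, ht, one_pow]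
      rw [e2, pow_add, pow_add, ← pow_mul]
      calc (N : S) ^ (m * (d - j) - i) * (N : S) ^ i * (N : S) ^ (m * j) * t ^ i
          = (N : S) ^ (m * (d - j) - i) * (N : S) ^ (m * j) * ((N : S) ^ i * t ^ i) := by ring
        _ = _ := by rw [e5, mul_one]
    have e2 : (N : S) ^ (m * d) * ((a i j : S) * (t * (1 + (M : S) * s)) ^ i * w ^ j) =
        A i j * (1 + (M : S) * s) ^ i := by
      rw [hA, mul_pow t, mul_pow _ w]
      calc (N : S) ^ (m * d) * ((a i j : S) * (t ^ i * (1 + (M : S) * s) ^ i) * w ^ j)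
          = (a i j : S) * ((N : S) ^ (m * d) * t ^ i) * w ^ j * (1 + (M : S) * s) ^ i := by ring
        _ = _ := by
          rw [e1]
          ring
    rw [e2, weqa_binom m i hi', mul_add, mul_one, mul_sum]
    congr 1
    refine sum_congr rfl fun l _ => ?_
    rw [mul_pow]
    ring
  have h2 : (N : S) ^ (m * d) * fv d m a (t * (1 + (M : S) * s)) w =
      ((N : S) ^ m * w) ^ d + (∑ i ∈ range (m + 1), ∑ j ∈ range d, A i j +
        ∑ i ∈ range (m + 1), ∑ j ∈ range d, ∑ l ∈ range m,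
          A i j * (i.choose (l + 1) : S) * (M : S) ^ (l + 1) * s ^ (l + 1)) := by
    unfold fv
    rw [mul_add, mul_pow, ← pow_mul, ← sum_add_distrib]
    congr 1
    rw [mul_sum]
    refine sum_congr rfl fun i hi => ?_
    rw [mul_sum, ← sum_add_distrib]
    exact sum_congr rfl fun j hj => h1 i hi j hj
  have h3 : ei (gN d m a N) ((N : S) ^ m * w) = ((N : S) ^ m * w) ^ d +
      ∑ i ∈ range (m + 1), ∑ j ∈ range d, A i j := by
    unfold gN
    rw [weqa_poly, sum_comm]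
    congr 1
    refine sum_congr rfl fun j _ => ?_
    push_cast
    rw [sum_mul]
    refine sum_congr rfl fun i _ => ?_
    rw [hA]
  have h4 : ∑ l ∈ range m, s ^ (l + 1) * ei (hN d m a N M l) ((N : S) ^ m * w) =
      ∑ i ∈ range (m + 1), ∑ j ∈ range d, ∑ l ∈ range m,
          A i j * (i.choose (l + 1) : S) * (M : S) ^ (l + 1) * s ^ (l + 1) := by
    have e1 : ∀ l ∈ range m, s ^ (l + 1) * ei (hN d m a N M l) ((N : S) ^ m * w) =
        ∑ i ∈ range (m + 1), ∑ j ∈ range d,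
          A i j * (i.choose (l + 1) : S) * (M : S) ^ (l + 1) * s ^ (l + 1) := by
      intro l _
      unfold hN
      rw [weqa_sumC, mul_sum, sum_comm]
      refine sum_congr rfl fun j _ => ?_
      push_cast
      rw [sum_mul, mul_sum]
      refine sum_congr rfl fun i _ => ?_
      rw [hA]
      ring
    rw [sum_congr rfl e1, sum_comm]
    refine sum_congr rfl fun i _ => ?_
    rw [sum_comm]
  rw [h2, h3, h4]
  ring

theorem gN_hN (d m : ℕ) (hd : 1 ≤ d) (a : ℕ → ℕ → ℤ) {N : ℕ} (hN0 : N ≠ 0) (M : ℕ)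
    (w : PowerSeries ℂ) :
    pe (gN d m a N) (hN d m a N M) m 1 (PowerSeries.C ((N : ℂ) ^ m) * w) =
      PowerSeries.C ((N : ℂ) ^ (m * d)) * fv d m a (PowerSeries.C (1 / (N : ℂ)) *
        (1 + PowerSeries.C (M : ℂ) * PowerSeries.X)) w := by
  have hN' : (N : ℂ) ≠ 0 := by exact_mod_cast hN0
  have hc : ∀ n : ℕ, PowerSeries.C ((n : ℕ) : ℂ) = ((n : ℕ) : PowerSeries ℂ) := fun n =>
    map_natCast (PowerSeries.C (R := ℂ)) n
  have hp : ∀ k : ℕ, PowerSeries.C ((N : ℂ) ^ k) = (N : PowerSeries ℂ) ^ k := by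
    intro k
    rw [map_pow, hc]
  have ht : (N : PowerSeries ℂ) * PowerSeries.C (1 / (N : ℂ)) = 1 := by
    rw [← hc, ← map_mul, mul_one_div_cancel hN', map_one]
  have h := weqa_gen d m a N M (PowerSeries.C (1 / (N : ℂ))) PowerSeries.X w ht
  have h1 : pe (gN d m a N) (hN d m a N M) m 1 ((N : PowerSeries ℂ) ^ m * w) =
      ei (gN d m a N) ((N : PowerSeries ℂ) ^ m * w) +
      ∑ l ∈ range m, PowerSeries.X ^ (l + 1) *
        ei (hN d m a N M l) ((N : PowerSeries ℂ) ^ m * w) := by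
    unfold pe
    rw [map_one, one_mul]
  rw [hp, hp, hc, h1]
  exact h

theorem gN_val (d m : ℕ) (hd : 1 ≤ d) (a : ℕ → ℕ → ℤ) {N : ℕ} (hN0 : N ≠ 0) (x : ℂ) :
    ei (gN d m a N) ((N : ℂ) ^ m * x) = (N : ℂ) ^ (m * d) * fv d m a (1 / (N : ℂ)) x := by
  have hN' : (N : ℂ) ≠ 0 := by exact_mod_cast hN0
  have h := weqa_gen d m a N 0 (1 / (N : ℂ)) 0 x (mul_one_div_cancel hN')
  have h0 : ∑ l ∈ range m, (0 : ℂ) ^ (l + 1) * ei (hN d m a N 0 l) ((N : ℂ) ^ m * x) = 0 := by
    refine sum_eq_zero fun l _ => ?_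
    rw [zero_pow (Nat.succ_ne_zero l), zero_mul]
  rw [h0, add_zero, mul_zero, add_zero, mul_one] at h
  exact h

end Pool.Agent.H97.GA
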