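import Pool.Agent.H97.GA.TCA

/-! # [GA-TCB] Complex Taylor shift: equations, sums, conjugation, nearness

`tayC_sumC`: induction on the finset with `tayC_add`, `tayC_mul`, `tayC_C` (`tayC h 0 = 0` from
`tayC_C`, `map_zero`). `CvC` of sums and powers similarly.
`tayC_pe`: build the subring `{a | CvC h a}` and the ring homomorphism `a ↦ tayC h a` on it, and use
`map_ei`; or: `ei p u = ∑ p_j u^j` (`Polynomial.eval₂_eq_sum_range`) and induction.
`tayC_ofReal`: `reS (map ofReal a) = a`, `imS (map ofReal a) = 0`, `tay h 0 = 0`.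
`tayC_conj`: `reS (conj a) = reS a`, `imS (conj a) = - imS a`, `tay h (-b) = - tay h b` (coefficientwise:
`tsum_neg`), and `conj (p + I q) = p - I q` for real `p, q`.
`CvC_of`: `|re| ≤ ‖·‖`. `evC_near`: `evC h a = evl h (reS a) + I evl h (imS a)` (`tay_coeff_zero`), and
for a real series `b` with `|b_k| ≤ A R^k`, `R h ≤ 1/2`: `|evl h b - b_0| ≤ ∑_{k≥1} A (R h)^k ≤ 2 A R h`
(see `val_evl` in `Pool/Agent/H87/SA/Val.lean` for a proof with `Geo.evl_le`). -/

namespace Pool.Agent.H97.GA

open Finset Polynomial Pool.Agent.H72.ES Pool.Agent.H87.SA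

private theorem geo_re {A R : ℝ} {a : PowerSeries ℂ}
    (ha : ∀ k, ‖PowerSeries.coeff k a‖ ≤ A * R ^ k) : Geo A R (reS a) := by
  intro k
  unfold reS
  rw [PowerSeries.coeff_mk]
  exact (Complex.abs_re_le_norm _).trans (ha k)

private theorem geo_im {A R : ℝ} {a : PowerSeries ℂ}
    (ha : ∀ k, ‖PowerSeries.coeff k a‖ ≤ A * R ^ k) : Geo A R (imS a) := by
  intro k
  unfold imS
  rw [PowerSeries.coeff_mk]
  exact (Complex.abs_im_le_norm _).trans (ha k)

theorem CvC_of {h A R : ℝ} {a : PowerSeries ℂ} (hR : 0 ≤ R) (hRh : R * h < 1)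
    (ha : ∀ k, ‖PowerSeries.coeff k a‖ ≤ A * R ^ k) : CvC h a :=
  ⟨(geo_re ha).cv hR hRh, (geo_im ha).cv hR hRh⟩

/-- the subring of convergent complex series -/
private def cvsC (h : ℝ) (hh : 0 ≤ h) : Subring (PowerSeries ℂ) where
  carrier := {a | CvC h a}
  mul_mem' := fun ha hb => CvC.mul hh ha hb
  one_mem' := by
    have := CvC.C h 1
    rwa [map_one] at this
  add_mem' := fun ha hb => CvC.add hh ha hb
  zero_mem' := by
    have := CvC.C h 0
    rwa [map_zero] at this
  neg_mem' := fun ha => CvC.neg ha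

private noncomputable def tayCH (h : ℝ) (hh : 0 ≤ h) : cvsC h hh →+* PowerSeries ℂ where
  toFun a := tayC h a.1
  map_one' := by
    have := tayC_C h 1
    rwa [map_one] at this
  map_mul' a b := tayC_mul hh a.2 b.2
  map_zero' := by
    have := tayC_C h 0
    rwa [map_zero] at this
  map_add' a b := tayC_add hh a.2 b.2

private theorem tayCH_apply {h : ℝ} (hh : 0 ≤ h) (a : cvsC h hh) :
    tayCH h hh a = tayC h a.1 := rfl

theorem tayC_sumC {h : ℝ} (hh : 0 ≤ h) {ι : Type} (s : Finset ι) (z : ι → ℂ)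
    (a : ι → PowerSeries ℂ) (ha : ∀ i ∈ s, CvC h (a i)) :
    tayC h (∑ i ∈ s, PowerSeries.C (z i) * a i) = ∑ i ∈ s, PowerSeries.C (z i) * tayC h (a i) := by
  classical
  have key : ∀ t : Finset ι, (∀ i ∈ t, CvC h (a i)) →
      CvC h (∑ i ∈ t, PowerSeries.C (z i) * a i) ∧
      tayC h (∑ i ∈ t, PowerSeries.C (z i) * a i)
        = ∑ i ∈ t, PowerSeries.C (z i) * tayC h (a i) := by
    intro t
    induction t using Finset.induction_on with
    | empty =>
      intro _
      simp only [Finset.sum_empty]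
      have h1 := CvC.C h 0
      have h2 := tayC_C h 0
      rw [map_zero] at h1 h2
      exact ⟨h1, h2⟩
    | insert i t hi ih =>
      intro ht
      obtain ⟨h1, h2⟩ := ih fun j hj => ht j (Finset.mem_insert_of_mem hj)
      have h3 := ht i (Finset.mem_insert_self i t)
      have h4 := CvC.mul hh (CvC.C h (z i)) h3
      rw [Finset.sum_insert hi, Finset.sum_insert hi]
      refine ⟨CvC.add hh h4 h1, ?_⟩
      rw [tayC_add hh h4 h1, tayC_mul hh (CvC.C h (z i)) h3, tayC_C, h2]
  exact (key s ha).2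

theorem tayC_pe {h : ℝ} (hh : 0 ≤ h) (p : ℤ[X]) (Q : ℕ → ℤ[X]) (m : ℕ) (c : ℂ)
    {u : PowerSeries ℂ} (hu : CvC h u) :
    tayC h (pe p Q m c u) = ei p (tayC h u) + ∑ l ∈ range m,
      (PowerSeries.C c * (PowerSeries.C (h : ℂ) + PowerSeries.X)) ^ (l + 1) *
        ei (Q l) (tayC h u) := by
  let u' : cvsC h hh := ⟨u, hu⟩
  let X' : cvsC h hh := ⟨PowerSeries.X, CvC.X h⟩
  let c' : cvsC h hh := ⟨PowerSeries.C c, CvC.C h c⟩
  have h1 : pe p Q m c u = (cvsC h hh).subtype
      (ei p u' + ∑ l ∈ range m, (c' * X') ^ (l + 1) * ei (Q l) u') := by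
    unfold pe
    rw [map_add, map_ei, map_sum]
    congr 1
    refine sum_congr rfl fun l _ => ?_
    rw [map_mul, map_pow, map_mul, map_ei]
    rfl
  have h2 : tayC h (pe p Q m c u) = tayCH h hh
      (ei p u' + ∑ l ∈ range m, (c' * X') ^ (l + 1) * ei (Q l) u') := by
    rw [h1]; rfl
  have hX : tayCH h hh X' = PowerSeries.C (h : ℂ) + PowerSeries.X := tayC_X h
  have hc : tayCH h hh c' = PowerSeries.C c := tayC_C h c
  have hu' : tayCH h hh u' = tayC h u := rfl
  rw [h2, map_add, map_ei, map_sum, hu']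
  congr 1
  refine sum_congr rfl fun l _ => ?_
  rw [map_mul, map_pow, map_mul, map_ei, hX, hc, hu']

theorem tayC_ofReal (h : ℝ) (a : PowerSeries ℝ) :
    tayC h (a.map Complex.ofRealHom) = (tay h a).map Complex.ofRealHom := by
  have h1 : reS (a.map Complex.ofRealHom) = a := by
    ext k
    unfold reS
    rw [PowerSeries.coeff_mk, PowerSeries.coeff_map]
    simp
  have h2 : imS (a.map Complex.ofRealHom) = 0 := by
    ext k
    unfold imS
    rw [PowerSeries.coeff_mk, PowerSeries.coeff_map]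
    simp
  have h3 : tay h (0 : PowerSeries ℝ) = 0 := by
    have := tay_C h 0
    rwa [map_zero] at this
  unfold tayC
  rw [h1, h2, h3, map_zero, mul_zero, add_zero]

private theorem tay_neg' (h : ℝ) (b : PowerSeries ℝ) : tay h (-b) = - tay h b := by
  ext k
  rw [map_neg]
  unfold tay
  rw [PowerSeries.coeff_mk, PowerSeries.coeff_mk, ← tsum_neg]
  refine tsum_congr fun m => ?_
  rw [map_neg]
  ring

theorem tayC_conj (h : ℝ) (a : PowerSeries ℂ) :
    tayC h (a.map (starRingEnd ℂ)) = (tayC h a).map (starRingEnd ℂ) := by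
  have h1 : reS (a.map (starRingEnd ℂ)) = reS a := by
    ext k
    unfold reS
    rw [PowerSeries.coeff_mk, PowerSeries.coeff_mk, PowerSeries.coeff_map]
    simp
  have h2 : imS (a.map (starRingEnd ℂ)) = - imS a := by
    ext k
    rw [map_neg]
    unfold imS
    rw [PowerSeries.coeff_mk, PowerSeries.coeff_mk, PowerSeries.coeff_map]
    simp
  unfold tayC
  rw [h1, h2, tay_neg']
  ext k
  rw [PowerSeries.coeff_map, map_add, map_add, map_add, PowerSeries.coeff_C_mul,
    PowerSeries.coeff_C_mul, map_mul, Complex.conj_I, PowerSeries.coeff_map, PowerSeries.coeff_map,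
    PowerSeries.coeff_map, map_neg]
  simp only [Complex.ofRealHom_eq_coe, Complex.conj_ofReal, Complex.ofReal_neg]
  ring

private theorem evl_near' {h A R : ℝ} {b : PowerSeries ℝ} (hh : 0 ≤ h) (hR : 0 ≤ R)
    (hRh : R * h ≤ 1 / 2) (hb : Geo A R b) :
    |evl h b - PowerSeries.coeff 0 b| ≤ 2 * A * R * h := by
  obtain ⟨a, ha⟩ : ∃ a : PowerSeries ℝ,
      a = PowerSeries.mk fun k => PowerSeries.coeff (k + 1) b := ⟨_, rfl⟩
  have hgeo : Geo (A * R) R a := by
    intro k
    rw [ha, PowerSeries.coeff_mk]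
    refine (hb (k + 1)).trans (le_of_eq ?_)
    rw [pow_succ]; ring
  have hx : b = PowerSeries.C (PowerSeries.coeff 0 b) + PowerSeries.X * a := by
    ext k
    rcases k with _ | k
    · rw [map_add, PowerSeries.coeff_zero_X_mul, add_zero, PowerSeries.coeff_zero_C]
    · rw [map_add, PowerSeries.coeff_succ_X_mul, PowerSeries.coeff_C, if_neg (Nat.succ_ne_zero k),
        zero_add, ha, PowerSeries.coeff_mk]
  have hac : Cv h a := hgeo.cv hR (by linarith)
  have h1 : evl h b = PowerSeries.coeff 0 b + h * evl h a := by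
    conv_lhs => rw [hx]
    rw [evl_add hh (Cv.C _ _) (Cv.mul hh (Cv.X _) hac), evl_mul hh (Cv.X _) hac, evl_C, evl_X]
  rw [h1, add_sub_cancel_left, abs_mul, abs_of_nonneg hh]
  have h2 := mul_le_mul_of_nonneg_left (hgeo.evl_le hh hR hRh) hh
  linarith

theorem evC_near {h A R : ℝ} {a : PowerSeries ℂ} (hh : 0 ≤ h) (hR : 0 ≤ R) (hRh : R * h ≤ 1 / 2)
    (ha : ∀ k, ‖PowerSeries.coeff k a‖ ≤ A * R ^ k) :
    ‖evC h a - PowerSeries.constantCoeff a‖ ≤ 4 * A * R * h := by
  have h1 := evl_near' hh hR hRh (geo_re ha)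
  have h2 := evl_near' hh hR hRh (geo_im ha)
  have h3 : evC h a = (evl h (reS a) : ℂ) + Complex.I * (evl h (imS a) : ℂ) := by
    unfold evC tayC
    rw [← PowerSeries.coeff_zero_eq_constantCoeff_apply, map_add, PowerSeries.coeff_C_mul,
      PowerSeries.coeff_map, PowerSeries.coeff_map, tay_coeff_zero, tay_coeff_zero]
    rfl
  have h4 : PowerSeries.coeff 0 (reS a) = (PowerSeries.coeff 0 a).re := by
    unfold reS
    rw [PowerSeries.coeff_mk]
  have h5 : PowerSeries.coeff 0 (imS a) = (PowerSeries.coeff 0 a).im := by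
    unfold imS
    rw [PowerSeries.coeff_mk]
  rw [h4] at h1
  rw [h5] at h2
  rw [← PowerSeries.coeff_zero_eq_constantCoeff_apply, h3]
  have h6 : (evl h (reS a) : ℂ) + Complex.I * (evl h (imS a) : ℂ) - PowerSeries.coeff 0 a
      = ((evl h (reS a) - (PowerSeries.coeff 0 a).re : ℝ) : ℂ)
        + Complex.I * ((evl h (imS a) - (PowerSeries.coeff 0 a).im : ℝ) : ℂ) := by
    apply Complex.ext <;> simp
  rw [h6]
  refine (norm_add_le _ _).trans ?_
  rw [norm_mul, Complex.norm_I, one_mul, Complex.norm_real, Complex.norm_real, Real.norm_eq_abs,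
    Real.norm_eq_abs]
  linarith

end Pool.Agent.H97.GA
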