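import Pool.Agent.H97.GA.Big

/-! # [GA-BIGINT] The trace series at `1 / M` has integer coefficients after rescaling

`a_k = ∑_i wv d w (yo i) * coeff k (u i) ∈ 𝓞 Ω`. For `σ : Ω →+* ℂ` with permutation `π` of the `y`
(`Bg.perm`): `σ a_k = ∑_i wv d w (S.y N (π i)) Δ^k coeff k (S.W N (π i))` (`map_wv`, `Bg.hu`)
`= ∑_i wv d w (S.y N i) Δ^k coeff k (S.W N i)` (`Equiv.sum_comp`), the same for all `σ`, in particular
`= ι0 a_k` (`σ = ι0`: `π = 1`). `inv_intC`. -/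

namespace Pool.Agent.H97.GA

open Finset Polynomial NumberField Pool.Agent.H72.ES Pool.Agent.H87.SA

variable {d m : ℕ} {a : ℕ → ℕ → ℤ} {B N : ℕ} {c : Fin d → ℂ}

theorem big_int {S : SerC d m a B c} {Ω : Type} [Field Ω] [NumberField Ω] (Bg : Big S N Ω)
    (w k : ℕ) : ∃ z : ℤ, (z : ℂ) =
      (Bg.Δ : ℂ) ^ k * ∑ i, wv d w (S.y N i) * PowerSeries.coeff k (S.W N i) := by
  obtain ⟨b, hb⟩ : ∃ b : 𝓞 Ω, b = ∑ i, wv d w (Bg.yo i) * PowerSeries.coeff k (Bg.u i) := ⟨_, rfl⟩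
  have hval : ∀ σ : Ω →+* ℂ, σ (b : Ω) =
      (Bg.Δ : ℂ) ^ k * ∑ i, wv d w (S.y N i) * PowerSeries.coeff k (S.W N i) := by
    intro σ
    obtain ⟨π0, π, -, hπ⟩ := Bg.perm σ
    have h1 : (b : Ω) = algebraMap (𝓞 Ω) Ω b := rfl
    rw [h1, hb, map_sum, map_sum, Finset.mul_sum,
      ← Equiv.sum_comp π (fun i => (Bg.Δ : ℂ) ^ k *
        (wv d w (S.y N i) * PowerSeries.coeff k (S.W N i)))]
    refine Finset.sum_congr rfl fun i _ => ?_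
    have h2 := Bg.hu σ i (π i) (hπ i) k
    have h3 : σ (algebraMap (𝓞 Ω) Ω (Bg.yo i)) = S.y N (π i) := hπ i
    have h4 : σ (algebraMap (𝓞 Ω) Ω (PowerSeries.coeff k (Bg.u i))) =
        (Bg.Δ : ℂ) ^ k * PowerSeries.coeff k (S.W N (π i)) := h2
    rw [map_mul, map_mul, map_wv, map_wv, h3, h4]
    ring
  obtain ⟨z, hz⟩ := inv_intC Bg.ι0 b (fun σ => by rw [hval σ, hval Bg.ι0])
  refine ⟨z, ?_⟩
  rw [← hval Bg.ι0, hz]
  simp

end Pool.Agent.H97.GA
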