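import Pool.Agent.H97.GA.Defs

/-! # [GA-SEPW] A cheap weight separating all pairings

For a permutation `τ ≠ 1` let `P_τ = ∑_{l<d} T^l (∑_i (y (τ i)^l - y i^l) c i) ∈ ℂ[T]`, so
`P_τ (w) = ∑ wv d w (y (τ i)) c i - ∑ wv d w (y i) c i`. `P_τ ≠ 0`: otherwise for all `l < d`
`∑_i y i^l (c (τ⁻¹ i) - c i) = 0` (reindex by `τ`), and by the Vandermonde determinant of the distinct
`y i` (`Matrix.eq_zero_of_forall_pow_sum_mul_pow_eq_zero` or a similar lemma in
`Mathlib/LinearAlgebra/Vandermonde.lean`) `c (τ⁻¹ i) = c i` for all `i`, so `τ = 1`. The product of all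
`P_τ`, `τ ≠ 1`, is nonzero of degree at most `(d! - 1) (d - 1)`, so one of the `d * d! + 1` numbers
`w = 0, …, d * d!` is not a root (`Polynomial.card_roots'`; or count bad `w` for each `τ`:
at most `d - 1` each). For `d = 0` trivial. -/

namespace Pool.Agent.H97.GA

open Finset Polynomial

theorem exists_weight {d : ℕ} {c y : Fin d → ℂ} (hc : Function.Injective c)
    (hy : Function.Injective y) :
    ∃ w : ℕ, w ≤ d * d.factorial ∧ ∀ τ : Equiv.Perm (Fin d),
      ∑ i, wv d w (y (τ i)) * c i = ∑ i, wv d w (y i) * c i → τ = 1 := by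
  classical
  by_contra hcon
  push Not at hcon
  have hcon' : ∀ w : ℕ, ∃ τ : Equiv.Perm (Fin d), w ≤ d * d.factorial →
      (∑ i, wv d w (y (τ i)) * c i = ∑ i, wv d w (y i) * c i ∧ τ ≠ 1) := by
    intro w
    by_cases hw : w ≤ d * d.factorial
    · obtain ⟨τ, h1, h2⟩ := hcon w hw
      exact ⟨τ, fun _ => ⟨h1, h2⟩⟩
    · exact ⟨1, fun h => absurd h hw⟩
  choose F hF using hcon'
  have hcard : (Finset.univ : Finset (Equiv.Perm (Fin d))).card * d <
      (Finset.range (d * d.factorial + 1)).card := by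
    rw [Finset.card_univ, Fintype.card_perm, Fintype.card_fin, Finset.card_range]
    rw [mul_comm]
    omega
  obtain ⟨τ, -, hτ⟩ := Finset.exists_lt_card_fiber_of_mul_lt_card_of_maps_to
    (s := Finset.range (d * d.factorial + 1)) (f := F) (fun a _ => Finset.mem_univ _) hcard
  set S := {x ∈ Finset.range (d * d.factorial + 1) | F x = τ} with hS
  have hSm : ∀ w ∈ S, (∑ i, wv d w (y (τ i)) * c i = ∑ i, wv d w (y i) * c i ∧ τ ≠ 1) := by
    intro w hw
    rw [hS, Finset.mem_filter, Finset.mem_range] at hw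
    have := hF w (by omega)
    rw [hw.2] at this
    exact this
  have hne : S.Nonempty := by
    rw [← Finset.card_pos]
    omega
  obtain ⟨w0, hw0⟩ := hne
  apply (hSm w0 hw0).2
  have hd : 0 < d := by
    rcases Nat.eq_zero_or_pos d with h | h
    · subst h
      exact absurd (Subsingleton.elim τ 1) (hSm w0 hw0).2
    · exact h
  set P : ℂ[X] := ∑ l ∈ range d, C (∑ i, (y (τ i) ^ l - y i ^ l) * c i) * X ^ l with hP
  have hPev : ∀ w : ℕ, P.eval (w : ℂ) =
      ∑ i, wv d w (y (τ i)) * c i - ∑ i, wv d w (y i) * c i := by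
    intro w
    rw [hP, eval_finsetSum]
    simp only [eval_mul, eval_C, eval_pow, eval_X]
    unfold wv
    simp only [Finset.sum_mul]
    rw [Finset.sum_comm, ← Finset.sum_sub_distrib]
    refine Finset.sum_congr rfl fun i _ => ?_
    rw [← Finset.sum_sub_distrib]
    refine Finset.sum_congr rfl fun l _ => ?_
    ring
  have hPdeg : P.natDegree < d := by
    have : P.natDegree ≤ d - 1 := by
      rw [hP]
      apply natDegree_sum_le_of_forall_le
      intro l hl
      rw [mem_range] at hl
      refine (natDegree_C_mul_X_pow_le _ _).trans ?_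
      omega
    omega
  have hP0 : P = 0 := by
    apply eq_zero_of_natDegree_lt_card_of_eval_eq_zero' P (S.image (fun w : ℕ => (w : ℂ)))
    · intro z hz
      rw [Finset.mem_image] at hz
      obtain ⟨w, hw, rfl⟩ := hz
      rw [hPev, (hSm w hw).1, sub_self]
    · rw [Finset.card_image_of_injective _ Nat.cast_injective]
      omega
  have hco : ∀ l < d, ∑ i, (y (τ i) ^ l - y i ^ l) * c i = 0 := by
    intro l hl
    have h1 : P.coeff l = ∑ i, (y (τ i) ^ l - y i ^ l) * c i := by
      rw [hP, finsetSum_coeff]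
      simp only [coeff_C_mul, coeff_X_pow]
      rw [Finset.sum_eq_single l]
      · simp
      · intro b _ hb
        rw [if_neg (Ne.symm hb), mul_zero]
      · intro h
        exact absurd (Finset.mem_range.2 hl) h
    rw [← h1, hP0, coeff_zero]
  have hv : (fun i => c (τ⁻¹ i) - c i) = 0 := by
    apply Matrix.eq_zero_of_forall_pow_sum_mul_pow_eq_zero hy
    intro l
    have h1 := hco l l.2
    have h2 : ∑ i, y (τ i) ^ (l : ℕ) * c i = ∑ i, y i ^ (l : ℕ) * c (τ⁻¹ i) := by
      rw [← Equiv.sum_comp τ (fun i => y i ^ (l : ℕ) * c (τ⁻¹ i))]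
      refine Finset.sum_congr rfl fun i _ => ?_
      simp
    simp only [sub_mul] at h1 ⊢
    rw [Finset.sum_sub_distrib] at h1 ⊢
    rw [h2] at h1
    rw [← h1]
    congr 1
    · exact Finset.sum_congr rfl fun i _ => mul_comm _ _
    · exact Finset.sum_congr rfl fun i _ => mul_comm _ _
  ext i
  have h3 : c (τ⁻¹ (τ i)) - c (τ i) = 0 := congrFun hv (τ i)
  have h5 : τ⁻¹ (τ i) = i := by simp
  rw [h5, sub_eq_zero] at h3
  have h4 := hc h3
  rw [← h4]
  simp

end Pool.Agent.H97.GA
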