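import Pool.Agent.H97.GA.TwB
import Pool.Agent.H97.GA.BigInt
import Pool.Agent.H97.GA.SepW
import Pool.Agent.H97.GA.Fac2
import Pool.Agent.H87.SA.House
import Pool.Agent.H87.SA.Coord
import Pool.Agent.H87.SA.Over
import Pool.Agent.H87.SA.ZeroE

/-! # [GA-ANCH] Existence of the anchor (assembly) -/

namespace Pool.Agent.H97.GA

open Finset Polynomial NumberField Pool.Agent.H72.ES Pool.Agent.H8.KF Pool.Agent.H87.SA

variable {d m : ℕ} {a : ℕ → ℕ → ℤ} {B N : ℕ} {c : Fin d → ℂ}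

/-- the exponent of the cheap quantities at `1 / M` -/
def kap (d m : ℕ) : ℕ := 2 * d ^ 2 * (m + 1)

theorem one_le_NG (H : GHyp d m a B N c) : 1 ≤ N :=
  (Nat.one_le_pow _ _ (by have := H.B2; omega)).trans H.big

theorem N_le_M (S : SerC d m a B c) (N : ℕ) : N ≤ S.M N :=
  Nat.le_mul_of_pos_left _ S.q1

theorem wv_le {w : ℕ} {y : ℂ} {Y : ℝ} (hY : 1 ≤ Y) (hy : ‖y‖ ≤ Y) :
    ‖wv d w y‖ ≤ d * (((w : ℝ) + 1) * Y) ^ d := by
  unfold wv
  have hw0 : (0 : ℝ) ≤ w := Nat.cast_nonneg w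
  have h1 : (1 : ℝ) ≤ ((w : ℝ) + 1) * Y := one_le_mul_of_one_le_of_one_le (by linarith) hY
  refine (norm_sum_le _ _).trans ?_
  have h2 : ∀ l ∈ range d, ‖(w : ℂ) ^ l * y ^ l‖ ≤ (((w : ℝ) + 1) * Y) ^ d := by
    intro l hl
    rw [norm_mul, norm_pow, norm_pow, Complex.norm_natCast, ← mul_pow]
    calc ((w : ℝ) * ‖y‖) ^ l ≤ (((w : ℝ) + 1) * Y) ^ l := by
          refine pow_le_pow_left₀ (by positivity) ?_ l
          exact mul_le_mul (by linarith) hy (norm_nonneg _) (by linarith)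
      _ ≤ _ := pow_le_pow_right₀ h1 (mem_range.1 hl).le
  refine (sum_le_sum h2).trans ?_
  rw [sum_const, card_range, nsmul_eq_mul]

theorem num_Z (H : GHyp d m a B N c) (hN' : B ^ (20 * d ^ 2 * d.factorial) ≤ N) {w : ℕ}
    (hw : w ≤ d * d.factorial) :
    (d : ℝ) * ((d * (((w : ℝ) + 1) * ((B : ℝ) ^ 2 * (N : ℝ) ^ m)) ^ d) * (B : ℝ) ^ (8 * d ^ 2)) ≤
      (N : ℝ) ^ (m * d + 1) := by
  have hB := H.B2
  have hd := H.d3
  have hf : 1 ≤ d.factorial := Nat.factorial_pos d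
  have e1 : d ≤ B ^ d := (Nat.lt_two_pow_self).le.trans (Nat.pow_le_pow_left hB d)
  have e2 : w + 1 ≤ B ^ (d * d.factorial) := by
    calc w + 1 ≤ d * d.factorial + 1 := by omega
      _ ≤ 2 ^ (d * d.factorial) := Nat.lt_two_pow_self
      _ ≤ B ^ (d * d.factorial) := Nat.pow_le_pow_left hB _
  have h1 : d * ((d * ((w + 1) * (B ^ 2 * N ^ m)) ^ d) * B ^ (8 * d ^ 2)) ≤ N ^ (m * d + 1) := by
    calc d * ((d * ((w + 1) * (B ^ 2 * N ^ m)) ^ d) * B ^ (8 * d ^ 2))
        ≤ B ^ d * ((B ^ d * (B ^ (d * d.factorial) * (B ^ 2 * N ^ m)) ^ d) * B ^ (8 * d ^ 2)) := by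
          gcongr
      _ = B ^ (d + d + d * d.factorial * d + 2 * d + 8 * d ^ 2) * N ^ (m * d) := by
          rw [mul_pow, mul_pow, ← pow_mul, ← pow_mul, ← pow_mul, pow_add, pow_add, pow_add, pow_add]
          ring
      _ ≤ B ^ (20 * d ^ 2 * d.factorial) * N ^ (m * d) := by
          refine Nat.mul_le_mul_right _ (Nat.pow_le_pow_right (by omega) ?_)
          have e3 : d ≤ d ^ 2 := Nat.le_self_pow (by norm_num) d
          have e4 : d ^ 2 ≤ d ^ 2 * d.factorial := Nat.le_mul_of_pos_right _ hf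
          have e5 : d * d.factorial * d = d ^ 2 * d.factorial := by ring
          rw [e5, mul_assoc 20]
          omega
      _ ≤ N * N ^ (m * d) := Nat.mul_le_mul_right _ hN'
      _ = N ^ (m * d + 1) := by ring
  exact_mod_cast h1

/-- scaling by a nonzero integer does not change the degree -/
theorem deg_scale {s : ℕ} (hs : s ≠ 0) (ξ : ℝ) :
    (minpoly ℚ ((s : ℝ) * ξ)).natDegree = (minpoly ℚ ξ).natDegree := by
  have h1 : (s : ℝ) ≠ 0 := by exact_mod_cast hs
  have h2 : IntermediateField.adjoin ℚ {(s : ℝ) * ξ} = IntermediateField.adjoin ℚ {ξ} := by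
    apply le_antisymm
    · rw [IntermediateField.adjoin_simple_le_iff]
      exact mul_mem (natCast_mem _ _) (IntermediateField.mem_adjoin_simple_self ℚ ξ)
    · rw [IntermediateField.adjoin_simple_le_iff]
      have h3 : (s : ℝ)⁻¹ * ((s : ℝ) * ξ) = ξ := by field_simp
      have h4 : (s : ℝ)⁻¹ * ((s : ℝ) * ξ) ∈ IntermediateField.adjoin ℚ {(s : ℝ) * ξ} :=
        mul_mem (inv_mem (natCast_mem _ _)) (IntermediateField.mem_adjoin_simple_self ℚ _)
      rwa [h3] at h4
  by_cases hint : IsIntegral ℚ ξ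
  · have hint2 : IsIntegral ℚ ((s : ℝ) * ξ) := by
      have h4 : IsIntegral ℚ (s : ℝ) := by
        have := isIntegral_algebraMap (R := ℚ) (A := ℝ) (x := (s : ℚ))
        simpa using this
      exact h4.mul hint
    rw [← IntermediateField.adjoin.finrank hint, ← IntermediateField.adjoin.finrank hint2, h2]
  · have hint2 : ¬ IsIntegral ℚ ((s : ℝ) * ξ) := by
      intro h4
      apply hint
      have h5 : IsIntegral ℚ ((s : ℝ)⁻¹) := by
        have := isIntegral_algebraMap (R := ℚ) (A := ℝ) (x := (s : ℚ)⁻¹)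
        simpa using this
      have h6 := h5.mul h4
      have h7 : (s : ℝ)⁻¹ * ((s : ℝ) * ξ) = ξ := by field_simp
      rwa [h7] at h6
    rw [minpoly.eq_zero hint, minpoly.eq_zero hint2]

theorem exists_anchG {n Q : ℕ} (hn : 4 ≤ n) (hQ : 2 ^ n ≤ Q) {f : ℤ[X]} (hm : f.Monic)
    (hd : f.natDegree = n) (hb : ∀ j, |f.coeff j| ≤ (Q : ℤ)) (hf : Irreducible f) (θ : ℝ)
    (hθ : aeval θ f = 0) (H : GHyp d m a B N c) (hN' : B ^ (20 * d ^ 2 * d.factorial) ≤ N)
    (S : SerC d m a B c) (ξ : ℝ) (hξ0 : fv d m a (1 / (N : ℝ)) ξ = 0)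
    (hξ1 : ξ ∈ IntermediateField.adjoin ℚ {θ})
    (hξ3 : ∀ r : ℝ, aeval r (p0 d a) = 0 →
      3 * (minpoly ℚ r).natDegree ≤ (minpoly ℚ ξ).natDegree) :
    ∃ (O : Ord ℝ n Q f θ) (D m' : ℕ), 1 ≤ D ∧ D ≤ d.factorial ∧ 3 * m' ≤ n * D ∧
      Nonempty (Anch O D m' (kap d m) (S.M N) (RR d m B)
        ((S.M N : ℝ) ^ ((kap d m + 1) * d.factorial) * bb n Q)) := by
  have hN1 := one_le_NG H
  have hNM := N_le_M S N
  set M : ℕ := S.M N with hM
  have hM1 : 1 ≤ M := hN1.trans hNM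
  have hNMR : (N : ℝ) ≤ M := by exact_mod_cast hNM
  have hM1R : (1 : ℝ) ≤ M := by exact_mod_cast hM1
  have hN1R : (1 : ℝ) ≤ N := by exact_mod_cast hN1
  have hB1R : (1 : ℝ) ≤ B := by exact_mod_cast (by have := H.B2; omega : 1 ≤ B)
  have hRR0 : 0 ≤ RR d m B := by unfold RR; positivity
  have hd3 := H.d3
  have hinj := y_inj H S (N := N)
  obtain ⟨Ω, iΩ, iΩn, ⟨Bg⟩⟩ := exists_big H S
  obtain ⟨w, hw, hsep⟩ := exists_weight H.inj hinj
  obtain ⟨k, ik, ink, ⟨T⟩⟩ := exists_tw H S Bg hsep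
  set D := Module.finrank ℚ k with hD
  have hD1 : 1 ≤ D := Module.finrank_pos
  have hDd : D ≤ d.factorial := T.fr
  have hsub := house_subMul k
  -- sizes
  have hYb : (1 : ℝ) ≤ (B : ℝ) ^ 2 * (N : ℝ) ^ m :=
    one_le_mul_of_one_le_of_one_le (one_le_pow₀ hB1R) (one_le_pow₀ hN1R)
  have hdd : d ≤ d ^ 2 := Nat.le_self_pow (by norm_num) d
  have hκ1 : m * d + 1 ≤ kap d m := by
    unfold kap
    calc m * d + 1 ≤ m * d ^ 2 + d ^ 2 := Nat.add_le_add (Nat.mul_le_mul_left _ hdd) (by omega)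
      _ = d ^ 2 * (m + 1) := by ring
      _ ≤ 2 * (d ^ 2 * (m + 1)) := by omega
      _ = 2 * d ^ 2 * (m + 1) := by ring
  have hκm : m ≤ kap d m := by
    have : m ≤ m * d := Nat.le_mul_of_pos_right _ (by omega)
    omega
  have hZle : ∀ j, house ((PowerSeries.coeff j T.Z : 𝓞 k) : k) ≤
      (M : ℝ) ^ kap d m * RR d m B ^ j := by
    intro j
    refine house_le_of (by positivity) fun σ => ?_
    obtain ⟨τ, hτ⟩ := T.hσ σ
    rw [hτ j]
    refine (norm_sum_le _ _).trans ?_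
    have e1 : ∀ i ∈ (univ : Finset (Fin d)),
        ‖wv d w (S.y N (τ i)) * PowerSeries.coeff j (S.x i)‖ ≤
        (d * (((w : ℝ) + 1) * ((B : ℝ) ^ 2 * (N : ℝ) ^ m)) ^ d) *
          ((B : ℝ) ^ (8 * d ^ 2) * RR d m B ^ j) := by
      intro i _
      rw [norm_mul]
      exact mul_le_mul (wv_le hYb (y_le H S _)) (S.le i j) (norm_nonneg _) (by positivity)
    refine (sum_le_sum e1).trans ?_
    rw [sum_const, card_univ, Fintype.card_fin, nsmul_eq_mul]
    calc (d : ℝ) * ((d * (((w : ℝ) + 1) * ((B : ℝ) ^ 2 * (N : ℝ) ^ m)) ^ d) *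
          ((B : ℝ) ^ (8 * d ^ 2) * RR d m B ^ j))
        = ((d : ℝ) * ((d * (((w : ℝ) + 1) * ((B : ℝ) ^ 2 * (N : ℝ) ^ m)) ^ d) *
          (B : ℝ) ^ (8 * d ^ 2))) * RR d m B ^ j := by ring
      _ ≤ (N : ℝ) ^ (m * d + 1) * RR d m B ^ j := by
          refine mul_le_mul_of_nonneg_right (num_Z H hN' hw) (by positivity)
      _ ≤ (M : ℝ) ^ kap d m * RR d m B ^ j := by
          refine mul_le_mul_of_nonneg_right ?_ (by positivity)
          exact (pow_le_pow_left₀ (by positivity) hNMR _).trans (pow_le_pow_right₀ hM1R hκ1)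
  set z : 𝓞 k := PowerSeries.constantCoeff T.Z with hz
  have hzh : house (z : k) ≤ (M : ℝ) ^ kap d m := by
    have := hZle 0
    rw [PowerSeries.coeff_zero_eq_constantCoeff_apply, pow_zero, mul_one] at this
    exact this
  have hMκ : (1 : ℝ) ≤ (M : ℝ) ^ kap d m := one_le_pow₀ hM1R
  obtain ⟨c0, hc0, hcb⟩ := exists_coordE z T.top hMκ hzh
  -- the factor
  have hξC : fv d m a (1 / (N : ℂ)) ((ξ : ℝ) : ℂ) = 0 := by
    have h1 := congrArg (fun r : ℝ => (r : ℂ)) hξ0
    simp only [fv] at h1 ⊢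
    push_cast at h1
    exact h1
  obtain ⟨i0, hi0⟩ := root_eqG H S hξC
  have hyi : S.y N i0 = (((N ^ m : ℕ) : ℝ) * ξ : ℝ) := by
    rw [← hi0]
    push_cast
    ring
  obtain ⟨c', hc', hmem⟩ := T.loc i0 _ hyi
  have hc'0 : aeval c' (p0 d a) = 0 := by
    have h1 : ei (p0 d a) (c i0) = 0 := by
      have h2 : eval (c i0) ((p0 d a).map (Int.castRingHom ℂ)) = 0 := by
        rw [H.prod, eval_prod]
        exact Finset.prod_eq_zero (mem_univ i0) (by simp)
      rw [eval_map] at h2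
      exact h2
    rw [hc'] at h1
    have h3 := map_ei Complex.ofRealHom (p0 d a) c'
    simp only [Complex.ofRealHom_eq_coe] at h3
    rw [h1] at h3
    rw [← ei_aeval]
    exact_mod_cast h3
  have hp0m : (p0 d a).Monic := by
    apply Polynomial.monic_of_injective (f := Int.castRingHom ℂ) Int.cast_injective
    rw [H.prod]
    exact monic_prod_of_monic _ _ fun i _ => monic_X_sub_C _
  have hc'int : IsIntegral ℚ c' := by
    have h1 : IsIntegral ℤ c' := ⟨p0 d a, hp0m, hc'0⟩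
    exact h1.tower_top
  have hNm0 : N ^ m ≠ 0 := by positivity
  obtain ⟨g1, hg1, hg0, hg3, hgf, hgθ⟩ := exists_fac2 T.ι hm hd hf θ hθ
    (((N ^ m : ℕ) : ℝ) * ξ) c' (T.ι (z : k)) ⟨_, rfl⟩ hc'int
    (mul_mem (natCast_mem _ _) hξ1) hmem (by rw [deg_scale hNm0]; exact hξ3 c' hc'0)
  have hDR : (1 : ℝ) ≤ D := by exact_mod_cast hD1
  have hC0 : (1 : ℝ) ≤ D * ((M : ℝ) ^ kap d m) ^ D :=
    one_le_mul_of_one_le_of_one_le hDR (one_le_pow₀ hMκ)
  obtain ⟨O, m', L, iL, JE, JO, φ, coord, h3m, hcinj, hφE, hφO, hsize⟩ :=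
    exists_over T.ι hn hQ hm hd hb hf θ hθ g1 hg1 hg0 hg3 hgf hgθ hC0 c0 hc0 hcb
  let ψ : 𝓞 k →+* ℝ := T.ι.comp (algebraMap (𝓞 k) k)
  have hψ : ∀ a : 𝓞 k, ψ a = T.ι (a : k) := fun a => rfl
  have hh0 : (0 : ℝ) ≤ 1 / (M : ℝ) := by positivity
  -- the Taylor expansion
  have hZmap : (T.Z.map ψ).map Complex.ofRealHom =
      ∑ i, PowerSeries.C (wv d w (S.y N i)) * S.x i := by
    ext j
    rw [PowerSeries.coeff_map, PowerSeries.coeff_map, hψ, map_sum, Complex.ofRealHom_eq_coe,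
      T.hι j]
    refine sum_congr rfl fun i _ => ?_
    rw [PowerSeries.coeff_C_mul]
  have htay : PowerSeries.C ((N : ℂ) ^ m) * (tay (1 / (M : ℝ)) (T.Z.map ψ)).map Complex.ofRealHom =
      ∑ i, PowerSeries.C (wv d w (S.y N i)) * S.W N i := by
    rw [← tayC_ofReal, hZmap, tayC_sumC hh0 _ _ _ (fun i _ => cvC_x H S i), mul_sum]
    refine sum_congr rfl fun i _ => ?_
    unfold SerC.W
    rw [← hM]
    ring
  have hΔR : (Bg.Δ : ℝ) ≤ (M : ℝ) ^ kap d m := by
    have h1 := dlt_leC H S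
    rw [← Bg.hΔ, Complex.norm_intCast] at h1
    exact (le_abs_self _).trans h1
  refine ⟨O, D, m', hD1, hDd, h3m, ⟨?_⟩⟩
  exact
    { E := 𝓞 k
      ψ := ψ
      ν := fun a => house (a : k)
      sub := hsub
      ψ_le := fun a => abs_le_house T.ι _
      liou := fun a ha => house_liou T.ι a ha
      Z := T.Z
      Z_le := hZle
      indep := fun cc hcc => prim_indep T.ι (z : k) T.top cc hcc
      e := (N : ℤ) ^ m
      Δ := Bg.Δ
      e_pos := one_le_pow₀ (by exact_mod_cast hN1)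
      Δ_pos := Bg.Δ1
      e_le := by
        push_cast
        exact (pow_le_pow_left₀ (by positivity) hNMR _).trans (pow_le_pow_right₀ hM1R hκm)
      Δ_le := hΔR
      dn := by
        intro j
        obtain ⟨v, hv⟩ := big_int Bg w j
        refine ⟨v, ?_⟩
        have h1 := congrArg (PowerSeries.coeff j) htay
        rw [PowerSeries.coeff_C_mul, PowerSeries.coeff_map, map_sum] at h1
        simp only [PowerSeries.coeff_C_mul] at h1
        rw [← h1] at hv
        have h2 : ((v : ℝ) : ℂ) = (((((N : ℤ) ^ m : ℤ) : ℝ) * (Bg.Δ : ℝ) ^ j *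
            PowerSeries.coeff j (tay (1 / (M : ℝ)) (T.Z.map ψ)) : ℝ) : ℂ) := by
          push_cast
          rw [hv, Complex.ofRealHom_eq_coe]
          ring
        exact_mod_cast h2
      L := L
      JE := JE
      JO := JO
      φ := φ
      coord := coord
      coord_inj := hcinj
      φ_JE := hφE
      φ_JO := hφO
      size := by
        intro a b i
        refine (hsize a b i).trans ?_
        have hν1 : 0 ≤ house (a : k) := house_nonneg _
        have hν2 : 0 ≤ O.ν b := O.ν_nonneg b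
        have hbb : 0 ≤ bb n Q := by
          have := one_le_bb hn hQ
          linarith
        have hkey : (D : ℝ) * ((M : ℝ) ^ kap d m) ^ D ≤
            (M : ℝ) ^ ((kap d m + 1) * d.factorial) := by
          have hM2' : 2 ≤ M := by
            have h1 : 2 ≤ N := by
              refine le_trans ?_ H.big
              calc 2 ≤ B := H.B2
                _ = B ^ 1 := (pow_one _).symm
                _ ≤ B ^ (200 * d ^ 2 * (d + m)) := by
                    refine Nat.pow_le_pow_right (by have := H.B2; omega) ?_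
                    have : 0 < 200 * d ^ 2 * (d + m) := by positivity
                    omega
            omega
          have e1 : D ≤ M ^ D :=
            (Nat.lt_two_pow_self).le.trans (Nat.pow_le_pow_left hM2' D)
          have e2 : (D : ℝ) ≤ (M : ℝ) ^ D := by exact_mod_cast e1
          calc (D : ℝ) * ((M : ℝ) ^ kap d m) ^ D ≤ (M : ℝ) ^ D * ((M : ℝ) ^ kap d m) ^ D := by
                gcongr
            _ = (M : ℝ) ^ ((kap d m + 1) * D) := by rw [← pow_mul, ← pow_add]; congr 1; ring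
            _ ≤ (M : ℝ) ^ ((kap d m + 1) * d.factorial) :=
                pow_le_pow_right₀ hM1R (Nat.mul_le_mul_left _ hDd)
        gcongr }

end Pool.Agent.H97.GA
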