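import Pool.Agent.H97.GA.Defs

/-! # [GA-BDSA] Root bound, Taylor coefficients

`root_bd`: `x ∈ ℂ` a root of `X^d + ∑_{j<d} b_j X^j` with `‖b_j‖ ≤ A`: `‖x‖ ≤ 1 + A` (if `‖x‖ > 1`:
`‖x‖^d ≤ A ∑_{j<d} ‖x‖^j`, so `(‖x‖ - 1) ‖x‖^d ≤ A (‖x‖^d - 1)`; `geom_sum_eq`/`mul_geom_sum`; for `d = 0`
the hypothesis says `1 = 0`).
`taylor_le`: the coefficient `j` of `taylor y p` is `∑_k binom(k, j) p_k y^(k-j)`
(`Polynomial.taylor_coeff`, `hasseDeriv_coeff`; or `Polynomial.hasseDeriv_eval...`), at most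
`∑_{k≤n} 2^n B (B+1)^n`; `(B+1) ≤ B²`, `2 ≤ B`, `n + 1 ≤ 2^n ≤ B^n`: at most `B^n B^n B B^(2n)`. -/

namespace Pool.Agent.H97.GA

open Finset Polynomial NumberField Pool.Agent.H87.SA

theorem root_bd {d : ℕ} (b : ℕ → ℂ) {A : ℝ} (hb : ∀ j < d, ‖b j‖ ≤ A) (hA : 0 ≤ A) {x : ℂ}
    (hx : x ^ d + ∑ j ∈ range d, b j * x ^ j = 0) : ‖x‖ ≤ 1 + A := by
  by_contra hcon
  have h1 : 1 + A < ‖x‖ := not_le.1 hcon
  have h2 : ‖x‖ ^ d ≤ A * ∑ j ∈ range d, ‖x‖ ^ j := by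
    have e : x ^ d = -∑ j ∈ range d, b j * x ^ j := eq_neg_of_add_eq_zero_left hx
    rw [← norm_pow, e, norm_neg, Finset.mul_sum]
    refine (norm_sum_le _ _).trans (Finset.sum_le_sum fun j hj => ?_)
    rw [norm_mul, norm_pow]
    exact mul_le_mul_of_nonneg_right (hb j (Finset.mem_range.1 hj)) (pow_nonneg (norm_nonneg _) _)
  have h3 : (∑ j ∈ range d, ‖x‖ ^ j) * (‖x‖ - 1) = ‖x‖ ^ d - 1 := geom_sum_mul ‖x‖ d
  have h4 : 0 < ‖x‖ ^ d := pow_pos (by linarith) d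
  have h5 : ‖x‖ ^ d * (‖x‖ - 1) ≤ A * (‖x‖ ^ d - 1) := by
    rw [← h3, ← mul_assoc]
    exact mul_le_mul_of_nonneg_right h2 (by linarith)
  have h6 : 0 < ‖x‖ ^ d * (‖x‖ - 1 - A) := mul_pos h4 (by linarith)
  nlinarith

theorem taylor_le {n : ℕ} {p : ℤ[X]} (hp : p.natDegree ≤ n) {B : ℕ} (hB : 2 ≤ B)
    (hb : ∀ j, |p.coeff j| ≤ (B : ℤ)) {y : ℂ} (hy : ‖y‖ ≤ B + 1) (j : ℕ) :
    ‖(taylor y (p.map (Int.castRingHom ℂ))).coeff j‖ ≤ (B : ℝ) ^ (4 * n + 1) := by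
  have hB' : (2 : ℝ) ≤ B := by exact_mod_cast hB
  have hdeg : (p.map (Int.castRingHom ℂ)).natDegree < n + 1 :=
    Nat.lt_succ_of_le (natDegree_map_le.trans hp)
  have e1 : (taylor y (p.map (Int.castRingHom ℂ))).coeff j =
      ∑ i ∈ range (n + 1), (p.coeff i : ℂ) * (y ^ (i - j) * (i.choose j : ℂ)) := by
    conv_lhs => rw [as_sum_range' _ (n + 1) hdeg]
    rw [map_sum, finsetSum_coeff]
    refine Finset.sum_congr rfl fun i _ => ?_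
    rw [taylor_monomial, coeff_C_mul, coeff_X_add_C_pow, coeff_map]
    simp
  have e2 : ∀ i ∈ range (n + 1), ‖(p.coeff i : ℂ) * (y ^ (i - j) * (i.choose j : ℂ))‖ ≤
      B * ((B : ℝ) ^ (2 * n) * B ^ n) := by
    intro i hi
    have hi' : i ≤ n := Nat.lt_succ_iff.1 (Finset.mem_range.1 hi)
    have a1 : ‖(p.coeff i : ℂ)‖ ≤ B := by
      rw [Complex.norm_intCast]
      have := hb i
      exact_mod_cast this
    have a2 : ‖y ^ (i - j)‖ ≤ (B : ℝ) ^ (2 * n) := by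
      rw [norm_pow, pow_mul]
      calc ‖y‖ ^ (i - j) ≤ ((B : ℝ) ^ 2) ^ (i - j) := by
            refine pow_le_pow_left₀ (norm_nonneg _) (hy.trans ?_) _
            nlinarith
        _ ≤ ((B : ℝ) ^ 2) ^ n := pow_le_pow_right₀ (by nlinarith) (by omega)
    have a3 : ‖(i.choose j : ℂ)‖ ≤ (B : ℝ) ^ n := by
      rw [Complex.norm_natCast]
      calc (i.choose j : ℝ) ≤ (2 : ℝ) ^ i := by exact_mod_cast Nat.choose_le_two_pow i j
        _ ≤ (2 : ℝ) ^ n := pow_le_pow_right₀ (by norm_num) hi'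
        _ ≤ (B : ℝ) ^ n := pow_le_pow_left₀ (by norm_num) hB' n
    rw [norm_mul, norm_mul]
    exact mul_le_mul a1 (mul_le_mul a2 a3 (norm_nonneg _) (by positivity)) (by positivity)
      (by positivity)
  rw [e1]
  refine (norm_sum_le _ _).trans ((Finset.sum_le_sum e2).trans ?_)
  rw [Finset.sum_const, Finset.card_range, nsmul_eq_mul]
  have h1 : ((n + 1 : ℕ) : ℝ) ≤ (B : ℝ) ^ n := by
    calc ((n + 1 : ℕ) : ℝ) ≤ (2 : ℝ) ^ n := by exact_mod_cast Nat.lt_two_pow_self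
      _ ≤ (B : ℝ) ^ n := pow_le_pow_left₀ (by norm_num) hB' n
  calc ((n + 1 : ℕ) : ℝ) * (B * ((B : ℝ) ^ (2 * n) * B ^ n))
      ≤ (B : ℝ) ^ n * (B * ((B : ℝ) ^ (2 * n) * B ^ n)) :=
        mul_le_mul_of_nonneg_right h1 (by positivity)
    _ = (B : ℝ) ^ (4 * n + 1) := by ring

end Pool.Agent.H97.GA
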