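import Pool.Agent.H97.GA.Disc
import Pool.Agent.H97.GA.BdsA

/-! # [GA-BDSB] Bounds and separation of the `c i`

`c_le`: `c i` is a root of `p0` (`H.prod`), coefficients `≤ B`: `root_bd`.
`der_le`: `ei_der`: a product of `d - 1` factors `‖c i - c j‖ ≤ 2 (B+1) ≤ B³`.
`c_sep`: `q = ∏_i ei p0' (c i)² ≥ 1` (`S.qd`, `S.q1`), so `∏_i ∏_{j≠i} ‖c i - c j‖ ≥ 1`; the factor
`(i, j)` is `‖c i - c j‖`, the other `d(d-1) - 1` factors are at most `B³` each. (E.g. the factor `i` of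
the outer product is at most `‖c i - c j‖ * B^(3(d-2))`, the others at most `B^(3(d-1))`.) -/

namespace Pool.Agent.H97.GA

open Finset Polynomial NumberField Pool.Agent.H87.SA

variable {d m : ℕ} {a : ℕ → ℕ → ℤ} {B N : ℕ} {c : Fin d → ℂ}

theorem c_le (H : GHyp d m a B N c) (i : Fin d) : ‖c i‖ ≤ B + 1 := by
  have h1 : ((p0 d a).map (Int.castRingHom ℂ)).eval (c i) = 0 := by
    rw [H.prod, eval_prod]
    exact Finset.prod_eq_zero (Finset.mem_univ i) (by rw [eval_sub, eval_X, eval_C, sub_self])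
  have h2 : (c i) ^ d + ∑ j ∈ range d, (a 0 j : ℂ) * (c i) ^ j = 0 := by
    rw [← h1]
    unfold p0
    rw [Polynomial.map_add, Polynomial.map_pow, Polynomial.map_X, Polynomial.map_sum, eval_add,
      eval_pow, eval_X, eval_finsetSum]
    congr 1
    refine Finset.sum_congr rfl fun j _ => ?_
    simp
  have h3 := root_bd (fun j => (a 0 j : ℂ)) (A := (B : ℝ)) (fun j _ => by
    rw [Complex.norm_intCast]
    have := H.aB 0 j
    exact_mod_cast this) (Nat.cast_nonneg B) h2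
  linarith

theorem c_diff (H : GHyp d m a B N c) (i j : Fin d) : ‖c i - c j‖ ≤ (B : ℝ) ^ 3 := by
  have hB : (2 : ℝ) ≤ B := by exact_mod_cast H.B2
  have h1 := c_le H i
  have h2 := c_le H j
  have h3 := norm_sub_le (c i) (c j)
  have h4 : 2 * ((B : ℝ) + 1) ≤ (B : ℝ) ^ 3 := by nlinarith [mul_nonneg (by linarith : (0:ℝ) ≤ B - 2) (by linarith : (0:ℝ) ≤ B), sq_nonneg ((B : ℝ) - 2)]
  linarith

theorem der_le (H : GHyp d m a B N c) (i : Fin d) :
    ‖ei (derivative (p0 d a)) (c i)‖ ≤ (B : ℝ) ^ (3 * (d - 1)) := by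
  rw [ei_der H.prod i, norm_prod]
  calc ∏ j ∈ univ.erase i, ‖c i - c j‖ ≤ ∏ _j ∈ univ.erase i, (B : ℝ) ^ 3 :=
        Finset.prod_le_prod (fun j _ => norm_nonneg _) fun j _ => c_diff H i j
    _ = (B : ℝ) ^ (3 * (d - 1)) := by
        rw [Finset.prod_const, Finset.card_erase_of_mem (Finset.mem_univ i), Finset.card_univ,
          Fintype.card_fin, ← pow_mul]

theorem c_sep (H : GHyp d m a B N c) (S : SerC d m a B c) {i j : Fin d} (hij : i ≠ j) :
    1 ≤ ‖c i - c j‖ * (B : ℝ) ^ (3 * d ^ 2) := by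
  have hB : (1 : ℝ) ≤ B := by
    have : 1 ≤ B := by have := H.B2; omega
    exact_mod_cast this
  have hd := H.d3
  -- the product of the derivatives
  have h1 : 1 ≤ ∏ k, ‖ei (derivative (p0 d a)) (c k)‖ := by
    have h2 : (∏ k, ‖ei (derivative (p0 d a)) (c k)‖) ^ 2 = (S.q : ℝ) := by
      rw [← Finset.prod_pow]
      have h3 := congrArg (fun z : ℂ => ‖z‖) S.qd
      simp only [norm_prod, norm_pow, Complex.norm_natCast] at h3
      exact h3.symm
    have h3 : (1 : ℝ) ≤ (∏ k, ‖ei (derivative (p0 d a)) (c k)‖) ^ 2 := by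
      rw [h2]
      exact_mod_cast S.q1
    have h4 : 0 ≤ ∏ k, ‖ei (derivative (p0 d a)) (c k)‖ :=
      Finset.prod_nonneg fun k _ => norm_nonneg _
    by_contra hcon
    have h5 : (∏ k, ‖ei (derivative (p0 d a)) (c k)‖) ^ 2 < 1 :=
      pow_lt_one₀ h4 (not_le.1 hcon) two_ne_zero
    linarith
  have h2 : ‖ei (derivative (p0 d a)) (c i)‖ ≤ ‖c i - c j‖ * (B : ℝ) ^ (3 * (d - 2)) := by
    rw [ei_der H.prod i, norm_prod, ← Finset.mul_prod_erase _ _
      (Finset.mem_erase.2 ⟨hij.symm, Finset.mem_univ j⟩)]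
    refine mul_le_mul_of_nonneg_left ?_ (norm_nonneg _)
    calc ∏ k ∈ (univ.erase i).erase j, ‖c i - c k‖ ≤ ∏ _k ∈ (univ.erase i).erase j, (B : ℝ) ^ 3 :=
          Finset.prod_le_prod (fun k _ => norm_nonneg _) fun k _ => c_diff H i k
      _ = (B : ℝ) ^ (3 * (d - 2)) := by
          rw [Finset.prod_const, Finset.card_erase_of_mem
            (Finset.mem_erase.2 ⟨hij.symm, Finset.mem_univ j⟩),
            Finset.card_erase_of_mem (Finset.mem_univ i), Finset.card_univ,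
            Fintype.card_fin, ← pow_mul]
          congr 1
  have h3 : ∏ k ∈ univ.erase i, ‖ei (derivative (p0 d a)) (c k)‖ ≤
      (B : ℝ) ^ (3 * (d - 1) * (d - 1)) := by
    calc ∏ k ∈ univ.erase i, ‖ei (derivative (p0 d a)) (c k)‖
        ≤ ∏ _k ∈ univ.erase i, (B : ℝ) ^ (3 * (d - 1)) :=
          Finset.prod_le_prod (fun k _ => norm_nonneg _) fun k _ => der_le H k
      _ = (B : ℝ) ^ (3 * (d - 1) * (d - 1)) := by
          rw [Finset.prod_const, Finset.card_erase_of_mem (Finset.mem_univ i), Finset.card_univ,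
            Fintype.card_fin, ← pow_mul]
  rw [← Finset.mul_prod_erase _ _ (Finset.mem_univ i)] at h1
  calc 1 ≤ ‖ei (derivative (p0 d a)) (c i)‖ * ∏ k ∈ univ.erase i, ‖ei (derivative (p0 d a)) (c k)‖ :=
        h1
    _ ≤ (‖c i - c j‖ * (B : ℝ) ^ (3 * (d - 2))) * (B : ℝ) ^ (3 * (d - 1) * (d - 1)) :=
        mul_le_mul h2 h3 (Finset.prod_nonneg fun k _ => norm_nonneg _) (by positivity)
    _ = ‖c i - c j‖ * (B : ℝ) ^ (3 * (d - 2) + 3 * (d - 1) * (d - 1)) := by
        rw [mul_assoc, ← pow_add]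
    _ ≤ ‖c i - c j‖ * (B : ℝ) ^ (3 * d ^ 2) := by
        refine mul_le_mul_of_nonneg_left (pow_le_pow_right₀ hB ?_) (norm_nonneg _)
        obtain ⟨e, rfl⟩ : ∃ e, d = e + 2 := ⟨d - 2, by omega⟩
        have e1 : e + 2 - 2 = e := by omega
        have e2 : e + 2 - 1 = e + 1 := by omega
        rw [e1, e2]
        nlinarith

end Pool.Agent.H97.GA
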