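import Pool.Agent.H97.GA.TCB
import Pool.Agent.H97.GA.WEqA

/-! # [GA-WEQ] The equation of the Taylor expansions at `1 / M`

`cvC_x`: `CvC_of` with `S.le`: `RR d m B / M < 1`, because `M = q N ≥ N ≥ B^(200 d² (d+m))` (`H.big`).
`W_eq`: apply `tayC (1/M)` to `S.eq i` (`tayC_pe`; `tayC _ 0 = 0` from `tayC_C _ 0`):
`ei p0 w + ∑ (C q (C (1/M) + X))^(l+1) ei (q0 l) w = 0`, `w = tayC (1/M) (S.x i)`;
`q (1/M + X) = (1/N)(1 + M X)` because `M = q N`; so `fv d m a (C (1/N) (1 + C M X)) w = 0` by `fv_pe`;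
`gN_hN`. -/

namespace Pool.Agent.H97.GA

open Finset Polynomial NumberField Pool.Agent.H72.ES Pool.Agent.H87.SA

variable {d m : ℕ} {a : ℕ → ℕ → ℤ} {B N : ℕ} {c : Fin d → ℂ}

theorem cvC_x (H : GHyp d m a B N c) (S : SerC d m a B c) (i : Fin d) :
    CvC (1 / (S.M N : ℝ)) (S.x i) := by
  have hB2 : (2 : ℝ) ≤ (B : ℝ) := by exact_mod_cast H.B2
  have hB : 0 < B := by
    have := H.B2
    omega
  have hd := H.d3
  have hm := H.m1
  have hN0 : 0 < N := lt_of_lt_of_le (pow_pos hB _) H.big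
  have hM : (N : ℝ) ≤ (S.M N : ℝ) := by
    unfold SerC.M
    have := S.q1
    exact_mod_cast Nat.le_mul_of_pos_left N (by omega)
  have hM0 : (0 : ℝ) < (S.M N : ℝ) := lt_of_lt_of_le (by exact_mod_cast hN0) hM
  have hR0 : (0 : ℝ) ≤ RR d m B := by unfold RR; positivity
  refine CvC_of hR0 ?_ (S.le i)
  rw [mul_one_div, div_lt_one hM0]
  refine lt_of_lt_of_le ?_ hM
  have h1 : (B : ℝ) ^ (200 * d ^ 2 * (d + m)) ≤ (N : ℝ) := by
    exact_mod_cast H.big
  refine lt_of_lt_of_le ?_ h1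
  unfold RR
  apply pow_lt_pow_right₀ (by linarith)
  have h2 : 0 < d ^ 2 * (d + m) := Nat.mul_pos (by positivity) (by omega)
  rw [mul_assoc, mul_assoc]
  omega

theorem W_const (S : SerC d m a B c) (N : ℕ) (i : Fin d) :
    PowerSeries.constantCoeff (S.W N i) = S.y N i := by
  unfold SerC.W SerC.y evC
  rw [map_mul, PowerSeries.constantCoeff_C]

theorem W_eq (H : GHyp d m a B N c) (S : SerC d m a B c) (i : Fin d) :
    pe (gN d m a N) (hN d m a N (S.M N)) m 1 (S.W N i) = 0 := by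
  have hB : 0 < B := by
    have := H.B2
    omega
  have hN0 : 0 < N := lt_of_lt_of_le (pow_pos hB _) H.big
  have hq1 := S.q1
  have hh : (0 : ℝ) ≤ 1 / (S.M N : ℝ) := by positivity
  have h1 := tayC_pe hh (p0 d a) (q0 d a) m (S.q : ℂ) (cvC_x H S i)
  rw [S.eq i] at h1
  have h0 : tayC (1 / (S.M N : ℝ)) 0 = 0 := by
    have := tayC_C (1 / (S.M N : ℝ)) 0
    rwa [map_zero] at this
  rw [h0] at h1
  have ht : PowerSeries.C (1 / (N : ℂ)) * (1 + PowerSeries.C ((S.M N : ℕ) : ℂ) * PowerSeries.X) =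
      PowerSeries.C (S.q : ℂ) * (PowerSeries.C (((1 / (S.M N : ℝ)) : ℝ) : ℂ) +
        PowerSeries.X) := by
    have hNc : (N : ℂ) ≠ 0 := by exact_mod_cast hN0.ne'
    have hqc : (S.q : ℂ) ≠ 0 := by exact_mod_cast (by omega : S.q ≠ 0)
    have e1 : ((S.M N : ℕ) : ℂ) = (S.q : ℂ) * (N : ℂ) := by
      unfold SerC.M
      push_cast
      ring
    have e2 : (((1 / (S.M N : ℝ)) : ℝ) : ℂ) = 1 / ((S.q : ℂ) * (N : ℂ)) := by
      rw [← e1]
      push_cast
      ring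
    rw [e2, e1, mul_add, mul_add, mul_one, ← mul_assoc, ← map_mul, ← map_mul]
    congr 2
    · congr 1
      field_simp
    · congr 1
      field_simp
  unfold SerC.W
  rw [gN_hN d m (by have := H.d3; omega) a hN0.ne' (S.M N), ht, fv_pe, ← h1, mul_zero]

end Pool.Agent.H97.GA
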