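import Pool.Agent.H97.GA.TCB
import Pool.Agent.H97.GA.BdsB

/-! # [GA-YRTA] The points `S.y N i` are distinct and bounded

`X'_i = evC (1/M) (x i)`, `S.y N i = N^m X'_i`. `evC_near` with `A = B^(8 d²)`, `R = RR d m B`, `h = 1/M`:
`‖X'_i - c i‖ ≤ 4 B^(8 d²) B^(70 d² (d+m)) / M`, and `M = q N ≥ N ≥ B^(200 d² (d+m))` (`H.big`), so
(`4 ≤ B²`) `‖X'_i - c i‖ * (4 B^(3 d²)) ≤ 1`.
`y_inj`: if `X'_i = X'_j`, `i ≠ j`, then `‖c i - c j‖ ≤ 1/2 B^(-3d²)`, which contradicts `c_sep`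
(`N^m ≠ 0`).
`y_le`: `‖X'_i‖ ≤ (B + 1) + 1 ≤ B²` (`c_le`, `B ≥ 2`). -/

namespace Pool.Agent.H97.GA

open Finset Polynomial NumberField Pool.Agent.H72.ES Pool.Agent.H87.SA

variable {d m : ℕ} {a : ℕ → ℕ → ℤ} {B N : ℕ} {c : Fin d → ℂ}

theorem yr_exp (H : GHyp d m a B N c) (e : ℕ) (he : e ≤ 130 * d ^ 2 * (d + m)) :
    (B : ℝ) ^ e * RR d m B ≤ (N : ℝ) := by
  have hB : (1 : ℝ) ≤ (B : ℝ) := by
    have := H.B2
    exact_mod_cast (by omega : 1 ≤ B)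
  have h1 : (B : ℝ) ^ (200 * d ^ 2 * (d + m)) ≤ (N : ℝ) := by
    exact_mod_cast H.big
  refine le_trans ?_ h1
  unfold RR
  rw [← pow_add]
  apply pow_le_pow_right₀ hB
  calc e + 70 * d ^ 2 * (d + m) ≤ 130 * d ^ 2 * (d + m) + 70 * d ^ 2 * (d + m) := by omega
    _ = 200 * d ^ 2 * (d + m) := by ring

theorem yr_M (H : GHyp d m a B N c) (S : SerC d m a B c) :
    (0 : ℝ) < (N : ℝ) ∧ (N : ℝ) ≤ (S.M N : ℝ) := by
  have hB : 0 < B := by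
    have := H.B2
    omega
  have h1 : 0 < N := lt_of_lt_of_le (pow_pos hB _) H.big
  refine ⟨by exact_mod_cast h1, ?_⟩
  unfold SerC.M
  have := S.q1
  exact_mod_cast Nat.le_mul_of_pos_left N (by omega)

theorem yr_near (H : GHyp d m a B N c) (S : SerC d m a B c) (i : Fin d) :
    ‖evC (1 / (S.M N : ℝ)) (S.x i) - c i‖ * (4 * (B : ℝ) ^ (3 * d ^ 2)) ≤ 1 := by
  obtain ⟨hN, hM⟩ := yr_M H S
  have hM0 : (0 : ℝ) < (S.M N : ℝ) := hN.trans_le hM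
  have hB2 : (2 : ℝ) ≤ (B : ℝ) := by exact_mod_cast H.B2
  have hR0 : (0 : ℝ) ≤ RR d m B := by unfold RR; positivity
  have hd := H.d3
  have hm := H.m1
  have hRh : RR d m B * (1 / (S.M N : ℝ)) ≤ 1 / 2 := by
    have h1 := yr_exp H 1 (by
      have : 1 ≤ d ^ 2 * (d + m) := Nat.mul_pos (by positivity) (by omega)
      calc 1 ≤ d ^ 2 * (d + m) := this
        _ ≤ 130 * d ^ 2 * (d + m) := by rw [mul_assoc]; omega)
    rw [pow_one] at h1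
    rw [mul_one_div, div_le_iff₀ hM0]
    nlinarith
  have h1 := evC_near (by positivity : (0 : ℝ) ≤ 1 / (S.M N : ℝ)) hR0 hRh (S.le i)
  rw [S.x0 i] at h1
  have hexp : 4 + 3 * d ^ 2 + 8 * d ^ 2 ≤ 130 * d ^ 2 * (d + m) := by
    have h2 : d ^ 2 * 4 ≤ d ^ 2 * (d + m) := Nat.mul_le_mul_left _ (by omega)
    have h3 : 1 ≤ d ^ 2 := Nat.one_le_pow _ _ (by omega)
    rw [mul_assoc]
    omega
  have h2 := yr_exp H (4 + 3 * d ^ 2 + 8 * d ^ 2) hexp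
  have h16 : (16 : ℝ) ≤ (B : ℝ) ^ 4 := by
    have := pow_le_pow_left₀ (by norm_num) hB2 4
    norm_num at this ⊢
    exact this
  have hb3 : (0 : ℝ) < (B : ℝ) ^ (3 * d ^ 2) := by positivity
  have hb8 : (0 : ℝ) < (B : ℝ) ^ (8 * d ^ 2) := by positivity
  calc ‖evC (1 / (S.M N : ℝ)) (S.x i) - c i‖ * (4 * (B : ℝ) ^ (3 * d ^ 2))
      ≤ (4 * (B : ℝ) ^ (8 * d ^ 2) * RR d m B * (1 / (S.M N : ℝ))) *
          (4 * (B : ℝ) ^ (3 * d ^ 2)) := by gcongr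
    _ = (16 * ((B : ℝ) ^ (3 * d ^ 2) * (B : ℝ) ^ (8 * d ^ 2) * RR d m B)) / (S.M N : ℝ) := by
        ring
    _ ≤ 1 := by
        rw [div_le_one hM0]
        refine le_trans ?_ (h2.trans hM)
        rw [pow_add, pow_add]
        calc 16 * ((B : ℝ) ^ (3 * d ^ 2) * (B : ℝ) ^ (8 * d ^ 2) * RR d m B)
            ≤ (B : ℝ) ^ 4 * ((B : ℝ) ^ (3 * d ^ 2) * (B : ℝ) ^ (8 * d ^ 2) * RR d m B) := by
              gcongr
          _ = _ := by ring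

theorem y_inj (H : GHyp d m a B N c) (S : SerC d m a B c) : Function.Injective (S.y N) := by
  intro i j hij
  by_contra hne
  obtain ⟨hN, hM⟩ := yr_M H S
  have hB2 : (2 : ℝ) ≤ (B : ℝ) := by exact_mod_cast H.B2
  have hb3 : (0 : ℝ) < (B : ℝ) ^ (3 * d ^ 2) := by positivity
  have hNm : (N : ℂ) ^ m ≠ 0 := pow_ne_zero _ (by
    have : N ≠ 0 := by
      rintro rfl
      simp at hN
    exact_mod_cast this)
  have h1 : evC (1 / (S.M N : ℝ)) (S.x i) = evC (1 / (S.M N : ℝ)) (S.x j) :=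
    mul_left_cancel₀ hNm hij
  have hi := yr_near H S i
  have hj := yr_near H S j
  rw [← h1] at hj
  have h2 := c_sep H S hne
  have h3 : ‖c i - c j‖ ≤ ‖evC (1 / (S.M N : ℝ)) (S.x i) - c i‖ +
      ‖evC (1 / (S.M N : ℝ)) (S.x i) - c j‖ := by
    have h4 : c i - c j = (evC (1 / (S.M N : ℝ)) (S.x i) - c j) -
        (evC (1 / (S.M N : ℝ)) (S.x i) - c i) := by ring
    rw [h4, add_comm]
    exact norm_sub_le _ _
  have h5 := mul_le_mul_of_nonneg_right h3 hb3.le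
  nlinarith

theorem y_le (H : GHyp d m a B N c) (S : SerC d m a B c) (i : Fin d) :
    ‖S.y N i‖ ≤ (B : ℝ) ^ 2 * (N : ℝ) ^ m := by
  have hB2 : (2 : ℝ) ≤ (B : ℝ) := by exact_mod_cast H.B2
  have hb3 : (1 : ℝ) ≤ (B : ℝ) ^ (3 * d ^ 2) := one_le_pow₀ (by linarith)
  have hi := yr_near H S i
  have h0 := norm_nonneg (evC (1 / (S.M N : ℝ)) (S.x i) - c i)
  have h1 : ‖evC (1 / (S.M N : ℝ)) (S.x i) - c i‖ ≤ 1 := by nlinarith
  have h2 := c_le H i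
  have h3 : ‖evC (1 / (S.M N : ℝ)) (S.x i)‖ ≤ B + 2 := by
    have h4 : evC (1 / (S.M N : ℝ)) (S.x i) = (evC (1 / (S.M N : ℝ)) (S.x i) - c i) + c i := by
      ring
    rw [h4]
    refine (norm_add_le _ _).trans ?_
    linarith
  unfold SerC.y
  rw [norm_mul, norm_pow, Complex.norm_natCast, mul_comm]
  refine mul_le_mul_of_nonneg_right ?_ (by positivity)
  nlinarith

end Pool.Agent.H97.GA
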