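import Pool.Agent.H97.GA.WEq
import Pool.Agent.H97.GA.YRtA
import Pool.Agent.H97.GA.PeU

/-! # [GA-YRT] The roots of `gN`

`y_root`: constant coefficient of `W_eq` (`pe_const`, `W_const`).
`y_prod`: `gN` is monic of degree `d` with the `d` distinct roots `y_i` (`y_inj`)
(`Polynomial.prod_multiset_X_sub_C_of_monic_of_roots_card_eq`, or: `∏ (X - y_i)` divides `gN.map`
(`Finset.prod_dvd_of_coprime`), both monic of the same degree; see `gst_split` in
`Pool/Agent/H87/SA/Val.lean`).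
`root_eqG`: by `gN_val` `N^m ξ` is a root of `gN`; evaluate `y_prod`.
`dlt_leC`: `ei_der` for `gN` and `y`: `‖y i - y j‖ ≤ 2 B² N^m ≤ B³ N^m` (`y_le`), so the product is at
most `(B³ N^m)^(2 d (d-1)) ≤ N^((m+1) 2 d²)`, as `B³ ≤ N` (`H.big`), and `N ≤ M`. -/

namespace Pool.Agent.H97.GA

open Finset Polynomial NumberField Pool.Agent.H72.ES Pool.Agent.H87.SA

variable {d m : ℕ} {a : ℕ → ℕ → ℤ} {B N : ℕ} {c : Fin d → ℂ}

theorem y_root (H : GHyp d m a B N c) (S : SerC d m a B c) (i : Fin d) :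
    ei (gN d m a N) (S.y N i) = 0 := by
  have h1 := congrArg PowerSeries.constantCoeff (W_eq H S i)
  rw [pe_const, W_const, map_zero] at h1
  exact h1

theorem yrt_deg (d : ℕ) (b : ℕ → ℤ) :
    (∑ j ∈ range d, C (b j) * X ^ j : ℤ[X]).degree < (d : WithBot ℕ) := by
  rw [degree_lt_iff_coeff_zero]
  intro k hk
  rw [finsetSum_coeff]
  apply Finset.sum_eq_zero
  intro j hj
  rw [coeff_C_mul_X_pow, if_neg]
  have := mem_range.1 hj
  omega

theorem yrt_monic (d m : ℕ) (a : ℕ → ℕ → ℤ) (N : ℕ) : (gN d m a N).Monic := by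
  unfold gN
  exact monic_X_pow_add (yrt_deg d _)

theorem yrt_natDegree (d m : ℕ) (a : ℕ → ℕ → ℤ) (N : ℕ) : (gN d m a N).natDegree = d := by
  unfold gN
  rw [natDegree_add_eq_left_of_degree_lt, natDegree_X_pow]
  rw [degree_X_pow]
  exact yrt_deg d _

theorem y_prod (H : GHyp d m a B N c) (S : SerC d m a B c) :
    (gN d m a N).map (Int.castRingHom ℂ) = ∏ i, (X - C (S.y N i)) := by
  have hmon : ((gN d m a N).map (Int.castRingHom ℂ)).Monic := (yrt_monic d m a N).map _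
  have hdeg : ((gN d m a N).map (Int.castRingHom ℂ)).natDegree = d := by
    rw [(yrt_monic d m a N).natDegree_map, yrt_natDegree]
  have hmon2 : (∏ i, (X - C (S.y N i)) : ℂ[X]).Monic :=
    monic_prod_of_monic _ _ fun i _ => monic_X_sub_C _
  have hdeg2 : (∏ i, (X - C (S.y N i)) : ℂ[X]).natDegree = d := by
    rw [natDegree_prod_of_monic _ _ fun i _ => monic_X_sub_C _]
    simp
  have hdvd : (∏ i, (X - C (S.y N i)) : ℂ[X]) ∣ (gN d m a N).map (Int.castRingHom ℂ) := by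
    apply Finset.prod_dvd_of_coprime
    · intro i _ j _ hij
      exact isCoprime_X_sub_C_of_isUnit_sub
        (IsUnit.mk0 _ (sub_ne_zero.2 fun h => hij (y_inj H S h)))
    · intro i _
      rw [dvd_iff_isRoot, IsRoot.def, eval_map]
      exact y_root H S i
  refine eq_of_monic_of_dvd_of_natDegree_le hmon2 hmon hdvd ?_
  rw [hdeg, hdeg2]

theorem yrt_N (H : GHyp d m a B N c) : B ^ 3 ≤ N := by
  refine le_trans ?_ H.big
  apply Nat.pow_le_pow_right (by have := H.B2; omega)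
  have h3 := H.d3
  nlinarith [sq_nonneg d, H.m1]

theorem root_eqG (H : GHyp d m a B N c) (S : SerC d m a B c) {ξ : ℂ}
    (hξ : fv d m a (1 / (N : ℂ)) ξ = 0) : ∃ i, (N : ℂ) ^ m * ξ = S.y N i := by
  have hN0 : N ≠ 0 := by
    have h1 := yrt_N H
    have h2 : 0 < B ^ 3 := Nat.pow_pos (by have := H.B2; omega)
    omega
  have hd : 1 ≤ d := by have := H.d3; omega
  have h1 := gN_val d m hd a hN0 ξ
  rw [hξ, mul_zero] at h1
  have h2 : eval ((N : ℂ) ^ m * ξ) ((gN d m a N).map (Int.castRingHom ℂ)) = 0 := by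
    rw [eval_map]
    exact h1
  rw [y_prod H S, eval_prod, Finset.prod_eq_zero_iff] at h2
  obtain ⟨i, -, hi⟩ := h2
  refine ⟨i, ?_⟩
  rw [eval_sub, eval_X, eval_C, sub_eq_zero] at hi
  exact hi

theorem dlt_leC (H : GHyp d m a B N c) (S : SerC d m a B c) :
    ‖∏ i, ei (derivative (gN d m a N)) (S.y N i) ^ 2‖ ≤
      (S.M N : ℝ) ^ (2 * d ^ 2 * (m + 1)) := by
  have hB2 : (2 : ℝ) ≤ B := by exact_mod_cast H.B2
  have hBN : (B : ℝ) ^ 3 ≤ N := by exact_mod_cast yrt_N H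
  have hN1 : (1 : ℝ) ≤ N := by
    refine le_trans ?_ hBN
    exact one_le_pow₀ (by linarith)
  have hNM : (N : ℝ) ≤ (S.M N : ℝ) := by
    have h1 : N ≤ S.M N := by
      unfold SerC.M
      exact Nat.le_mul_of_pos_left N S.q1
    exact_mod_cast h1
  have hfac : ∀ i j : Fin d, ‖S.y N i - S.y N j‖ ≤ (N : ℝ) ^ (m + 1) := by
    intro i j
    have h1 := y_le H S i
    have h2 := y_le H S j
    calc ‖S.y N i - S.y N j‖ ≤ ‖S.y N i‖ + ‖S.y N j‖ := norm_sub_le _ _
      _ ≤ (B : ℝ) ^ 2 * (N : ℝ) ^ m + (B : ℝ) ^ 2 * (N : ℝ) ^ m := add_le_add h1 h2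
      _ = (2 * (B : ℝ) ^ 2) * (N : ℝ) ^ m := by ring
      _ ≤ (B : ℝ) ^ 3 * (N : ℝ) ^ m := by
          apply mul_le_mul_of_nonneg_right _ (by positivity)
          have h3 : (B : ℝ) ^ 3 = B * (B : ℝ) ^ 2 := by ring
          rw [h3]
          exact mul_le_mul_of_nonneg_right hB2 (by positivity)
      _ ≤ (N : ℝ) * (N : ℝ) ^ m := mul_le_mul_of_nonneg_right hBN (by positivity)
      _ = (N : ℝ) ^ (m + 1) := by ring
  have hone : ∀ i : Fin d, ‖ei (derivative (gN d m a N)) (S.y N i)‖ ≤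
      ((N : ℝ) ^ (m + 1)) ^ d := by
    intro i
    rw [ei_der (y_prod H S) i, norm_prod]
    refine (Finset.prod_le_prod (fun _ _ => norm_nonneg _) fun j _ => hfac i j).trans ?_
    rw [Finset.prod_const, Finset.card_erase_of_mem (mem_univ i), Finset.card_univ,
      Fintype.card_fin]
    exact pow_le_pow_right₀ (one_le_pow₀ hN1) (Nat.sub_le _ _)
  rw [norm_prod]
  have h4 : ∏ i, ‖ei (derivative (gN d m a N)) (S.y N i) ^ 2‖ ≤
      ∏ _i : Fin d, (((N : ℝ) ^ (m + 1)) ^ d) ^ 2 := by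
    apply Finset.prod_le_prod (fun _ _ => norm_nonneg _)
    intro i _
    rw [norm_pow]
    exact pow_le_pow_left₀ (norm_nonneg _) (hone i) 2
  refine h4.trans ?_
  rw [Finset.prod_const, Finset.card_univ, Fintype.card_fin, ← pow_mul, ← pow_mul, ← pow_mul]
  refine (pow_le_pow_left₀ (by linarith) hNM _).trans (le_of_eq ?_)
  congr 1
  ring

end Pool.Agent.H97.GA
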