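import Pool.Agent.H97.GA.Hens
import Pool.Agent.H97.GA.PeU
import Pool.Agent.H97.GA.Disc
import Pool.Agent.H97.GA.WEq
import Pool.Agent.H97.GA.YRt

/-! # [GA-BIG] A number field with all roots and both families of integral series

`Ω` from `exists_fieldC` for the family `Sum.elim c (S.y N) : Fin d ⊕ Fin d → ℂ` (all integral: roots of
the monic `p0`, `gN`). `perm` from `exists_permC` (`H.prod`, `y_prod`).
`x i`: `hens_ex` over `𝓞 Ω` with `p = p0`, `Q = q0`, `y = co i` (`ei p0 (co i) = 0`: apply `ι0`, injective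
on `𝓞 Ω`), `μ = ∏_{j≠i} ei p0' (co j)²`: `μ ei p0' (co i)² = q` in `𝓞 Ω` (apply `ι0`, `S.qd`).
`hx`: for `σ` and `σ (co i) = c j` the series `(x i).map σ` (`map_pe`) and `S.x j` solve the same
equation with the same constant term; `pe_unique` over `ℂ` (`ei p0' (c j) ≠ 0` by `ei_der`).
`Δ`: `exists_disc (y_inj) (y_prod)`, `Δ = r²`. `u i`: `hens_ex` over `𝓞 Ω` with `p = gN`,
`Q = hN .. (S.M N)`, `y = yo i`, `μ = ∏_{j≠i} ei gN' (yo j)²`, so the factor is `Δ`.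
`hu`: `(u i).map σ` and `PowerSeries.rescale Δ (S.W N j)` (`W_eq`, `pe_rescale`, `W_const`) solve
`pe gN hN m Δ = 0` with constant term `S.y N j`; `pe_unique`; `PowerSeries.coeff_rescale`. -/

namespace Pool.Agent.H97.GA

open Finset Polynomial NumberField Pool.Agent.H72.ES Pool.Agent.H87.SA

variable {d m : ℕ} {a : ℕ → ℕ → ℤ} {B N : ℕ} {c : Fin d → ℂ}

/-- a number field with all roots and the two families of series -/
structure Big (S : SerC d m a B c) (N : ℕ) (Ω : Type) [Field Ω] [NumberField Ω] where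
  ι0 : Ω →+* ℂ
  co : Fin d → 𝓞 Ω
  yo : Fin d → 𝓞 Ω
  hco : ∀ i, ι0 (co i : Ω) = c i
  hyo : ∀ i, ι0 (yo i : Ω) = S.y N i
  perm : ∀ σ : Ω →+* ℂ, ∃ π0 π : Equiv.Perm (Fin d), (∀ i, σ (co i : Ω) = c (π0 i)) ∧
    ∀ i, σ (yo i : Ω) = S.y N (π i)
  x : Fin d → PowerSeries (𝓞 Ω)
  hx : ∀ (σ : Ω →+* ℂ) (i j : Fin d), σ (co i : Ω) = c j → ∀ k,
    σ ((PowerSeries.coeff k (x i) : 𝓞 Ω) : Ω) = PowerSeries.coeff k (S.x j)
  Δ : ℤ
  Δ1 : 1 ≤ Δ
  hΔ : (Δ : ℂ) = ∏ i, ei (derivative (gN d m a N)) (S.y N i) ^ 2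
  u : Fin d → PowerSeries (𝓞 Ω)
  hu : ∀ (σ : Ω →+* ℂ) (i j : Fin d), σ (yo i : Ω) = S.y N j → ∀ k,
    σ ((PowerSeries.coeff k (u i) : 𝓞 Ω) : Ω) = (Δ : ℂ) ^ k * PowerSeries.coeff k (S.W N j)

theorem big_ser {d : ℕ} {p : ℤ[X]} {y : Fin d → ℂ} (hy : Function.Injective y)
    (hp : p.map (Int.castRingHom ℂ) = ∏ i, (X - C (y i))) (Q : ℕ → ℤ[X]) (m : ℕ) {Ω : Type}
    [Field Ω] [NumberField Ω] (ι0 : Ω →+* ℂ) (yo : Fin d → 𝓞 Ω)
    (h : ∀ i, ι0 (yo i : Ω) = y i) (D : ℤ)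
    (hD : (D : ℂ) = ∏ i, ei (derivative p) (y i) ^ 2) (v : Fin d → PowerSeries ℂ)
    (hv0 : ∀ i, PowerSeries.constantCoeff (v i) = y i)
    (hv : ∀ i, pe p Q m (D : ℂ) (v i) = 0) :
    ∃ u : Fin d → PowerSeries (𝓞 Ω), ∀ (σ : Ω →+* ℂ) (i j : Fin d), σ (yo i : Ω) = y j → ∀ k,
      σ ((PowerSeries.coeff k (u i) : 𝓞 Ω) : Ω) = PowerSeries.coeff k (v j) := by
  classical
  have hinj : Function.Injective (ι0.comp (algebraMap (𝓞 Ω) Ω)) :=
    ι0.injective.comp RingOfIntegers.coe_injective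
  have hval : ∀ i, (ι0.comp (algebraMap (𝓞 Ω) Ω)) (yo i) = y i := h
  have hex : ∀ i, ∃ u : PowerSeries (𝓞 Ω), PowerSeries.constantCoeff u = yo i ∧
      pe p Q m (D : 𝓞 Ω) u = 0 := by
    intro i
    have hroot : ei p (yo i) = 0 := by
      apply hinj
      rw [map_ei, map_zero, hval i]
      unfold ei
      rw [eval₂_eq_eval_map, hp, eval_prod]
      exact Finset.prod_eq_zero (mem_univ i) (by rw [eval_sub, eval_X, eval_C, sub_self])
    obtain ⟨u, hu0, hu⟩ := hens_ex p Q m (yo i)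
      (∏ j ∈ univ.erase i, ei (derivative p) (yo j) ^ 2) hroot
    refine ⟨u, hu0, ?_⟩
    have e2 : (∏ j ∈ univ.erase i, ei (derivative p) (yo j) ^ 2) *
        ei (derivative p) (yo i) ^ 2 = (D : 𝓞 Ω) := by
      rw [Finset.prod_erase_mul _ _ (mem_univ i)]
      apply hinj
      rw [map_prod, map_intCast, hD]
      refine Finset.prod_congr rfl fun j _ => ?_
      rw [map_pow, map_ei, hval j]
    rw [e2] at hu
    exact hu
  choose u hu0 hu using hex
  refine ⟨u, ?_⟩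
  intro σ i j hij k
  have e3 : (u i).map (σ.comp (algebraMap (𝓞 Ω) Ω)) = v j := by
    apply pe_unique p Q m (y j) (D : ℂ) (ei_der_ne hy hp j)
    · rw [← PowerSeries.coeff_zero_eq_constantCoeff_apply, PowerSeries.coeff_map,
        PowerSeries.coeff_zero_eq_constantCoeff_apply, hu0 i]
      exact hij
    · exact hv0 j
    · have e5 := map_pe (σ.comp (algebraMap (𝓞 Ω) Ω)) p Q m (D : 𝓞 Ω) (u i)
      rw [hu i, map_zero, map_intCast] at e5
      exact e5.symm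
    · exact hv j
  have e4 := congrArg (PowerSeries.coeff k) e3
  rw [PowerSeries.coeff_map] at e4
  exact e4

theorem big_int_of {d : ℕ} {p : ℤ[X]} {y : Fin d → ℂ}
    (hp : p.map (Int.castRingHom ℂ) = ∏ i, (X - C (y i))) (i : Fin d) : IsIntegral ℤ (y i) := by
  refine ⟨p, ?_, ?_⟩
  · apply Polynomial.monic_of_injective (f := Int.castRingHom ℂ)
    · intro a b hab
      exact Int.cast_injective (α := ℂ) hab
    · rw [hp]
      exact monic_prod_of_monic _ _ fun i _ => monic_X_sub_C (y i)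
  · rw [eval₂_eq_eval_map]
    have h1 : algebraMap ℤ ℂ = Int.castRingHom ℂ := rfl
    rw [h1, hp, eval_prod]
    exact Finset.prod_eq_zero (Finset.mem_univ i) (by rw [eval_sub, eval_X, eval_C, sub_self])

theorem exists_big (H : GHyp d m a B N c) (S : SerC d m a B c) :
    ∃ (Ω : Type) (_ : Field Ω) (_ : NumberField Ω), Nonempty (Big S N Ω) := by
  classical
  have hyi := y_inj (N := N) H S
  have hyp := y_prod (N := N) H S
  obtain ⟨Ω, fΩ, nΩ, ι0, z, hz, -⟩ := exists_fieldC (Sum.elim c (S.y N)) (by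
    rintro (i | i)
    · exact big_int_of H.prod i
    · exact big_int_of hyp i)
  have hco : ∀ i, ι0 (z (Sum.inl i) : Ω) = c i := fun i => hz (Sum.inl i)
  have hyo : ∀ i, ι0 (z (Sum.inr i) : Ω) = S.y N i := fun i => hz (Sum.inr i)
  obtain ⟨x, hx⟩ := big_ser H.inj H.prod (q0 d a) m ι0 (fun i => z (Sum.inl i)) hco (S.q : ℤ)
    (by rw [Int.cast_natCast]; exact S.qd) S.x S.x0 (by
      intro i
      rw [Int.cast_natCast]
      exact S.eq i)
  obtain ⟨r, hr0, hr⟩ := exists_disc hyi hyp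
  have hΔ : ((r ^ 2 : ℤ) : ℂ) = ∏ i, ei (derivative (gN d m a N)) (S.y N i) ^ 2 := by
    rw [Int.cast_pow, hr, Finset.prod_pow]
  obtain ⟨u, hu⟩ := big_ser hyi hyp (hN d m a N (S.M N)) m ι0 (fun i => z (Sum.inr i)) hyo
    (r ^ 2) hΔ (fun i => PowerSeries.rescale ((r ^ 2 : ℤ) : ℂ) (S.W N i)) (by
      intro i
      rw [← PowerSeries.coeff_zero_eq_constantCoeff_apply, PowerSeries.coeff_rescale, pow_zero,
        one_mul, PowerSeries.coeff_zero_eq_constantCoeff_apply, W_const]) (by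
      intro i
      have h1 := pe_rescale (gN d m a N) (hN d m a N (S.M N)) m 1 ((r ^ 2 : ℤ) : ℂ) (S.W N i)
      rw [W_eq H S i, map_zero, one_mul] at h1
      exact h1.symm)
  refine ⟨Ω, fΩ, nΩ, ⟨⟨ι0, fun i => z (Sum.inl i), fun i => z (Sum.inr i), hco, hyo, ?_, x, hx,
    r ^ 2, ?_, hΔ, u, ?_⟩⟩⟩
  · intro σ
    obtain ⟨π0, h0⟩ := exists_permC H.inj H.prod ι0 (fun i => (z (Sum.inl i) : Ω)) hco σ
    obtain ⟨π, h1⟩ := exists_permC hyi hyp ι0 (fun i => (z (Sum.inr i) : Ω)) hyo σ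
    exact ⟨π0, π, h0, h1⟩
  · have h1 : 0 < r ^ 2 := by positivity
    omega
  · intro σ i j hij k
    rw [hu σ i j hij k, PowerSeries.coeff_rescale]

end Pool.Agent.H97.GA
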