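import Pool.Agent.H97.GA.HensB
import Pool.Agent.H97.GA.BdsB

/-! # [GA-SEREX] The complex series at `0`

`r` from `exists_disc H.inj H.prod`, `q = r.natAbs ^ 2`, so `q ≥ 1`, `(q : ℂ) = (∏ ei p0' (c i))²` and
`q ≤ (B^(3(d-1)))^(2d) ≤ B^(6 d²)` (`der_le`). For each `i`: `μ_i = ∏_{j≠i} ei p0' (c j)²`,
`μ_i ei p0' (c i)² = q`, `‖μ_i‖ ≤ B^(6 (d-1)²) ≤ K`, `K = B^(8 d²)`. `hens_bd` for the ring `ℂ`,
`ν = ‖·‖`, `n = d + m`, `p = p0`, `Q = q0`: Taylor coefficients at most `B^(4d+1) ≤ K` (`taylor_le`,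
`c_le`; degrees of `p0`, `q0 l` at most `d`, coefficients at most `B`; the leading coefficient is 1),
`‖c i‖ ≤ B + 1 ≤ K`. The rate is `((d+m+1)² K^(4(d+m)+1))² ≤ RR d m B = B^(70 d² (d+m))`:
`d + m + 1 ≤ 2^(d+m) ≤ B^(d+m)`, exponent `4(d+m) + 16 d² (4(d+m)+1) ≤ 70 d² (d+m)` as `d ≥ 3`,
`d + m ≥ 4`. -/

namespace Pool.Agent.H97.GA

open Finset Polynomial NumberField Pool.Agent.H72.ES Pool.Agent.H87.SA

variable {d m : ℕ} {a : ℕ → ℕ → ℤ} {B N : ℕ} {c : Fin d → ℂ}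

theorem serex_subMul : SubMul (fun z : ℂ => ‖z‖) where
  nonneg := norm_nonneg
  zero := norm_zero
  neg := norm_neg
  add := norm_add_le
  mul := norm_mul_le
  one := norm_one.le

theorem serex_coeff_sum (d : ℕ) (f : ℕ → ℤ) (k : ℕ) :
    (∑ j ∈ range d, C (f j) * X ^ j : ℤ[X]).coeff k = if k < d then f k else 0 := by
  rw [finsetSum_coeff]
  simp only [coeff_C_mul, coeff_X_pow]
  split_ifs with h
  · rw [Finset.sum_eq_single k]
    · rw [if_pos rfl, mul_one]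
    · intro j _ hj
      rw [if_neg (Ne.symm hj), mul_zero]
    · intro h1
      exact absurd (mem_range.2 h) h1
  · refine Finset.sum_eq_zero fun j hj => ?_
    rw [mem_range] at hj
    rw [if_neg (by omega), mul_zero]

theorem serex_deg_sum (d : ℕ) (f : ℕ → ℤ) :
    (∑ j ∈ range d, C (f j) * X ^ j : ℤ[X]).natDegree ≤ d := by
  rw [natDegree_le_iff_coeff_eq_zero]
  intro k hk
  rw [serex_coeff_sum, if_neg (by omega)]

theorem serex_deg_p0 (d : ℕ) (a : ℕ → ℕ → ℤ) : (p0 d a).natDegree ≤ d := by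
  unfold p0
  refine (natDegree_add_le _ _).trans (max_le ?_ (serex_deg_sum d _))
  rw [natDegree_X_pow]

theorem serex_co_p0 {d : ℕ} {a : ℕ → ℕ → ℤ} {B : ℕ} (hB : 2 ≤ B)
    (haB : ∀ i j, |a i j| ≤ (B : ℤ)) (k : ℕ) : |(p0 d a).coeff k| ≤ (B : ℤ) := by
  unfold p0
  rw [coeff_add, serex_coeff_sum, coeff_X_pow]
  have hB' : (2 : ℤ) ≤ B := by exact_mod_cast hB
  by_cases h1 : k = d
  · rw [if_pos h1, if_neg (by omega), add_zero, abs_one]
    omega
  · rw [if_neg h1, zero_add]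
    split_ifs
    · exact haB _ _
    · rw [abs_zero]
      omega

theorem serex_co_q0 {d : ℕ} {a : ℕ → ℕ → ℤ} {B : ℕ}
    (haB : ∀ i j, |a i j| ≤ (B : ℤ)) (l k : ℕ) : |(q0 d a l).coeff k| ≤ (B : ℤ) := by
  unfold q0
  rw [serex_coeff_sum]
  split_ifs
  · exact haB _ _
  · rw [abs_zero]
    exact Int.natCast_nonneg _

/-- comparison of the rates -/
theorem serex_rate {d m B : ℕ} (hd : 3 ≤ d) (hm : 1 ≤ m) (hB : 2 ≤ B) :
    ((((d + m : ℕ) : ℝ) + 1) ^ 2 * ((B : ℝ) ^ (8 * d ^ 2)) ^ (4 * (d + m) + 1)) ^ 2 ≤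
      RR d m B := by
  obtain ⟨n, hn⟩ : ∃ n, n = d + m := ⟨_, rfl⟩
  have hB' : (2 : ℝ) ≤ B := by exact_mod_cast hB
  have h1 : ((n : ℝ) + 1) ≤ (B : ℝ) ^ n := by
    have e1 : n + 1 ≤ 2 ^ n := Nat.lt_two_pow_self
    have e2 : ((n : ℝ) + 1) ≤ 2 ^ n := by exact_mod_cast e1
    exact e2.trans (pow_le_pow_left₀ (by norm_num) hB' n)
  unfold RR
  rw [← hn]
  have h2 : (((n : ℝ) + 1) ^ 2 * ((B : ℝ) ^ (8 * d ^ 2)) ^ (4 * n + 1)) ^ 2 ≤
      (((B : ℝ) ^ n) ^ 2 * ((B : ℝ) ^ (8 * d ^ 2)) ^ (4 * n + 1)) ^ 2 := by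
    refine pow_le_pow_left₀ (by positivity) ?_ 2
    refine mul_le_mul_of_nonneg_right ?_ (by positivity)
    exact pow_le_pow_left₀ (by positivity) h1 2
  refine h2.trans ?_
  rw [← pow_mul, ← pow_mul, ← pow_add, ← pow_mul]
  refine pow_le_pow_right₀ (by linarith) ?_
  have hn4 : 4 ≤ n := by omega
  have hd9 : 9 ≤ d ^ 2 := by nlinarith
  nlinarith [Nat.mul_le_mul_left (d ^ 2) hn4, Nat.mul_le_mul_right n hd9]

theorem exists_serC (H : GHyp d m a B N c) : Nonempty (SerC d m a B c) := by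
  have hd := H.d3
  have hm := H.m1
  have hB := H.B2
  have hBr : (1 : ℝ) ≤ B := by
    have : (2 : ℝ) ≤ B := by exact_mod_cast hB
    linarith
  obtain ⟨r, hr0, hr⟩ := exists_disc H.inj H.prod
  obtain ⟨q, hq⟩ : ∃ q : ℕ, q = r.natAbs ^ 2 := ⟨_, rfl⟩
  have hqd : (q : ℂ) = ∏ i, ei (derivative (p0 d a)) (c i) ^ 2 := by
    rw [Finset.prod_pow, ← hr, hq]
    have h1 : ((r.natAbs ^ 2 : ℕ) : ℤ) = r ^ 2 := by
      rw [Nat.cast_pow, Int.natCast_natAbs, sq_abs]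
    have h2 : ((r.natAbs ^ 2 : ℕ) : ℂ) = (((r.natAbs ^ 2 : ℕ) : ℤ) : ℂ) := by
      rw [Int.cast_natCast]
    rw [h2, h1, Int.cast_pow]
  have hq1 : 1 ≤ q := by
    rw [hq]
    exact Nat.one_le_pow _ _ (Int.natAbs_pos.2 hr0)
  have hD := fun i => der_le H i
  have hqle : q ≤ B ^ (6 * d ^ 2) := by
    have h1 : (q : ℝ) ≤ (B : ℝ) ^ (6 * d ^ 2) := by
      have h2 : (q : ℝ) = ‖(q : ℂ)‖ := (Complex.norm_natCast q).symm
      rw [h2, hqd, norm_prod]
      calc ∏ i, ‖ei (derivative (p0 d a)) (c i) ^ 2‖ ≤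
          ∏ _i : Fin d, ((B : ℝ) ^ (3 * (d - 1))) ^ 2 := by
            refine Finset.prod_le_prod (fun i _ => norm_nonneg _) fun i _ => ?_
            rw [norm_pow]
            exact pow_le_pow_left₀ (norm_nonneg _) (hD i) 2
        _ = (B : ℝ) ^ (3 * (d - 1) * 2 * d) := by
            rw [Finset.prod_const, Finset.card_univ, Fintype.card_fin, ← pow_mul, ← pow_mul,
              mul_assoc (3 * (d - 1))]
        _ ≤ (B : ℝ) ^ (6 * d ^ 2) := by
            refine pow_le_pow_right₀ hBr ?_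
            have h3 : (d - 1) * d ≤ d * d := Nat.mul_le_mul_right d (Nat.sub_le d 1)
            nlinarith
    exact_mod_cast h1
  have hK : (1 : ℝ) ≤ (B : ℝ) ^ (8 * d ^ 2) := one_le_pow₀ hBr
  have hroot : ∀ i, ei (p0 d a) (c i) = 0 := by
    intro i
    have h1 : ei (p0 d a) (c i) = ((p0 d a).map (Int.castRingHom ℂ)).eval (c i) := by
      rw [eval_map]
      rfl
    rw [h1, H.prod, eval_prod]
    refine Finset.prod_eq_zero (mem_univ i) ?_
    rw [eval_sub, eval_X, eval_C, sub_self]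
  have hex : ∀ i, ∃ u : PowerSeries ℂ, PowerSeries.constantCoeff u = c i ∧
      pe (p0 d a) (q0 d a) m (q : ℂ) u = 0 ∧
      ∀ k, ‖PowerSeries.coeff k u‖ ≤ (B : ℝ) ^ (8 * d ^ 2) * RR d m B ^ k := by
    intro i
    obtain ⟨μ, hμ⟩ : ∃ μ : ℂ, μ = ∏ j ∈ univ.erase i, ei (derivative (p0 d a)) (c j) ^ 2 :=
      ⟨_, rfl⟩
    have hμq : μ * ei (derivative (p0 d a)) (c i) ^ 2 = q := by
      rw [hμ, hqd]
      exact Finset.prod_erase_mul _ _ (mem_univ i)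
    have hμK : ‖μ‖ ≤ (B : ℝ) ^ (8 * d ^ 2) := by
      rw [hμ, norm_prod]
      calc ∏ j ∈ univ.erase i, ‖ei (derivative (p0 d a)) (c j) ^ 2‖ ≤
          ∏ _j ∈ univ.erase i, ((B : ℝ) ^ (3 * (d - 1))) ^ 2 := by
            refine Finset.prod_le_prod (fun i _ => norm_nonneg _) fun i _ => ?_
            rw [norm_pow]
            exact pow_le_pow_left₀ (norm_nonneg _) (hD i) 2
        _ = (B : ℝ) ^ (3 * (d - 1) * 2 * (d - 1)) := by
            rw [Finset.prod_const, Finset.card_erase_of_mem (mem_univ i), Finset.card_univ,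
              Fintype.card_fin, ← pow_mul, ← pow_mul, mul_assoc (3 * (d - 1))]
        _ ≤ (B : ℝ) ^ (8 * d ^ 2) := by
            refine pow_le_pow_right₀ hBr ?_
            have h3 : (d - 1) * (d - 1) ≤ d * d :=
              Nat.mul_le_mul (Nat.sub_le d 1) (Nat.sub_le d 1)
            nlinarith
    have hcK : ‖c i‖ ≤ (B : ℝ) ^ (8 * d ^ 2) := by
      refine (c_le H i).trans ?_
      have h2 : (2 : ℝ) ≤ B := by exact_mod_cast hB
      have h3 : (B : ℝ) + 1 ≤ (B : ℝ) ^ 2 := by nlinarith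
      refine h3.trans (pow_le_pow_right₀ hBr ?_)
      nlinarith
    have hTK : (B : ℝ) ^ (4 * d + 1) ≤ (B : ℝ) ^ (8 * d ^ 2) := by
      refine pow_le_pow_right₀ hBr ?_
      nlinarith
    obtain ⟨u, hu0, hu, hub⟩ := hens_bd (S := ℂ) (ν := fun z : ℂ => ‖z‖) serex_subMul
      (p0 d a) (q0 d a) (d + m) m (by omega) ((serex_deg_p0 d a).trans (by omega))
      (fun l _ => (serex_deg_sum d _).trans (by omega)) (c i) μ (hroot i) hK hcK hμK
      (fun j => (taylor_le (serex_deg_p0 d a) hB (serex_co_p0 hB H.aB) (c_le H i) j).trans hTK)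
      (fun l _ j => (taylor_le (serex_deg_sum d _) hB (serex_co_q0 H.aB l) (c_le H i) j).trans
        hTK)
    rw [hμq] at hu
    refine ⟨u, hu0, hu, fun k => (hub k).trans ?_⟩
    refine mul_le_mul_of_nonneg_left ?_ (by positivity)
    exact pow_le_pow_left₀ (by positivity) (serex_rate hd hm hB) k
  choose x hx0 hx hxb using hex
  exact ⟨⟨q, hq1, hqle, hqd, x, hx0, hx, hxb⟩⟩

end Pool.Agent.H97.GA
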