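import Pool.Agent.H97.GA.NumG
import Pool.Agent.H97.GA.SerEx
import Pool.Agent.H97.AN.Fin

/-! # [GA-FING] The effective theorem for integer arrays and for polynomials -/

namespace Pool.Agent.H97.GA

open Finset Polynomial Pool.Agent.H72.ES Pool.Agent.H8.KF Pool.Agent.H8.NoPt Pool.Agent.H97.AN
  Pool.Agent.H87.SA

theorem cover_array {n : ℕ} (hn : 4 ≤ n) {d m : ℕ} {α : ℕ → ℕ → ℤ} {c : Fin d → ℂ} {B N : ℕ}
    (hd3 : 3 ≤ d) (hm1 : 1 ≤ m) (hB : 2 ≤ B) (haB : ∀ i j, |α i j| ≤ (B : ℤ))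
    (hprod : (p0 d α).map (Int.castRingHom ℂ) = ∏ i, (X - C (c i))) (hinj : Function.Injective c)
    (hN : B ^ (10 ^ 8 * n ^ 4 * d ^ 4 * (d + m) ^ 2 * d.factorial) ≤ N) (G : ℕ → ℕ → ℤ)
    (haG : G 0 n ≠ 0) (hirr : Irreducible (leadQ n G)) (γ : AdjoinRoot (leadQ n G))
    (hγ0 : fv d m α (algebraMap ℚ (AdjoinRoot (leadQ n G)) (1 / N)) γ = 0)
    (hγ3 : ∀ r : ℝ, aeval r (p0 d α) = 0 →
      3 * (minpoly ℚ r).natDegree ≤ (minpoly ℚ γ).natDegree) (H : ℕ) (hH : 2 ≤ H)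
    (hG : ∀ i j, i + j ≤ n → |G i j| ≤ (H : ℤ)) (x y : ℤ) (hz : ev n G x y = 0) :
    ((max |x| |y| : ℤ) : ℝ) ≤
      (N : ℝ) ^ (2 * 10 ^ 7 * n ^ 6 * d ^ 4 * (m + 1) ^ 2 * d.factorial ^ 2) *
      (H : ℝ) ^ (6 * 10 ^ 7 * n ^ 6 * d ^ 2 * (m + 1) * d.factorial) := by
  have hyp : GHyp d m α B N c :=
    { d3 := hd3
      m1 := hm1
      B2 := hB
      aB := haB
      prod := hprod
      inj := hinj
      big := big_ofG hn hd3 hm1 hB hN }
  obtain ⟨S⟩ := exists_serC hyp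
  set f := lead n (nrm n G) with hfdef
  have hf : Irreducible f := lead_nrm_irreducible (by omega) G haG hirr
  obtain ⟨hmf, hdf⟩ := lead_nrm_monic (n := n) G
  set a := G 0 n with hadef
  set M0 : ℕ := H ^ n with hM0
  set Q : ℕ := 2 * M0 with hQ
  have hM2 : 2 ^ n ≤ M0 := Nat.pow_le_pow_left hH n
  have hfam : Fam n Q M0 f (nrm n G) :=
    { hn := hn
      hQ := by omega
      hM := le_refl _
      irr := hf
      lead_eq := rfl
      top := by simp [nrm]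
      bound := fun i j hij => nrm_bound (by omega) G H (by omega) hG i j hij }
  have hNl := hfam.norml
  have hz' : ev n (nrm n G) x (a * y) = 0 := by
    rw [hadef, ev_nrm (by omega), hz, mul_zero]
  have hy' : |y| ≤ |a * y| := by
    rw [abs_mul]
    have : 1 ≤ |a| := Int.one_le_abs haG
    nlinarith [abs_nonneg y]
  have hmax : max |x| |y| ≤ max |x| |a * y| := max_le_max le_rfl hy'
  have hQ1 := one_le_QR hfam.hn hfam.hQ
  have hb1 := one_le_bb hfam.hn hfam.hQ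
  have hqq := q_leN hyp S
  have hN1 := one_le_NG hyp
  have hNM := N_le_M S N
  set M : ℕ := S.M N with hMdef
  have hMN : M ≤ N ^ 2 := by
    rw [hMdef, sq]
    exact Nat.mul_le_mul_right _ hqq
  have hM1 : 1 ≤ M := hN1.trans hNM
  have hM1R : (1 : ℝ) ≤ M := by exact_mod_cast hM1
  by_cases hsmall : ((max |x| |a * y| : ℤ) : ℝ) < (Q : ℝ) ^ 2 * Wg n d m M Q
  · have h2 : ((max |x| |y| : ℤ) : ℝ) ≤ ((max |x| |a * y| : ℤ) : ℝ) := by exact_mod_cast hmax
    exact (h2.trans hsmall.le).trans (fin_numG hn hd3 hH hN1 hMN)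
  · exfalso
    push Not at hsmall
    set Bb := bb n Q with hBb
    have hB0 : 0 < Bb := by linarith
    have hMd : (1 : ℝ) ≤ (M : ℝ) ^ ((kap d m + 1) * d.factorial) := one_le_pow₀ hM1R
    have hKd1 : 1 ≤ Kg d m := by
      unfold Kg
      exact Nat.mul_pos (Nat.succ_pos _) (Nat.succ_pos _)
    have hn3 : n ≤ n ^ 3 := Nat.le_self_pow (by norm_num) n
    have hG1 : (1 : ℝ) ≤ (M : ℝ) ^ ((kap d m + 1) * d.factorial) * Bb := one_le_mul_of_one_le_of_one_le hMd hb1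
    have hGB1 : (1 : ℝ) ≤ (M : ℝ) ^ ((kap d m + 1) * d.factorial) * Bb * Bb :=
      one_le_mul_of_one_le_of_one_le hG1 hb1
    have hWW1 : (1 : ℝ) ≤ (M : ℝ) ^ (10 ^ 6 * n ^ 6 * Kg d m ^ 2) := one_le_pow₀ hM1R
    have hWW2 : (1 : ℝ) ≤ ((M : ℝ) ^ ((kap d m + 1) * d.factorial) * Bb * Bb) ^ (10 ^ 6 * n ^ 3 * Kg d m) :=
      one_le_pow₀ hGB1
    have hBW : Bb ^ (n + 3) ≤ Wg n d m M Q := by
      have e1 : Bb ≤ (M : ℝ) ^ ((kap d m + 1) * d.factorial) * Bb * Bb := by nlinarith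
      have e3 : n + 3 ≤ 10 ^ 6 * n ^ 3 * Kg d m := by
        calc n + 3 ≤ 10 ^ 6 * n ^ 3 * 1 := by omega
          _ ≤ 10 ^ 6 * n ^ 3 * Kg d m := Nat.mul_le_mul_left _ hKd1
      calc Bb ^ (n + 3) ≤ Bb ^ (10 ^ 6 * n ^ 3 * Kg d m) := pow_le_pow_right₀ hb1 e3
        _ ≤ ((M : ℝ) ^ ((kap d m + 1) * d.factorial) * Bb * Bb) ^ (10 ^ 6 * n ^ 3 * Kg d m) :=
            pow_le_pow_left₀ hB0.le e1 _
        _ = ((M : ℝ) ^ ((kap d m + 1) * d.factorial) * Bb * Bb) ^ (10 ^ 6 * n ^ 3 * Kg d m) * 1 := by ring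
        _ ≤ Wg n d m M Q := by
            unfold Wg
            exact mul_le_mul_of_nonneg_left hWW1 (by positivity)
    obtain ⟨hxW, θ, hθ, hnear⟩ := far_pointB hNl hf x (a * y)
      (by rw [hz', abs_zero]; exact Int.natCast_nonneg Q) (Wg n d m M Q) hBW hsmall
    obtain ⟨hm, hdg, hco⟩ := hNl.lead_props
    -- the anchor
    have hfact : Fact (Irreducible (leadQ n G)) := ⟨hirr⟩
    have hcR : ((a : ℤ) : ℝ) ≠ 0 := by exact_mod_cast haG
    have hcz : CharZero (AdjoinRoot (leadQ n G)) := algebraRat.charZero _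
    have hroot' : eval₂ (algebraMap ℚ ℝ) (θ / ((a : ℤ) : ℝ)) (leadQ n G) = 0 := by
      have h1 := eval_nrm (n := n) (by omega) G (algebraMap ℤ ℝ) (algebraMap ℚ ℝ)
        (θ / ((a : ℤ) : ℝ))
      have h2 : ((G 0 n : ℤ) : ℝ) * (θ / ((a : ℤ) : ℝ)) = θ := by
        rw [← hadef]
        field_simp
      rw [aeval_def] at hθ
      rw [h2, hθ] at h1
      exact (mul_eq_zero.1 h1.symm).resolve_left (pow_ne_zero _ hcR)
    let ψ : AdjoinRoot (leadQ n G) →ₐ[ℚ] ℝ :=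
      AdjoinRoot.liftAlgHom (leadQ n G) (Algebra.ofId ℚ ℝ) (θ / ((a : ℤ) : ℝ)) hroot'
    have hψroot : ψ (AdjoinRoot.root (leadQ n G)) = θ / ((a : ℤ) : ℝ) :=
      AdjoinRoot.liftAlgHom_root _ _ _ _
    have hξ0 : fv d m α (1 / (N : ℝ)) (ψ γ) = 0 := by
      have h1 := congrArg ψ hγ0
      unfold fv at h1 ⊢
      rw [map_zero] at h1
      rw [← h1]
      simp only [map_add, map_pow, map_sum, map_mul, map_intCast, AlgHom.commutes]
      simp
    have hξ3 : ∀ r : ℝ, aeval r (p0 d α) = 0 →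
        3 * (minpoly ℚ r).natDegree ≤ (minpoly ℚ (ψ γ)).natDegree := by
      intro r hr
      rw [minpoly.algHom_eq ψ ψ.toRingHom.injective γ]
      exact hγ3 r hr
    have hξ1 : ψ γ ∈ IntermediateField.adjoin ℚ {θ} := by
      obtain ⟨P, rfl⟩ := AdjoinRoot.mk_surjective γ
      have h1 : ψ (AdjoinRoot.mk (leadQ n G) P) = aeval (θ / ((a : ℤ) : ℝ)) P := by
        rw [← AdjoinRoot.aeval_eq, ← hψroot]
        exact (Polynomial.aeval_algHom_apply ψ (AdjoinRoot.root (leadQ n G)) P).symm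
      rw [h1]
      have h2 : θ / ((a : ℤ) : ℝ) ∈ IntermediateField.adjoin ℚ {θ} := by
        refine div_mem (IntermediateField.mem_adjoin_simple_self ℚ θ) ?_
        exact intCast_mem _ _
      have h3 := (aeval (⟨_, h2⟩ : IntermediateField.adjoin ℚ {θ}) P).2
      have h4 : ((aeval (⟨_, h2⟩ : IntermediateField.adjoin ℚ {θ}) P : _) : ℝ) =
          aeval (θ / ((a : ℤ) : ℝ)) P := by
        have := (Polynomial.aeval_algHom_apply (IntermediateField.adjoin ℚ {θ}).val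
          (⟨_, h2⟩ : IntermediateField.adjoin ℚ {θ}) P).symm
        simpa using this
      rw [h4] at h3
      exact h3
    obtain ⟨O, D, m', hD1, hDd, h3m, ⟨an⟩⟩ := exists_anchG hn hNl.hQ hm hdg hco hf θ hθ hyp
      (big_of' hn hd3 hm1 hB hN) S (ψ γ) hξ0 hξ1 hξ3
    have hR2 : (2 : ℝ) ≤ RR d m B := by
      have e1 : (2 : ℝ) ≤ B := by exact_mod_cast hB
      unfold RR
      exact e1.trans (le_self_pow₀ (by linarith) (by positivity))
    have hKK := KK_leG (m := m) hDd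
    have hκ1 : 1 ≤ kap d m := by
      unfold kap
      exact Nat.mul_pos (by positivity) (by omega)
    refine core_point hf O hNl h3m hD1 hκ1 hR2 hG1 an
      (hRM_ofG hn hd3 hm1 hB hDd hN hNM) x (a * y) hz' hnear ?_ ?_
    · refine le_trans ?_ hxW
      calc (M : ℝ) ^ (10 ^ 6 * n ^ 6 * KK D (kap d m) ^ 2) ≤
            (M : ℝ) ^ (10 ^ 6 * n ^ 6 * Kg d m ^ 2) := pow_le_pow_right₀ hM1R (by gcongr)
        _ = 1 * (M : ℝ) ^ (10 ^ 6 * n ^ 6 * Kg d m ^ 2) := by ring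
        _ ≤ Wg n d m M Q := by
            unfold Wg
            exact mul_le_mul_of_nonneg_right hWW2 (by positivity)
    · refine le_trans ?_ hxW
      calc ((M : ℝ) ^ ((kap d m + 1) * d.factorial) * Bb * bb n Q) ^ (10 ^ 6 * n ^ 3 * KK D (kap d m)) ≤
            ((M : ℝ) ^ ((kap d m + 1) * d.factorial) * Bb * Bb) ^ (10 ^ 6 * n ^ 3 * Kg d m) :=
            pow_le_pow_right₀ hGB1 (by gcongr)
        _ = ((M : ℝ) ^ ((kap d m + 1) * d.factorial) * Bb * Bb) ^ (10 ^ 6 * n ^ 3 * Kg d m) * 1 := by ring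
        _ ≤ Wg n d m M Q := by
            unfold Wg
            exact mul_le_mul_of_nonneg_left hWW1 (by positivity)

end Pool.Agent.H97.GA
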