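import Pool.Agent.H97.GA.FinG

/-! # [GA-FINP] The effective theorem for polynomials -/

namespace Pool.Agent.H97.GA

open Finset Polynomial Pool.Agent.H72.ES Pool.Agent.H8.KF Pool.Agent.H8.NoPt Pool.Agent.H97.AN
  Pool.Agent.H87.SA

/-- the coefficient array of `f ∈ ℤ[t][X]` -/
noncomputable def arr (f : ℤ[X][X]) (i j : ℕ) : ℤ := (f.coeff j).coeff i

theorem monic_sum {R : Type*} [CommRing R] {f : R[X]} {d : ℕ} (hf : f.Monic)
    (hd : f.natDegree = d) : f = X ^ d + ∑ j ∈ range d, C (f.coeff j) * X ^ j := by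
  have h1 := f.as_sum_range_C_mul_X_pow
  rw [hd, sum_range_succ] at h1
  have h2 : f.coeff d = 1 := by rw [← hd]; exact hf
  rw [h2, map_one, one_mul, add_comm] at h1
  exact h1

theorem p0_arr {f : ℤ[X][X]} {d : ℕ} (hf : f.Monic) (hd : f.natDegree = d) :
    f.map (evalRingHom (0 : ℤ)) = p0 d (arr f) := by
  conv_lhs => rw [monic_sum hf hd]
  unfold p0
  simp only [Polynomial.map_add, Polynomial.map_pow, Polynomial.map_X, Polynomial.map_sum,
    Polynomial.map_mul, Polynomial.map_C, coe_evalRingHom]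
  congr 1
  refine sum_congr rfl fun j _ => ?_
  rw [← coeff_zero_eq_eval_zero]
  rfl

theorem fv_arr {f : ℤ[X][X]} {d m : ℕ} (hf : f.Monic) (hd : f.natDegree = d)
    (hm : ∀ j, (f.coeff j).natDegree ≤ m) {K : Type*} [CommRing K] [Algebra ℚ K] (t : ℚ) (γ : K) :
    aeval γ (f.map (eval₂RingHom (Int.castRingHom ℚ) t)) =
      fv d m (arr f) (algebraMap ℚ K t) γ := by
  conv_lhs => rw [monic_sum hf hd]
  unfold fv
  simp only [Polynomial.map_add, Polynomial.map_pow, Polynomial.map_X, Polynomial.map_sum,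
    Polynomial.map_mul, Polynomial.map_C, map_add, map_pow, aeval_X, map_sum, map_mul, aeval_C]
  congr 1
  rw [sum_comm]
  refine sum_congr rfl fun j _ => ?_
  rw [← sum_mul]
  congr 1
  rw [coe_eval₂RingHom, eval₂_eq_sum_range' _ (Nat.lt_succ_of_le (hm j)), map_sum]
  refine sum_congr rfl fun i _ => ?_
  unfold arr
  simp

theorem exists_roots {d : ℕ} {p : ℤ[X]} (hp : p.Monic) (hd : p.natDegree = d)
    (hs : (p.map (Int.castRingHom ℚ)).Separable) :
    ∃ c : Fin d → ℂ, Function.Injective c ∧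
      p.map (Int.castRingHom ℂ) = ∏ i, (X - C (c i)) := by
  have hpC : p.map (Int.castRingHom ℂ) = (p.map (Int.castRingHom ℚ)).map (algebraMap ℚ ℂ) := by
    rw [Polynomial.map_map]
    congr 1
  have hsC : (p.map (Int.castRingHom ℂ)).Separable := by
    rw [hpC]
    exact hs.map
  have hmC : (p.map (Int.castRingHom ℂ)).Monic := hp.map _
  have hdC : (p.map (Int.castRingHom ℂ)).natDegree = d := by rw [hp.natDegree_map, hd]
  have hspl : (p.map (Int.castRingHom ℂ)).Splits := IsAlgClosed.splits _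
  have hcard : (p.map (Int.castRingHom ℂ)).roots.card = d := by
    rw [← hdC]
    exact (splits_iff_card_roots.1 hspl)
  have hnd : (p.map (Int.castRingHom ℂ)).roots.Nodup := nodup_roots hsC
  have hprod := (prod_multiset_X_sub_C_of_monic_of_roots_card_eq hmC (by rw [hcard, hdC]))
  obtain ⟨l, hl⟩ : ∃ l : List ℂ, (l : Multiset ℂ) = (p.map (Int.castRingHom ℂ)).roots :=
    ⟨_, Multiset.coe_toList _⟩
  have hlen : l.length = d := by
    rw [← hcard, ← hl]
    rfl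
  have hln : l.Nodup := by
    rw [← Multiset.coe_nodup, hl]
    exact hnd
  subst hlen
  refine ⟨fun i => l.get i, List.nodup_iff_injective_get.1 hln, ?_⟩
  rw [← hprod, ← hl, Multiset.map_coe, Multiset.prod_coe]
  rw [← List.prod_ofFn]
  congr 1
  rw [List.ofFn_eq_map]
  apply List.ext_get
  · simp
  · intro n h1 h2
    simp

/-- **Effective Siegel theorem for curves whose root field contains a fibre field of a covering
of the line.** -/
theorem cover_poly {n d m : ℕ} (hn : 4 ≤ n) (hd3 : 3 ≤ d) (hm1 : 1 ≤ m) {f : ℤ[X][X]}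
    (hf : f.Monic) (hd : f.natDegree = d) (hm : ∀ j, (f.coeff j).natDegree ≤ m) {B N : ℕ}
    (hB : 2 ≤ B) (hfB : ∀ i j, |(f.coeff j).coeff i| ≤ (B : ℤ))
    (hsep : ((f.map (evalRingHom (0 : ℤ))).map (Int.castRingHom ℚ)).Separable)
    (hN : B ^ (10 ^ 8 * n ^ 4 * d ^ 4 * (d + m) ^ 2 * d.factorial) ≤ N)
    (F : MvPolynomial (Fin 2) ℤ) (hFdeg : F.totalDegree ≤ n)
    (hirr : Irreducible (MvPolynomial.map (Int.castRingHom ℚ)
        (MvPolynomial.homogeneousComponent n F)))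
    (hroot : ∃ γ : AdjoinRoot (MvPolynomial.aeval ![(1 : ℚ[X]), X]
        (MvPolynomial.homogeneousComponent n F)),
      aeval γ (f.map (eval₂RingHom (Int.castRingHom ℚ) (1 / N))) = 0 ∧
      ∀ c : ℝ, aeval c (f.map (evalRingHom (0 : ℤ))) = 0 →
        3 * (minpoly ℚ c).natDegree ≤ (minpoly ℚ γ).natDegree)
    (x y : ℤ) (hz : MvPolynomial.eval ![x, y] F = 0) :
    max |x| |y| ≤ (N : ℤ) ^ (10 ^ 8 * n ^ 6 * d ^ 4 * (m + 1) ^ 2 * d.factorial ^ 2) *
      ((F.support.sup fun m => (F.coeff m).natAbs : ℕ) : ℤ) ^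
        (10 ^ 8 * n ^ 6 * d ^ 2 * (m + 1) * d.factorial) := by
  have hbd := coeff_le_sup F
  set H := F.support.sup fun m => (F.coeff m).natAbs with hH
  rw [aeval_lead] at hroot
  obtain ⟨γ, hγ0, hγ3⟩ := hroot
  obtain ⟨hG0, hirr'⟩ := leadQ_of_irreducible (by omega) hirr
  have hz' : ev n (arrM F) x y = 0 := by rw [← eval_arrM hFdeg]; exact hz
  have hp0 := p0_arr hf hd
  have hp0m : (f.map (evalRingHom (0 : ℤ))).Monic := hf.map _
  have hp0d : (f.map (evalRingHom (0 : ℤ))).natDegree = d := by rw [hf.natDegree_map, hd]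
  obtain ⟨c, hc, hcp⟩ := exists_roots hp0m hp0d hsep
  rw [hp0] at hcp hγ3
  have hγ0' : fv d m (arr f) (algebraMap ℚ (AdjoinRoot (leadQ n (arrM F))) (1 / N)) γ = 0 := by
    rw [← fv_arr hf hd hm]
    exact hγ0
  have hH1 : 1 ≤ H := by
    by_contra hc
    have h0 : H = 0 := by omega
    have h1 := hbd (ex 0 n)
    rw [h0] at h1
    apply hG0
    have h2 : F.coeff (ex 0 n) = 0 := by
      have h3 := abs_nonneg (F.coeff (ex 0 n))
      have h4 : |F.coeff (ex 0 n)| ≤ 0 := by simpa using h1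
      exact abs_eq_zero.1 (le_antisymm h4 h3)
    exact h2
  have hmain := cover_array hn hd3 hm1 hB (fun i j => hfB i j) hcp hc hN (arrM F) hG0 hirr' γ hγ0'
    hγ3 (max 2 H)
    (le_max_left _ _) (fun i j _ => (hbd _).trans (by exact_mod_cast le_max_right 2 H)) x y hz'
  have hHR : (1 : ℝ) ≤ H := by exact_mod_cast hH1
  have hN1 : 1 ≤ N := (Nat.one_le_pow _ _ (by omega)).trans hN
  have hNR : (1 : ℝ) ≤ N := by exact_mod_cast hN1
  have hBR : (2 : ℝ) ≤ B := by exact_mod_cast hB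
  have hNRR : (2 : ℝ) ^ (10 ^ 8 * n ^ 4 * d ^ 4 * (d + m) ^ 2 * d.factorial) ≤ N := by
    have e1 : (B : ℝ) ^ (10 ^ 8 * n ^ 4 * d ^ 4 * (d + m) ^ 2 * d.factorial) ≤ N := by
      exact_mod_cast hN
    exact (pow_le_pow_left₀ (by norm_num) hBR _).trans e1
  have hfin : ((max |x| |y| : ℤ) : ℝ) ≤
      (N : ℝ) ^ (10 ^ 8 * n ^ 6 * d ^ 4 * (m + 1) ^ 2 * d.factorial ^ 2) *
        (H : ℝ) ^ (10 ^ 8 * n ^ 6 * d ^ 2 * (m + 1) * d.factorial) := by
    refine hmain.trans ?_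
    set t := d.factorial with ht
    have ht1 : 1 ≤ t := Nat.factorial_pos d
    have e1 : (((max 2 H : ℕ) : ℝ)) ≤ 2 * H := by
      push_cast
      exact max_le (by linarith) (by linarith)
    have e2 : (((max 2 H : ℕ) : ℝ)) ^ (6 * 10 ^ 7 * n ^ 6 * d ^ 2 * (m + 1) * t) ≤
        (N : ℝ) ^ (n ^ 2) * (H : ℝ) ^ (6 * 10 ^ 7 * n ^ 6 * d ^ 2 * (m + 1) * t) := by
      refine (pow_le_pow_left₀ (Nat.cast_nonneg _) e1 _).trans ?_
      rw [mul_pow]
      refine mul_le_mul_of_nonneg_right ?_ (by positivity)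
      calc (2 : ℝ) ^ (6 * 10 ^ 7 * n ^ 6 * d ^ 2 * (m + 1) * t) ≤
            (2 : ℝ) ^ (10 ^ 8 * n ^ 4 * d ^ 4 * (d + m) ^ 2 * t * n ^ 2) := by
            refine pow_le_pow_right₀ (by norm_num) ?_
            have h1 : m + 1 ≤ (d + m) ^ 2 := by
              calc m + 1 ≤ d + m := by omega
                _ ≤ (d + m) ^ 2 := Nat.le_self_pow (by norm_num) _
            have h2 : d ^ 2 ≤ d ^ 4 := Nat.pow_le_pow_right (by omega) (by norm_num)
            calc 6 * 10 ^ 7 * n ^ 6 * d ^ 2 * (m + 1) * t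
                ≤ 10 ^ 8 * n ^ 6 * d ^ 4 * (d + m) ^ 2 * t := by
                  gcongr
                  norm_num
              _ = 10 ^ 8 * n ^ 4 * d ^ 4 * (d + m) ^ 2 * t * n ^ 2 := by ring
        _ = ((2 : ℝ) ^ (10 ^ 8 * n ^ 4 * d ^ 4 * (d + m) ^ 2 * t)) ^ (n ^ 2) := by rw [pow_mul]
        _ ≤ (N : ℝ) ^ (n ^ 2) := pow_le_pow_left₀ (by positivity) hNRR _
    calc (N : ℝ) ^ (2 * 10 ^ 7 * n ^ 6 * d ^ 4 * (m + 1) ^ 2 * t ^ 2) *
          (((max 2 H : ℕ) : ℝ)) ^ (6 * 10 ^ 7 * n ^ 6 * d ^ 2 * (m + 1) * t)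
        ≤ (N : ℝ) ^ (2 * 10 ^ 7 * n ^ 6 * d ^ 4 * (m + 1) ^ 2 * t ^ 2) * ((N : ℝ) ^ (n ^ 2) *
          (H : ℝ) ^ (6 * 10 ^ 7 * n ^ 6 * d ^ 2 * (m + 1) * t)) := by gcongr
      _ = (N : ℝ) ^ (2 * 10 ^ 7 * n ^ 6 * d ^ 4 * (m + 1) ^ 2 * t ^ 2 + n ^ 2) *
          (H : ℝ) ^ (6 * 10 ^ 7 * n ^ 6 * d ^ 2 * (m + 1) * t) := by
          rw [pow_add]; ring
      _ ≤ (N : ℝ) ^ (10 ^ 8 * n ^ 6 * d ^ 4 * (m + 1) ^ 2 * t ^ 2) *
          (H : ℝ) ^ (10 ^ 8 * n ^ 6 * d ^ 2 * (m + 1) * t) := by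
          refine mul_le_mul (pow_le_pow_right₀ hNR ?_) (pow_le_pow_right₀ hHR ?_)
            (by positivity) (by positivity)
          · have k1 : n ^ 2 ≤ n ^ 6 * (d ^ 4 * (m + 1) ^ 2 * t ^ 2) := by
              calc n ^ 2 ≤ n ^ 6 := Nat.pow_le_pow_right (by omega) (by norm_num)
                _ = n ^ 6 * 1 := (mul_one _).symm
                _ ≤ n ^ 6 * (d ^ 4 * (m + 1) ^ 2 * t ^ 2) := by
                    refine Nat.mul_le_mul_left _ ?_
                    exact Nat.mul_pos (Nat.mul_pos (by positivity) (by positivity)) (by positivity)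
            calc 2 * 10 ^ 7 * n ^ 6 * d ^ 4 * (m + 1) ^ 2 * t ^ 2 + n ^ 2
                ≤ 2 * 10 ^ 7 * n ^ 6 * d ^ 4 * (m + 1) ^ 2 * t ^ 2 +
                  n ^ 6 * (d ^ 4 * (m + 1) ^ 2 * t ^ 2) := by omega
              _ = 20000001 * (n ^ 6 * (d ^ 4 * (m + 1) ^ 2 * t ^ 2)) := by ring
              _ ≤ 100000000 * (n ^ 6 * (d ^ 4 * (m + 1) ^ 2 * t ^ 2)) :=
                  Nat.mul_le_mul_right _ (by norm_num)
              _ = 10 ^ 8 * n ^ 6 * d ^ 4 * (m + 1) ^ 2 * t ^ 2 := by ring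
          · gcongr
            norm_num
  exact_mod_cast hfin

end Pool.Agent.H97.GA
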