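import Pool.Agent.H97.GA.Defs

/-! # [GA-GAL] Membership in a subfield by embeddings

`gal_mem`: let `L = adjoin ℚ s`, `ℂ` an `L`-algebra through `ι0`. `minpoly L y` is separable and splits in
`ℂ`; if `y ∉ L` it has degree `≥ 2`, so a root `y' ≠ ι0 y` in `ℂ`, and there is an `L`-algebra
homomorphism `σ : Ω → ℂ` with `σ y = y'` (`IntermediateField.exists_algHom_of_splits_of_aeval`, or lift
`L⟮y⟯ → ℂ` by `IsAlgClosed.lift`), a contradiction. (Or: apply
`Field.primitive_element_iff_algHom_eq_of_eval` in a suitable form, or Galois theory.)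
`real_mem`: `Complex.ofRealHom` as a `ℚ`-algebra homomorphism `f : ℝ → ℂ`
(`RingHom.toRatAlgHom`); `(adjoin ℚ {z, c}).map f = adjoin ℚ (f '' {z, c})`
(`IntermediateField.adjoin_map`), and `f` is injective. Likewise `ι0` maps
`adjoin ℚ {z, c} ⊆ Ω` onto `adjoin ℚ {ι0 z, ι0 c} ⊆ ℂ`. -/

namespace Pool.Agent.H97.GA

open Finset Polynomial NumberField Pool.Agent.H87.SA

theorem gal_mem {Ω : Type} [Field Ω] [NumberField Ω] (ι0 : Ω →+* ℂ) (s : Set Ω) (y : Ω)
    (h : ∀ σ : Ω →+* ℂ, (∀ x ∈ s, σ x = ι0 x) → σ y = ι0 y) :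
    y ∈ IntermediateField.adjoin ℚ s := by
  classical
  set L := IntermediateField.adjoin ℚ s with hL
  letI algLC : Algebra L ℂ := (ι0.comp (algebraMap L Ω)).toAlgebra
  have hint : IsIntegral L y := by
    have : IsIntegral ℚ y := Algebra.IsIntegral.isIntegral y
    exact this.tower_top
  have hintall : ∀ z : Ω, IsIntegral L z := fun z => by
    have : IsIntegral ℚ z := Algebra.IsIntegral.isIntegral z
    exact this.tower_top
  -- each root of the minimal polynomial equals `ι0 y`
  have hroot : ∀ y' : ℂ, aeval y' (minpoly L y) = 0 → y' = ι0 y := by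
    intro y' hy'
    obtain ⟨φ, hφ⟩ := IntermediateField.exists_algHom_of_splits_of_aeval (F := L) (E := Ω) (K := ℂ)
      (fun z => ⟨hintall z, IsAlgClosed.splits _⟩) hy'
    have h1 : ∀ x ∈ s, (φ : Ω →+* ℂ) x = ι0 x := by
      intro x hx
      have hxL : x ∈ L := IntermediateField.subset_adjoin ℚ s hx
      have := φ.commutes ⟨x, hxL⟩
      exact this
    have h2 := h (φ : Ω →+* ℂ) h1
    rw [← hφ]
    exact h2
  by_contra hy
  have hsep : ((minpoly L y).map (algebraMap L ℂ)).Separable :=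
    (Irreducible.separable (minpoly.irreducible hint)).map
  have hcard : ((minpoly L y).map (algebraMap L ℂ)).roots.card = (minpoly L y).natDegree := by
    rw [(IsAlgClosed.splits ((minpoly L y).map (algebraMap L ℂ))).natDegree_eq_card_roots.symm,
      natDegree_map]
  have hnd : ((minpoly L y).map (algebraMap L ℂ)).roots.Nodup := nodup_roots hsep
  have hne : (minpoly L y).map (algebraMap L ℂ) ≠ 0 := (hsep.ne_zero)
  have hsub : ((minpoly L y).map (algebraMap L ℂ)).roots.toFinset ⊆ {ι0 y} := by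
    intro y' hy'
    rw [Multiset.mem_toFinset, mem_roots hne, IsRoot.def, eval_map_algebraMap] at hy'
    rw [Finset.mem_singleton]
    exact hroot y' hy'
  have hle : (minpoly L y).natDegree ≤ 1 := by
    rw [← hcard, ← Multiset.toFinset_card_of_nodup hnd]
    exact (Finset.card_le_card hsub).trans (by simp)
  have hpos : 0 < (minpoly L y).natDegree := minpoly.natDegree_pos hint
  have h1 : (minpoly L y).natDegree = 1 := le_antisymm hle hpos
  obtain ⟨w, hw⟩ := minpoly.natDegree_eq_one_iff.mp h1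
  apply hy
  rw [← hw]
  exact w.2

theorem real_mem {Ω : Type} [Field Ω] [NumberField Ω] (ι0 : Ω →+* ℂ) (y z c : Ω) (y' z' c' : ℝ)
    (hy : ι0 y = y') (hz : ι0 z = z') (hc : ι0 c = c')
    (h : y ∈ IntermediateField.adjoin ℚ {z, c}) : y' ∈ IntermediateField.adjoin ℚ {z', c'} := by
  classical
  let f : ℝ →ₐ[ℚ] ℂ := Complex.ofRealHom.toRatAlgHom
  let g : Ω →ₐ[ℚ] ℂ := ι0.toRatAlgHom
  have hf : ∀ x : ℝ, f x = (x : ℂ) := fun x => rfl
  have hg : ∀ x : Ω, g x = ι0 x := fun x => rfl
  have h1 : (IntermediateField.adjoin ℚ ({z, c} : Set Ω)).map g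
      = (IntermediateField.adjoin ℚ ({z', c'} : Set ℝ)).map f := by
    rw [IntermediateField.adjoin_map, IntermediateField.adjoin_map, Set.image_pair, Set.image_pair,
      hf, hf, hg, hg, hz, hc]
  have h2 : g y ∈ (IntermediateField.adjoin ℚ ({z, c} : Set Ω)).map g :=
    ⟨y, h, rfl⟩
  rw [h1] at h2
  obtain ⟨x, hx, hxy⟩ := h2
  have h3 : x = y' := by
    have : (x : ℂ) = (y' : ℂ) := by
      rw [← hy, ← hg y, ← hxy]
      rfl
    exact_mod_cast this
  rw [← h3]
  exact hx

end Pool.Agent.H97.GA
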