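import Pool.Agent.H97.GA.Defs
import Pool.Agent.H87.SA.SerB
import Pool.Agent.H87.SA.Hens
import Pool.Agent.H97.GA.Hens

/-! # [GA-HENSB] Scaled Hensel series with bounds

As `[GA-HENS]` (`Pool/Agent/H97/GA/Hens.lean`; see `Pool.Agent.H87.SA.hens_exists`,
`Pool/Agent/H87/SA/Hens.lean`, for the case `m = 1`), but with
`Pool.Agent.H87.SA.exists_series_bd` (`Pool/Agent/H87/SA/SerB.lean`, proved) instead of `exists_series`.
`δ = ei p' y = a_1`, so `ν δ ≤ K`. `c 0 j = - a_j δ^(j-2)` (`2 ≤ j ≤ n`): `ν ≤ K * K^(n-2)`.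
`c (l+1) j = - μ^(l+1) δ^(2 l) b_(l,j) δ^j` (`l < m ≤ n`, `j ≤ n`): `ν ≤ K^n K^(2 n) K K^n = K^(4 n + 1)`.
With `b = (n+1)^2 K^(4n+1)`: `ν (coeff k w) b ≤ (b²)^k`, and `coeff k u = δ coeff k w` for `k ≥ 1`:
`ν (coeff k u) ≤ K (b²)^k / b ≤ K (b²)^k`; for `k = 0`: `ν y ≤ K`. -/

namespace Pool.Agent.H97.GA

open Finset Polynomial Pool.Agent.H72.ES Pool.Agent.H87.SA

theorem hensb_pow {S : Type} [CommRing S] {ν : S → ℝ} (hν : SubMul ν) {K : ℝ} (hK : 1 ≤ K)
    {x : S} (hx : ν x ≤ K) (k : ℕ) : ν (x ^ k) ≤ K ^ k := by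
  induction k with
  | zero =>
    rw [pow_zero, pow_zero]
    exact hν.one
  | succ k ih =>
    rw [pow_succ, pow_succ]
    exact (hν.mul _ _).trans (mul_le_mul ih hx (hν.nonneg _) (by positivity))

theorem hens_bd {S : Type} [CommRing S] {ν : S → ℝ} (hν : SubMul ν) (p : ℤ[X]) (Q : ℕ → ℤ[X])
    (n m : ℕ) (hm : m ≤ n) (hp : p.natDegree ≤ n) (hQ : ∀ l < m, (Q l).natDegree ≤ n) (y μ : S)
    (hy : ei p y = 0) {K : ℝ} (hK : 1 ≤ K) (hyK : ν y ≤ K) (hμ : ν μ ≤ K)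
    (h1 : ∀ j, ν ((taylor y (p.map (Int.castRingHom S))).coeff j) ≤ K)
    (h2 : ∀ l < m, ∀ j, ν ((taylor y ((Q l).map (Int.castRingHom S))).coeff j) ≤ K) :
    ∃ u : PowerSeries S, PowerSeries.constantCoeff u = y ∧
      pe p Q m (μ * ei (derivative p) y ^ 2) u = 0 ∧
      ∀ k, ν (PowerSeries.coeff k u) ≤ K * ((((n : ℝ) + 1) ^ 2 * K ^ (4 * n + 1)) ^ 2) ^ k := by
  have hK0 : 0 < K := by linarith
  obtain ⟨δ, hδ⟩ : ∃ δ : S, δ = ei (derivative p) y := ⟨_, rfl⟩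
  rw [← hδ]
  have hδK : ν δ ≤ K := by
    have h := h1 1
    rw [taylor_coeff_one, derivative_map, eval_map] at h
    rw [hδ]
    exact h
  have hC1 : 1 ≤ K ^ (4 * n + 1) := one_le_pow₀ hK
  have hcb : ∀ i j, i ≤ n → j ≤ n → ν (hensC p Q m y μ δ i j) ≤ K ^ (4 * n + 1) := by
    intro i j hi hj
    unfold hensC
    split_ifs with hi0 hj2 him
    · rw [hν.neg]
      calc ν ((taylor y (p.map (Int.castRingHom S))).coeff j * δ ^ (j - 2))
          ≤ ν ((taylor y (p.map (Int.castRingHom S))).coeff j) * ν (δ ^ (j - 2)) := hν.mul _ _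
        _ ≤ K * K ^ (j - 2) := mul_le_mul (h1 j) (hensb_pow hν hK hδK _) (hν.nonneg _) hK0.le
        _ = K ^ (j - 2 + 1) := by rw [pow_succ]; ring
        _ ≤ _ := pow_le_pow_right₀ hK (by omega)
    · rw [hν.zero]
      positivity
    · rw [hν.neg]
      calc ν (μ ^ i * δ ^ (2 * (i - 1)) *
            (taylor y ((Q (i - 1)).map (Int.castRingHom S))).coeff j * δ ^ j)
          ≤ ν (μ ^ i) * ν (δ ^ (2 * (i - 1))) *
            ν ((taylor y ((Q (i - 1)).map (Int.castRingHom S))).coeff j) * ν (δ ^ j) := by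
            refine (hν.mul _ _).trans (mul_le_mul_of_nonneg_right ?_ (hν.nonneg _))
            refine (hν.mul _ _).trans (mul_le_mul_of_nonneg_right ?_ (hν.nonneg _))
            exact hν.mul _ _
        _ ≤ K ^ i * K ^ (2 * (i - 1)) * K * K ^ j := by
            refine mul_le_mul ?_ (hensb_pow hν hK hδK _) (hν.nonneg _) (by positivity)
            refine mul_le_mul ?_ (h2 _ him j) (hν.nonneg _) (by positivity)
            exact mul_le_mul (hensb_pow hν hK hμ _) (hensb_pow hν hK hδK _) (hν.nonneg _)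
              (by positivity)
        _ = K ^ (i + 2 * (i - 1) + 1 + j) := by
            rw [pow_add, pow_add, pow_add, pow_one]
        _ ≤ _ := pow_le_pow_right₀ hK (by omega)
    · rw [hν.zero]
      positivity
  obtain ⟨w, hw0, hw, hwb⟩ := exists_series_bd hν n (hensC p Q m y μ δ) (by simp [hensC])
    (by simp [hensC]) hC1 hcb
  refine ⟨PowerSeries.C y + PowerSeries.C δ * w, by simp [hw0],
    hens_core p Q n m hm hp hQ y μ δ hy hδ w hw, ?_⟩
  intro k
  obtain ⟨b, hb⟩ : ∃ b : ℝ, b = ((n : ℝ) + 1) ^ 2 * K ^ (4 * n + 1) := ⟨_, rfl⟩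
  have hwk := hwb k
  rw [← hb] at hwk ⊢
  have hb1 : 1 ≤ b := by
    rw [hb]
    have hn0 : (0 : ℝ) ≤ n := Nat.cast_nonneg n
    exact one_le_mul_of_one_le_of_one_le (one_le_pow₀ (by linarith)) hC1
  rcases Nat.eq_zero_or_pos k with rfl | hk
  · rw [pow_zero, mul_one]
    have : PowerSeries.coeff 0 (PowerSeries.C y + PowerSeries.C δ * w) = y := by
      rw [PowerSeries.coeff_zero_eq_constantCoeff_apply]
      simp [hw0]
    rw [this]
    exact hyK
  · have : PowerSeries.coeff k (PowerSeries.C y + PowerSeries.C δ * w) =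
        δ * PowerSeries.coeff k w := by
      rw [map_add, PowerSeries.coeff_C, if_neg (by omega), zero_add, PowerSeries.coeff_C_mul]
    rw [this]
    refine (hν.mul _ _).trans (mul_le_mul hδK ?_ (hν.nonneg _) hK0.le)
    have h3 : ν (PowerSeries.coeff k w) * 1 ≤ ν (PowerSeries.coeff k w) * b :=
      mul_le_mul_of_nonneg_left hb1 (hν.nonneg _)
    linarith

end Pool.Agent.H97.GA
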