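import Pool.Agent.H97.GA.AnchG
import Pool.Agent.H87.SA.Core

/-! # [GA-NUMG] Final numerical estimates -/

namespace Pool.Agent.H97.GA

open Finset Polynomial Pool.Agent.H72.ES Pool.Agent.H87.SA

variable {d m : ℕ} {a : ℕ → ℕ → ℤ} {B N : ℕ} {c : Fin d → ℂ}

/-- bound for `KK` -/
def Kg (d m : ℕ) : ℕ := (d.factorial + 1) * (kap d m + 1)

theorem six_le_fac' {d : ℕ} (hd : 3 ≤ d) : 6 ≤ d.factorial := by
  calc 6 = Nat.factorial 3 := rfl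
    _ ≤ d.factorial := Nat.factorial_le hd

theorem Kg_le {d m : ℕ} (hd : 3 ≤ d) : Kg d m ≤ 3 * d ^ 2 * (m + 1) * d.factorial := by
  have h6 := six_le_fac' hd
  have h9 : 9 ≤ d ^ 2 * (m + 1) := by
    have : 9 ≤ d ^ 2 := by nlinarith
    nlinarith
  unfold Kg kap
  have e1 : 2 * d ^ 2 * (m + 1) = 2 * (d ^ 2 * (m + 1)) := by ring
  have e2 : 3 * d ^ 2 * (m + 1) = 3 * (d ^ 2 * (m + 1)) := by ring
  rw [e1, e2]
  generalize d.factorial = t at *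
  generalize d ^ 2 * (m + 1) = s at *
  nlinarith

theorem kap_le {d m : ℕ} (hd : 3 ≤ d) : kap d m + 1 ≤ 3 * d ^ 2 * (m + 1) := by
  have h9 : 1 ≤ d ^ 2 * (m + 1) := Nat.mul_pos (by positivity) (by omega)
  unfold kap
  have e1 : 2 * d ^ 2 * (m + 1) = 2 * (d ^ 2 * (m + 1)) := by ring
  have e2 : 3 * d ^ 2 * (m + 1) = 3 * (d ^ 2 * (m + 1)) := by ring
  rw [e1, e2]
  omega

theorem KK_leG {d m D : ℕ} (hD : D ≤ d.factorial) : KK D (kap d m) ≤ Kg d m := by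
  unfold KK Kg
  exact Nat.mul_le_mul (by omega) le_rfl

theorem q_leN (H : GHyp d m a B N c) (S : SerC d m a B c) : S.q ≤ N := by
  have hd := H.d3
  have hm := H.m1
  refine S.qle.trans (le_trans (Nat.pow_le_pow_right (by have := H.B2; omega) ?_) H.big)
  calc 6 * d ^ 2 = 6 * d ^ 2 * 1 := (mul_one _).symm
    _ ≤ 200 * d ^ 2 * (d + m) := Nat.mul_le_mul (Nat.mul_le_mul_right _ (by norm_num)) (by omega)

theorem big_ofG {n d m B N : ℕ} (hn : 4 ≤ n) (hd : 3 ≤ d) (hm : 1 ≤ m) (hB : 2 ≤ B)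
    (hN : B ^ (10 ^ 8 * n ^ 4 * d ^ 4 * (d + m) ^ 2 * d.factorial) ≤ N) :
    B ^ (200 * d ^ 2 * (d + m)) ≤ N := by
  refine le_trans (Nat.pow_le_pow_right (by omega) ?_) hN
  have h6 := six_le_fac' hd
  have h1 : 1 ≤ n ^ 4 := Nat.one_le_pow _ _ (by omega)
  have h2 : d ^ 2 ≤ d ^ 4 := Nat.pow_le_pow_right (by omega) (by norm_num)
  have h3 : d + m ≤ (d + m) ^ 2 := Nat.le_self_pow (by norm_num) _
  calc 200 * d ^ 2 * (d + m) = 200 * 1 * d ^ 2 * (d + m) * 1 := by ring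
    _ ≤ 10 ^ 8 * n ^ 4 * d ^ 4 * (d + m) ^ 2 * d.factorial := by
        gcongr
        · norm_num
        · omega

theorem big_of' {n d m B N : ℕ} (hn : 4 ≤ n) (hd : 3 ≤ d) (hm : 1 ≤ m) (hB : 2 ≤ B)
    (hN : B ^ (10 ^ 8 * n ^ 4 * d ^ 4 * (d + m) ^ 2 * d.factorial) ≤ N) :
    B ^ (20 * d ^ 2 * d.factorial) ≤ N := by
  refine le_trans (Nat.pow_le_pow_right (by omega) ?_) hN
  have h1 : 1 ≤ n ^ 4 := Nat.one_le_pow _ _ (by omega)
  have h2 : d ^ 2 ≤ d ^ 4 := Nat.pow_le_pow_right (by omega) (by norm_num)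
  have h3 : 1 ≤ (d + m) ^ 2 := Nat.one_le_pow _ _ (by omega)
  calc 20 * d ^ 2 * d.factorial = 20 * 1 * d ^ 2 * 1 * d.factorial := by ring
    _ ≤ 10 ^ 8 * n ^ 4 * d ^ 4 * (d + m) ^ 2 * d.factorial := by
        gcongr
        norm_num

/-- the hypothesis on `M` in the core -/
theorem hRM_ofG {n d m D B N M : ℕ} (hn : 4 ≤ n) (hd : 3 ≤ d) (hm : 1 ≤ m) (hB : 2 ≤ B)
    (hD : D ≤ d.factorial)
    (hN : B ^ (10 ^ 8 * n ^ 4 * d ^ 4 * (d + m) ^ 2 * d.factorial) ≤ N) (hM : N ≤ M) :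
    (16 * RR d m B) ^ (10 ^ 5 * n ^ 4 * KK D (kap d m)) ≤ (M : ℝ) := by
  have h1 : (16 * B ^ (70 * d ^ 2 * (d + m))) ^ (10 ^ 5 * n ^ 4 * KK D (kap d m)) ≤ M := by
    refine le_trans ?_ (hN.trans hM)
    have e0 : 4 ≤ d ^ 2 * (d + m) := by
      have : 9 ≤ d ^ 2 := by nlinarith
      nlinarith
    have e1 : 16 * B ^ (70 * d ^ 2 * (d + m)) ≤ B ^ (71 * (d ^ 2 * (d + m))) := by
      calc 16 * B ^ (70 * d ^ 2 * (d + m)) ≤ B ^ 4 * B ^ (70 * d ^ 2 * (d + m)) := by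
            have : 2 ^ 4 ≤ B ^ 4 := Nat.pow_le_pow_left hB 4
            gcongr
            omega
        _ = B ^ (4 + 70 * d ^ 2 * (d + m)) := by rw [pow_add]
        _ ≤ B ^ (71 * (d ^ 2 * (d + m))) := by
            refine Nat.pow_le_pow_right (by omega) ?_
            have e2 : 70 * d ^ 2 * (d + m) = 70 * (d ^ 2 * (d + m)) := by ring
            omega
    have e2 : KK D (kap d m) ≤ 3 * d ^ 2 * (m + 1) * d.factorial := (KK_leG hD).trans (Kg_le hd)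
    calc (16 * B ^ (70 * d ^ 2 * (d + m))) ^ (10 ^ 5 * n ^ 4 * KK D (kap d m))
        ≤ (B ^ (71 * (d ^ 2 * (d + m)))) ^ (10 ^ 5 * n ^ 4 * KK D (kap d m)) :=
          Nat.pow_le_pow_left e1 _
      _ = B ^ (71 * (d ^ 2 * (d + m)) * (10 ^ 5 * n ^ 4 * KK D (kap d m))) := by rw [← pow_mul]
      _ ≤ B ^ (10 ^ 8 * n ^ 4 * d ^ 4 * (d + m) ^ 2 * d.factorial) := by
          refine Nat.pow_le_pow_right (by omega) ?_
          calc 71 * (d ^ 2 * (d + m)) * (10 ^ 5 * n ^ 4 * KK D (kap d m))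
              ≤ 71 * (d ^ 2 * (d + m)) *
                (10 ^ 5 * n ^ 4 * (3 * d ^ 2 * (m + 1) * d.factorial)) := by gcongr
            _ ≤ 71 * (d ^ 2 * (d + m)) *
                (10 ^ 5 * n ^ 4 * (3 * d ^ 2 * (d + m) * d.factorial)) := by gcongr 71 * (d ^ 2 * (d + m)) * (10 ^ 5 * n ^ 4 * (3 * d ^ 2 * ?_ * d.factorial)); omega
            _ = 21300000 * (n ^ 4 * d ^ 4 * (d + m) ^ 2 * d.factorial) := by ring
            _ ≤ 10 ^ 8 * (n ^ 4 * d ^ 4 * (d + m) ^ 2 * d.factorial) :=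
                Nat.mul_le_mul_right _ (by norm_num)
            _ = _ := by ring
  unfold RR
  exact_mod_cast h1

/-- the window -/
noncomputable def Wg (n d m M Q : ℕ) : ℝ :=
  ((M : ℝ) ^ ((kap d m + 1) * d.factorial) * bb n Q * bb n Q) ^ (10 ^ 6 * n ^ 3 * Kg d m) *
    (M : ℝ) ^ (10 ^ 6 * n ^ 6 * Kg d m ^ 2)

theorem fin_numG {n d m N M H : ℕ} (hn : 4 ≤ n) (hd : 3 ≤ d) (hH : 2 ≤ H) (hN : 1 ≤ N)
    (hM : M ≤ N ^ 2) : ((2 * H ^ n : ℕ) : ℝ) ^ 2 * Wg n d m M (2 * H ^ n) ≤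
      (N : ℝ) ^ (2 * 10 ^ 7 * n ^ 6 * d ^ 4 * (m + 1) ^ 2 * d.factorial ^ 2) *
      (H : ℝ) ^ (6 * 10 ^ 7 * n ^ 6 * d ^ 2 * (m + 1) * d.factorial) := by
  set Q : ℕ := 2 * H ^ n with hQ
  have hQH : Q ≤ H ^ (n + 1) := by
    rw [hQ, pow_succ]
    calc 2 * H ^ n ≤ H * H ^ n := Nat.mul_le_mul_right _ hH
      _ = H ^ n * H := by ring
  have hK := Kg_le (m := m) hd
  have hκ := kap_le (m := m) hd
  have h6 := six_le_fac' hd
  have hQ0 : (0 : ℝ) ≤ Q := Nat.cast_nonneg _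
  have hQHR : (Q : ℝ) ≤ (H : ℝ) ^ (n + 1) := by exact_mod_cast hQH
  have hHR : (1 : ℝ) ≤ H := by exact_mod_cast (by omega : 1 ≤ H)
  have hNR : (1 : ℝ) ≤ N := by exact_mod_cast hN
  have hMR : (M : ℝ) ≤ (N : ℝ) ^ 2 := by exact_mod_cast hM
  set t := d.factorial with ht
  obtain ⟨s, hs⟩ : ∃ s, s = d ^ 2 * (m + 1) := ⟨_, rfl⟩
  have e3s : 3 * d ^ 2 * (m + 1) = 3 * s := by rw [hs]; ring
  rw [e3s] at hK hκ
  have hs1 : 1 ≤ s := by rw [hs]; exact Nat.mul_pos (by positivity) (by omega)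
  have hn3 : 64 ≤ n ^ 3 := by
    calc 64 = 4 ^ 3 := by norm_num
      _ ≤ n ^ 3 := Nat.pow_le_pow_left hn 3
  have e1 : (Q : ℝ) ^ 2 * Wg n d m M Q =
      (M : ℝ) ^ ((kap d m + 1) * t * (10 ^ 6 * n ^ 3 * Kg d m) + 10 ^ 6 * n ^ 6 * Kg d m ^ 2) *
      (Q : ℝ) ^ (2 + (7 * n ^ 2 + 7 * n ^ 2) * (10 ^ 6 * n ^ 3 * Kg d m)) := by
    unfold Wg bb
    generalize kap d m + 1 = κ1
    rw [mul_pow, mul_pow, ← pow_mul, pow_add, pow_add, add_mul, pow_add, ← pow_mul]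
    ring
  rw [e1]
  refine mul_le_mul ?_ ?_ (by positivity) (by positivity)
  · calc (M : ℝ) ^ ((kap d m + 1) * t * (10 ^ 6 * n ^ 3 * Kg d m) + 10 ^ 6 * n ^ 6 * Kg d m ^ 2)
        ≤ ((N : ℝ) ^ 2) ^ ((kap d m + 1) * t * (10 ^ 6 * n ^ 3 * Kg d m) +
            10 ^ 6 * n ^ 6 * Kg d m ^ 2) :=
          pow_le_pow_left₀ (Nat.cast_nonneg _) hMR _
      _ = (N : ℝ) ^ (2 * ((kap d m + 1) * t * (10 ^ 6 * n ^ 3 * Kg d m) +
            10 ^ 6 * n ^ 6 * Kg d m ^ 2)) := by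
          rw [← pow_mul]
      _ ≤ (N : ℝ) ^ (2 * 10 ^ 7 * n ^ 6 * d ^ 4 * (m + 1) ^ 2 * t ^ 2) := by
          refine pow_le_pow_right₀ hNR ?_
          have k1 : Kg d m ^ 2 ≤ (3 * s * t) ^ 2 := Nat.pow_le_pow_left hK 2
          have k2 : 2 * 10 ^ 7 * n ^ 6 * d ^ 4 * (m + 1) ^ 2 * t ^ 2 =
              20000000 * (n ^ 6 * (s ^ 2 * t ^ 2)) := by rw [hs]; ring
          rw [k2]
          calc 2 * ((kap d m + 1) * t * (10 ^ 6 * n ^ 3 * Kg d m) + 10 ^ 6 * n ^ 6 * Kg d m ^ 2)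
              ≤ 2 * ((3 * s) * t * (10 ^ 6 * n ^ 3 * (3 * s * t)) +
                  10 ^ 6 * n ^ 6 * (3 * s * t) ^ 2) := by
                gcongr
            _ = 18000000 * (n ^ 3 * (s ^ 2 * t ^ 2)) + 18000000 * (n ^ 6 * (s ^ 2 * t ^ 2)) := by
                ring
            _ ≤ 20000000 * (n ^ 6 * (s ^ 2 * t ^ 2)) := by
                have k3 : 64 * (n ^ 3 * (s ^ 2 * t ^ 2)) ≤ n ^ 6 * (s ^ 2 * t ^ 2) := by
                  calc 64 * (n ^ 3 * (s ^ 2 * t ^ 2)) = (64 * n ^ 3) * (s ^ 2 * t ^ 2) := by ring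
                    _ ≤ (n ^ 3 * n ^ 3) * (s ^ 2 * t ^ 2) :=
                        Nat.mul_le_mul_right _ (Nat.mul_le_mul_right _ hn3)
                    _ = n ^ 6 * (s ^ 2 * t ^ 2) := by ring
                omega
  · calc (Q : ℝ) ^ (2 + (7 * n ^ 2 + 7 * n ^ 2) * (10 ^ 6 * n ^ 3 * Kg d m))
        ≤ ((H : ℝ) ^ (n + 1)) ^ (2 + (7 * n ^ 2 + 7 * n ^ 2) * (10 ^ 6 * n ^ 3 * Kg d m)) :=
          pow_le_pow_left₀ hQ0 hQHR _
      _ = (H : ℝ) ^ ((n + 1) * (2 + (7 * n ^ 2 + 7 * n ^ 2) * (10 ^ 6 * n ^ 3 * Kg d m))) := by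
          rw [← pow_mul]
      _ ≤ (H : ℝ) ^ (6 * 10 ^ 7 * n ^ 6 * d ^ 2 * (m + 1) * t) := by
          refine pow_le_pow_right₀ hHR ?_
          have k0 : 6 * 10 ^ 7 * n ^ 6 * d ^ 2 * (m + 1) * t = 60000000 * (n * (n ^ 5 * (s * t))) := by
            rw [hs]; ring
          rw [k0]
          have k1 : 1 ≤ n ^ 5 * (s * t) := by
            have h1 : 1 ≤ n ^ 5 := Nat.one_le_pow _ _ (by omega)
            have h2 : 1 ≤ s * t := Nat.mul_pos (by omega) (by omega)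
            exact Nat.mul_pos (by omega) (by omega)
          have k2 : 4 * (n + 1) ≤ 5 * n := by omega
          have k3 : 4 * ((n + 1) * (2 + (7 * n ^ 2 + 7 * n ^ 2) * (10 ^ 6 * n ^ 3 * Kg d m))) ≤
              4 * (60000000 * (n * (n ^ 5 * (s * t)))) := by
            calc 4 * ((n + 1) * (2 + (7 * n ^ 2 + 7 * n ^ 2) * (10 ^ 6 * n ^ 3 * Kg d m)))
                = (4 * (n + 1)) * (2 + (7 * n ^ 2 + 7 * n ^ 2) * (10 ^ 6 * n ^ 3 * Kg d m)) := by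
                  ring
              _ ≤ (5 * n) * (2 + (7 * n ^ 2 + 7 * n ^ 2) * (10 ^ 6 * n ^ 3 * (3 * s * t))) := by
                  gcongr
              _ = (5 * n) * (2 + 42000000 * (n ^ 5 * (s * t))) := by ring
              _ ≤ (5 * n) * (48000000 * (n ^ 5 * (s * t))) := by
                  refine Nat.mul_le_mul_left _ ?_
                  omega
              _ = 4 * (60000000 * (n * (n ^ 5 * (s * t)))) := by ring
          omega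

end Pool.Agent.H97.GA
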