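import Pool.Agent.H97.GA.Defs

/-! # [GA-SUB] The real subfield generated by an element

`k = IntermediateField.adjoin ℚ {z 0} ⊆ Ω` (number field: finite dimensional over `ℚ`, characteristic
zero), `em` the inclusion. `ι0` maps `k` into the reals: the `x ∈ Ω` with `ι0 x` in the range of
`Complex.ofRealHom` form a subfield (`Subfield.comap`, `RingHom.fieldRange`) that contains `z 0`, hence
`k` (`IntermediateField.adjoin_induction`, or `IntermediateField.adjoin_le_iff` with the subfield as an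
intermediate field of `Ω/ℚ`); `ι x = (ι0 (em x)).re`, a ring homomorphism because `ι0 (em x)` is real.
`Z`: the coefficient `j` is `z j` as an element of `k`, integral over `ℤ` because it is so in `Ω`
(`isIntegral_algHom_iff`, injective). `top`: `z 0` generates `k`
(`IntermediateField.adjoin_simple_eq_top...`; e.g. `IntermediateField.lift`/`IntermediateField.map`
injectivity, or `IntermediateField.AdjoinSimple.gen`: for `k = ℚ⟮α⟯` use
`IntermediateField.adjoin.powerBasis` / `Field.primitive_element...`).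
Extension: make `ℂ` a `k`-algebra through `σ'`; `Ω` is algebraic over `k`, `ℂ` is algebraically closed:
`IsAlgClosed.lift : Ω →ₐ[k] ℂ`. -/

namespace Pool.Agent.H97.GA

open Finset Polynomial NumberField Pool.Agent.H87.SA

theorem sub_real {Ω : Type} [Field Ω] [NumberField Ω] (ι0 : Ω →+* ℂ) (z0 : Ω)
    (hr : ∃ r : ℝ, ι0 z0 = r) (x : Ω) (hx : x ∈ IntermediateField.adjoin ℚ {z0}) :
    (ι0 x).im = 0 := by
  refine IntermediateField.adjoin_induction ℚ (p := fun x _ => (ι0 x).im = 0)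
    ?_ ?_ ?_ ?_ ?_ hx
  · intro y hy
    rw [Set.mem_singleton_iff] at hy
    subst hy
    obtain ⟨r, hr⟩ := hr
    rw [hr]
    exact Complex.ofReal_im r
  · intro q
    rw [eq_ratCast, map_ratCast]
    exact Complex.ratCast_im q
  · intro x y _ _ h1 h2
    rw [map_add, Complex.add_im, h1, h2, add_zero]
  · intro x _ h1
    rw [map_inv₀, Complex.inv_im, h1, neg_zero, zero_div]
  · intro x y _ _ h1 h2
    rw [map_mul, Complex.mul_im, h1, h2]
    ring

theorem sub_top {Ω : Type} [Field Ω] [NumberField Ω] (z0 : Ω)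
    (h0 : z0 ∈ IntermediateField.adjoin ℚ {z0}) :
    IntermediateField.adjoin ℚ {(⟨z0, h0⟩ : IntermediateField.adjoin ℚ {z0})} = ⊤ := by
  rw [eq_top_iff]
  rintro ⟨x, hx⟩ -
  refine IntermediateField.adjoin_induction ℚ (s := {z0}) (p := fun x hx =>
    (⟨x, hx⟩ : IntermediateField.adjoin ℚ {z0}) ∈
      IntermediateField.adjoin ℚ {(⟨z0, h0⟩ : IntermediateField.adjoin ℚ {z0})})
    ?_ ?_ ?_ ?_ ?_ hx
  · intro y hy
    apply IntermediateField.subset_adjoin
    rw [Set.mem_singleton_iff] at hy ⊢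
    exact Subtype.ext hy
  · intro q
    exact IntermediateField.algebraMap_mem _ q
  · intro x y hx hy h1 h2
    exact add_mem h1 h2
  · intro x hx h1
    exact inv_mem h1
  · intro x y hx hy h1 h2
    exact mul_mem h1 h2

/-- the real embedding -/
noncomputable def subι {Ω : Type} [Field Ω] [NumberField Ω] (ι0 : Ω →+* ℂ) (z0 : Ω)
    (hr : ∃ r : ℝ, ι0 z0 = r) : IntermediateField.adjoin ℚ {z0} →+* ℝ where
  toFun x := (ι0 (x : Ω)).re
  map_one' := by
    show (ι0 (1 : Ω)).re = 1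
    rw [map_one, Complex.one_re]
  map_zero' := by
    show (ι0 (0 : Ω)).re = 0
    rw [map_zero, Complex.zero_re]
  map_mul' x y := by
    show (ι0 ((x : Ω) * (y : Ω))).re = _
    rw [map_mul, Complex.mul_re, sub_real ι0 z0 hr x x.2, zero_mul, sub_zero]
  map_add' x y := by
    show (ι0 ((x : Ω) + (y : Ω))).re = _
    rw [map_add, Complex.add_re]

theorem sub_int {Ω : Type} [Field Ω] [NumberField Ω] (E : IntermediateField ℚ Ω) (z : 𝓞 Ω)
    (hz : (z : Ω) ∈ E) : IsIntegral ℤ (⟨(z : Ω), hz⟩ : E) := by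
  have h1 : IsIntegral ℤ ((algebraMap E Ω) (⟨(z : Ω), hz⟩ : E)) := z.isIntegral_coe
  exact (isIntegral_algebraMap_iff (algebraMap E Ω).injective).1 h1

theorem sub_zk {Ω : Type} [Field Ω] [NumberField Ω] (E : IntermediateField ℚ Ω) (z : 𝓞 Ω)
    (hz : (z : Ω) ∈ E) : ∃ y : 𝓞 E, ((y : E) : Ω) = (z : Ω) := by
  have h : (⟨(z : Ω), hz⟩ : E) ∈ integralClosure ℤ E := sub_int E z hz
  exact ⟨⟨⟨(z : Ω), hz⟩, h⟩, rfl⟩

theorem exists_subfield {Ω : Type} [Field Ω] [NumberField Ω] (ι0 : Ω →+* ℂ) (z : ℕ → 𝓞 Ω)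
    (hz : ∀ j, (z j : Ω) ∈ IntermediateField.adjoin ℚ {(z 0 : Ω)})
    (hr : ∃ r : ℝ, ι0 (z 0 : Ω) = r) :
    ∃ (k : Type) (_ : Field k) (_ : NumberField k) (ι : k →+* ℝ) (em : k →+* Ω)
      (Z : PowerSeries (𝓞 k)), (∀ x, ((ι x : ℝ) : ℂ) = ι0 (em x)) ∧
      (∀ j, em ((PowerSeries.coeff j Z : 𝓞 k) : k) = (z j : Ω)) ∧
      IntermediateField.adjoin ℚ {((PowerSeries.constantCoeff Z : 𝓞 k) : k)} = ⊤ ∧
      ∀ σ' : k →+* ℂ, ∃ σ : Ω →+* ℂ, ∀ x, σ (em x) = σ' x := by
  choose y hy using fun j => sub_zk (IntermediateField.adjoin ℚ {(z 0 : Ω)}) (z j) (hz j)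
  refine ⟨IntermediateField.adjoin ℚ {(z 0 : Ω)}, inferInstance, inferInstance,
    subι ι0 (z 0 : Ω) hr, algebraMap (IntermediateField.adjoin ℚ {(z 0 : Ω)}) Ω,
    PowerSeries.mk y, ?_, ?_, ?_, ?_⟩
  · intro x
    apply Complex.ext
    · rw [Complex.ofReal_re]
      rfl
    · rw [Complex.ofReal_im]
      exact (sub_real ι0 (z 0 : Ω) hr x x.2).symm
  · intro j
    rw [PowerSeries.coeff_mk]
    exact hy j
  · rw [← PowerSeries.coeff_zero_eq_constantCoeff_apply, PowerSeries.coeff_mk]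
    have h1 : ((y 0 : 𝓞 (IntermediateField.adjoin ℚ {(z 0 : Ω)})) :
        IntermediateField.adjoin ℚ {(z 0 : Ω)}) = ⟨(z 0 : Ω), hz 0⟩ := Subtype.ext (hy 0)
    rw [h1]
    exact sub_top (z 0 : Ω) (hz 0)
  · intro σ'
    let _ : Algebra (IntermediateField.adjoin ℚ {(z 0 : Ω)}) ℂ := σ'.toAlgebra
    have _ : Algebra.IsAlgebraic (IntermediateField.adjoin ℚ {(z 0 : Ω)}) Ω :=
      inferInstance
    refine ⟨(IsAlgClosed.lift (R := IntermediateField.adjoin ℚ {(z 0 : Ω)}) (S := Ω)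
      (M := ℂ) : Ω →ₐ[IntermediateField.adjoin ℚ {(z 0 : Ω)}] ℂ).toRingHom, ?_⟩
    intro x
    exact AlgHom.commutes (IsAlgClosed.lift (R := IntermediateField.adjoin ℚ {(z 0 : Ω)}) (S := Ω)
      (M := ℂ) : Ω →ₐ[IntermediateField.adjoin ℚ {(z 0 : Ω)}] ℂ) x

end Pool.Agent.H97.GA
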