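import Pool.Agent.H97.GA.Defs
import Pool.Agent.H87.SA.TayC

/-! # [GA-TCA] The Taylor shift of convergent complex power series is a ring homomorphism

`Cv.add`, `Cv.neg`, `Cv.mul`, `Cv.C`, `Cv.X` (`Pool/Agent/H87/SA/TayA.lean`), `tay_add`, `tay_mul`,
`tay_C`, `tay_X` (`Pool/Agent/H87/SA/TayC.lean`), all proved.
`reS (a * b) = reS a * reS b - imS a * imS b`, `imS (a * b) = reS a * imS b + imS a * reS b`
(coefficientwise: `PowerSeries.coeff_mul`, `Complex.re_sum`, `Complex.mul_re`), additive versions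
trivial, `reS (C z) = C z.re`, `imS (C z) = C z.im`, `reS X = X`, `imS X = 0`.
`tayC_mul`: write `P = map ofReal (tay (reS a))` etc.; `map ofReal` is a ring homomorphism;
`(P + I Q)(P' + I Q') = (P P' - Q Q') + I (P Q' + Q P')` because `C I * C I = -1`.
(`tay h (-b) = - tay h b` from `tay_mul`/`tay_C` with the constant `-1`, or from `tay_add` and
`tay h 0 = 0`.) -/

namespace Pool.Agent.H97.GA

open Finset Polynomial Pool.Agent.H72.ES Pool.Agent.H87.SA

theorem tca_re_add (a b : PowerSeries ℂ) : reS (a + b) = reS a + reS b := by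
  ext k
  simp [reS]

theorem tca_im_add (a b : PowerSeries ℂ) : imS (a + b) = imS a + imS b := by
  ext k
  simp [imS]

theorem tca_re_neg (a : PowerSeries ℂ) : reS (-a) = -reS a := by
  ext k
  simp [reS]

theorem tca_im_neg (a : PowerSeries ℂ) : imS (-a) = -imS a := by
  ext k
  simp [imS]

theorem tca_re_mul (a b : PowerSeries ℂ) : reS (a * b) = reS a * reS b + -(imS a * imS b) := by
  ext k
  simp only [reS, imS, PowerSeries.coeff_mk, PowerSeries.coeff_mul, map_add, map_neg,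
    Complex.re_sum, Complex.mul_re]
  rw [Finset.sum_sub_distrib]
  ring

theorem tca_im_mul (a b : PowerSeries ℂ) : imS (a * b) = reS a * imS b + imS a * reS b := by
  ext k
  simp only [reS, imS, PowerSeries.coeff_mk, PowerSeries.coeff_mul, map_add,
    Complex.im_sum, Complex.mul_im]
  rw [Finset.sum_add_distrib]

theorem tca_re_C (z : ℂ) : reS (PowerSeries.C z) = PowerSeries.C z.re := by
  ext k
  simp only [reS, PowerSeries.coeff_mk, PowerSeries.coeff_C]
  split_ifs <;> simp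

theorem tca_im_C (z : ℂ) : imS (PowerSeries.C z) = PowerSeries.C z.im := by
  ext k
  simp only [imS, PowerSeries.coeff_mk, PowerSeries.coeff_C]
  split_ifs <;> simp

theorem tca_re_X : reS PowerSeries.X = PowerSeries.X := by
  ext k
  simp only [reS, PowerSeries.coeff_mk, PowerSeries.coeff_X]
  split_ifs <;> simp

theorem tca_im_X : imS PowerSeries.X = PowerSeries.C 0 := by
  ext k
  simp only [imS, PowerSeries.coeff_mk, PowerSeries.coeff_X, map_zero]
  split_ifs <;> simp

theorem tca_neg {h : ℝ} (hh : 0 ≤ h) {a : PowerSeries ℝ} (ha : Cv h a) : tay h (-a) = -tay h a := by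
  have h1 := tay_add hh ha ha.neg
  rw [add_neg_cancel] at h1
  have h2 := tay_C h 0
  rw [map_zero] at h2
  rw [h2] at h1
  exact (neg_eq_of_add_eq_zero_right h1.symm).symm

theorem CvC.add {h : ℝ} (hh : 0 ≤ h) {a b : PowerSeries ℂ} (ha : CvC h a) (hb : CvC h b) :
    CvC h (a + b) := by
  refine ⟨?_, ?_⟩
  · rw [tca_re_add]
    exact Cv.add hh ha.1 hb.1
  · rw [tca_im_add]
    exact Cv.add hh ha.2 hb.2

theorem CvC.neg {h : ℝ} {a : PowerSeries ℂ} (ha : CvC h a) : CvC h (-a) := by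
  refine ⟨?_, ?_⟩
  · rw [tca_re_neg]
    exact ha.1.neg
  · rw [tca_im_neg]
    exact ha.2.neg

theorem CvC.mul {h : ℝ} (hh : 0 ≤ h) {a b : PowerSeries ℂ} (ha : CvC h a) (hb : CvC h b) :
    CvC h (a * b) := by
  refine ⟨?_, ?_⟩
  · rw [tca_re_mul]
    exact Cv.add hh (Cv.mul hh ha.1 hb.1) (Cv.mul hh ha.2 hb.2).neg
  · rw [tca_im_mul]
    exact Cv.add hh (Cv.mul hh ha.1 hb.2) (Cv.mul hh ha.2 hb.1)

theorem CvC.C (h : ℝ) (z : ℂ) : CvC h (PowerSeries.C z) := by
  refine ⟨?_, ?_⟩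
  · rw [tca_re_C]
    exact Cv.C h _
  · rw [tca_im_C]
    exact Cv.C h _

theorem CvC.X (h : ℝ) : CvC h PowerSeries.X := by
  refine ⟨?_, ?_⟩
  · rw [tca_re_X]
    exact Cv.X h
  · rw [tca_im_X]
    exact Cv.C h _

theorem tayC_add {h : ℝ} (hh : 0 ≤ h) {a b : PowerSeries ℂ} (ha : CvC h a) (hb : CvC h b) :
    tayC h (a + b) = tayC h a + tayC h b := by
  unfold tayC
  rw [tca_re_add, tca_im_add, tay_add hh ha.1 hb.1, tay_add hh ha.2 hb.2, map_add, map_add]
  ring

theorem tca_I : (PowerSeries.C Complex.I * PowerSeries.C Complex.I : PowerSeries ℂ) = -1 := by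
  rw [← map_mul, Complex.I_mul_I, map_neg, map_one]

theorem tayC_mul {h : ℝ} (hh : 0 ≤ h) {a b : PowerSeries ℂ} (ha : CvC h a) (hb : CvC h b) :
    tayC h (a * b) = tayC h a * tayC h b := by
  unfold tayC
  rw [tca_re_mul, tca_im_mul,
    tay_add hh (Cv.mul hh ha.1 hb.1) (Cv.mul hh ha.2 hb.2).neg,
    tca_neg hh (Cv.mul hh ha.2 hb.2),
    tay_add hh (Cv.mul hh ha.1 hb.2) (Cv.mul hh ha.2 hb.1),
    tay_mul hh ha.1 hb.1, tay_mul hh ha.2 hb.2, tay_mul hh ha.1 hb.2, tay_mul hh ha.2 hb.1,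
    map_add, map_neg, map_add, map_mul, map_mul, map_mul, map_mul]
  linear_combination (-((tay h (imS a)).map Complex.ofRealHom) *
    ((tay h (imS b)).map Complex.ofRealHom)) * tca_I

theorem tayC_C (h : ℝ) (z : ℂ) : tayC h (PowerSeries.C z) = PowerSeries.C z := by
  unfold tayC
  rw [tca_re_C, tca_im_C, tay_C, tay_C, PowerSeries.map_C, PowerSeries.map_C, ← map_mul,
    ← map_add]
  congr 1
  rw [mul_comm]
  exact Complex.re_add_im z

theorem tayC_X (h : ℝ) : tayC h PowerSeries.X = PowerSeries.C (h : ℂ) + PowerSeries.X := by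
  unfold tayC
  rw [tca_re_X, tca_im_X, tay_C, tay_X, map_zero, map_zero, mul_zero, add_zero, map_add,
    PowerSeries.map_C, PowerSeries.map_X]
  rfl

end Pool.Agent.H97.GA
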