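import Pool.Agent.H97.GA.Big

/-! # [GA-TWA] The twisted coefficients in the big field

`zz Bg w j = ∑_i wv d w (yo i) * coeff j (x i) ∈ 𝓞 Ω`. For `σ : Ω →+* ℂ` with permutations `π0`, `π`
(`Bg.perm`): `σ (zz j) = ∑_i wv d w (S.y N (π i)) coeff j (S.x (π0 i))` (`map_wv`, `Bg.hx`)
`= ∑_i wv d w (S.y N (τ i)) coeff j (S.x i)`, `τ = π ∘ π0⁻¹` (`Equiv.sum_comp`). `zz_perm` records that
`τ = 1` implies `π = π0`.
`zz_real`: `σ = conj ∘ ι0`: `conj (c i) = c (π0 i)`, so `S.x (π0 i) = (S.x i).map conj` (`Bg.hx` for `σ` and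
for `ι0`), so `evC (S.x (π0 i)) = conj (evC (S.x i))` (`tayC_conj`), so `S.y N (π0 i) = conj (S.y N i)`
(`N^m` is real) `= σ (yo i) = S.y N (π i)`, so `π0 = π` by `y_inj`, and `conj (ι0 (zz j)) = ι0 (zz j)`
by reindexing. `y_real`: the same `π0 = π`: if `S.y N i` is real then `π i = i` (`y_inj`), so
`conj (c i) = c i`. -/

namespace Pool.Agent.H97.GA

open Finset Polynomial NumberField Pool.Agent.H72.ES Pool.Agent.H87.SA

variable {d m : ℕ} {a : ℕ → ℕ → ℤ} {B N : ℕ} {c : Fin d → ℂ}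

/-- the twisted coefficients -/
noncomputable def zz {S : SerC d m a B c} {Ω : Type} [Field Ω] [NumberField Ω] (Bg : Big S N Ω)
    (w j : ℕ) : 𝓞 Ω := ∑ i, wv d w (Bg.yo i) * PowerSeries.coeff j (Bg.x i)

theorem twa_map {S : SerC d m a B c} {Ω : Type} [Field Ω] [NumberField Ω] (Bg : Big S N Ω)
    (w j : ℕ) (σ : Ω →+* ℂ) (π0 π : Fin d → Fin d) (h0 : ∀ i, σ (Bg.co i : Ω) = c (π0 i))
    (h1 : ∀ i, σ (Bg.yo i : Ω) = S.y N (π i)) : σ (zz Bg w j : Ω) =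
      ∑ i, wv d w (S.y N (π i)) * PowerSeries.coeff j (S.x (π0 i)) := by
  have e1 : σ (zz Bg w j : Ω) = (σ.comp (algebraMap (𝓞 Ω) Ω)) (zz Bg w j) := rfl
  rw [e1]
  unfold zz
  rw [map_sum]
  apply Finset.sum_congr rfl
  intro i _
  rw [map_mul, map_wv]
  have e2 : (σ.comp (algebraMap (𝓞 Ω) Ω)) (Bg.yo i) = S.y N (π i) := h1 i
  have e3 : (σ.comp (algebraMap (𝓞 Ω) Ω)) (PowerSeries.coeff j (Bg.x i)) =
      PowerSeries.coeff j (S.x (π0 i)) := Bg.hx σ i (π0 i) (h0 i) j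
  rw [e2, e3]

theorem zz_val {S : SerC d m a B c} {Ω : Type} [Field Ω] [NumberField Ω] (Bg : Big S N Ω)
    (w j : ℕ) : Bg.ι0 (zz Bg w j : Ω) =
      ∑ i, wv d w (S.y N i) * PowerSeries.coeff j (S.x i) :=
  twa_map Bg w j Bg.ι0 id id Bg.hco Bg.hyo

theorem zz_perm {S : SerC d m a B c} {Ω : Type} [Field Ω] [NumberField Ω] (Bg : Big S N Ω)
    (w : ℕ) (σ : Ω →+* ℂ) : ∃ π0 π τ : Equiv.Perm (Fin d),
      (∀ i, σ (Bg.co i : Ω) = c (π0 i)) ∧ (∀ i, σ (Bg.yo i : Ω) = S.y N (π i)) ∧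
      (τ = 1 → π = π0) ∧ ∀ j, σ (zz Bg w j : Ω) =
        ∑ i, wv d w (S.y N (τ i)) * PowerSeries.coeff j (S.x i) := by
  obtain ⟨π0, π, h0, h1⟩ := Bg.perm σ
  refine ⟨π0, π, π * π0⁻¹, h0, h1, ?_, ?_⟩
  · intro h
    exact mul_inv_eq_one.1 h
  · intro j
    rw [twa_map Bg w j σ π0 π h0 h1, ← Equiv.sum_comp π0
      (fun i => wv d w (S.y N ((π * π0⁻¹) i)) * PowerSeries.coeff j (S.x i))]
    apply Finset.sum_congr rfl
    intro i _
    have e1 : (π * π0⁻¹) (π0 i) = π i := by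
      simp [Equiv.Perm.mul_apply]
    rw [e1]

theorem twa_conj (H : GHyp d m a B N c) {S : SerC d m a B c} {Ω : Type} [Field Ω] [NumberField Ω]
    (Bg : Big S N Ω) : ∃ π : Equiv.Perm (Fin d),
      (∀ i, (starRingEnd ℂ).comp Bg.ι0 (Bg.co i : Ω) = c (π i)) ∧
      (∀ i, (starRingEnd ℂ).comp Bg.ι0 (Bg.yo i : Ω) = S.y N (π i)) := by
  obtain ⟨π0, π, h0, h1⟩ := Bg.perm ((starRingEnd ℂ).comp Bg.ι0)
  have h2 : ∀ i, S.x (π0 i) = (S.x i).map (starRingEnd ℂ) := by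
    intro i
    ext k
    have e1 := Bg.hx ((starRingEnd ℂ).comp Bg.ι0) i (π0 i) (h0 i) k
    have e2 := Bg.hx Bg.ι0 i i (Bg.hco i) k
    rw [PowerSeries.coeff_map, ← e1, ← e2]
    rfl
  have h3 : ∀ i, S.y N (π0 i) = S.y N (π i) := by
    intro i
    rw [← h1 i]
    have e1 : (starRingEnd ℂ).comp Bg.ι0 (Bg.yo i : Ω) = starRingEnd ℂ (S.y N i) := by
      rw [RingHom.comp_apply, Bg.hyo]
    rw [e1]
    unfold SerC.y evC
    rw [h2, tayC_conj, map_mul, map_pow, map_natCast]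
    congr 1
  have h4 : π0 = π := by
    ext i
    rw [y_inj H S (h3 i)]
  subst h4
  exact ⟨π0, h0, h1⟩

theorem zz_real (H : GHyp d m a B N c) {S : SerC d m a B c} {Ω : Type} [Field Ω] [NumberField Ω]
    (Bg : Big S N Ω) (w j : ℕ) : ∃ r : ℝ, Bg.ι0 (zz Bg w j : Ω) = r := by
  obtain ⟨π, h0, h1⟩ := twa_conj H Bg
  rw [← Complex.conj_eq_iff_real]
  have e1 := twa_map Bg w j ((starRingEnd ℂ).comp Bg.ι0) π π h0 h1
  have e2 : (starRingEnd ℂ).comp Bg.ι0 (zz Bg w j : Ω) =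
      (starRingEnd ℂ) (Bg.ι0 (zz Bg w j : Ω)) := rfl
  rw [← e2, e1, zz_val,
    Equiv.sum_comp π (fun i => wv d w (S.y N i) * PowerSeries.coeff j (S.x i))]

theorem y_real (H : GHyp d m a B N c) {S : SerC d m a B c} {Ω : Type} [Field Ω] [NumberField Ω]
    (Bg : Big S N Ω) (i : Fin d) (ξ : ℝ) (hξ : S.y N i = ξ) : ∃ r : ℝ, c i = r := by
  obtain ⟨π, h0, h1⟩ := twa_conj H Bg
  have e1 : S.y N (π i) = S.y N i := by
    rw [← h1 i, RingHom.comp_apply, Bg.hyo, hξ, Complex.conj_ofReal]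
  have e2 := y_inj H S e1
  rw [← Complex.conj_eq_iff_real]
  have e3 := h0 i
  rw [RingHom.comp_apply, Bg.hco, e2] at e3
  exact e3

end Pool.Agent.H97.GA
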