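import Pool.Agent.H97.GA.TwA
import Pool.Agent.H97.GA.Gal
import Pool.Agent.H97.GA.Sub

/-! # [GA-TWB] The twisted field

`z j = zz Bg w j`. `z j ∈ adjoin ℚ {z 0}` by `gal_mem`: if `σ (z 0) = ι0 (z 0)` then with `zz_perm`,
`zz_val` and `coeff 0 (S.x i) = c i` (`S.x0`) and `hw`: `τ = 1`, so `σ (z j) = ι0 (z j)` for all `j`.
`exists_subfield` (`Sub.lean`) with `zz_real` gives `k`, `ι`, `em`, `Z`. `hι`: `zz_val`. `hσ`: extend to
`σ` on `Ω`, `zz_perm`. `fr`: `finrank ℚ k = card (k →+* ℂ)` (`NumberField.Embeddings.card`); choose `τ`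
for each `σ'`; `σ' ↦ τ` is injective: the same `τ` gives the same value at the generator `z 0`, so the
two homomorphisms agree (`ℚ`-algebra homomorphisms agreeing on a generator, as in `exists_field`,
`Pool/Agent/H87/SA/Fld.lean`, `IntermediateField.algHom_ext_of_eq_adjoin`, or `adjoin` induction);
`card (Perm (Fin d)) = d!`.
`loc`: `c i = c'` by `y_real`. `gal_mem` with `s = {z 0, co i}`: if `σ x = ι0 x` for both, then
`τ = 1`, `π = π0` and `c (π0 i) = σ (co i) = c i`, so `π0 i = i` (`H.inj`), `π i = i`, and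
`σ (yo i) = S.y N i = ι0 (yo i)`. So `yo i ∈ adjoin ℚ {z 0, co i}`; `real_mem`. -/

namespace Pool.Agent.H97.GA

open Finset Polynomial NumberField Pool.Agent.H72.ES Pool.Agent.H87.SA

variable {d m : ℕ} {a : ℕ → ℕ → ℤ} {B N : ℕ} {c : Fin d → ℂ}

/-- the twisted field with its power series -/
structure Tw (S : SerC d m a B c) (N w : ℕ) (k : Type) [Field k] [NumberField k] where
  ι : k →+* ℝ
  Z : PowerSeries (𝓞 k)
  hι : ∀ j, ((ι ((PowerSeries.coeff j Z : 𝓞 k) : k) : ℝ) : ℂ) =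
    ∑ i, wv d w (S.y N i) * PowerSeries.coeff j (S.x i)
  hσ : ∀ σ : k →+* ℂ, ∃ τ : Equiv.Perm (Fin d), ∀ j, σ ((PowerSeries.coeff j Z : 𝓞 k) : k) =
    ∑ i, wv d w (S.y N (τ i)) * PowerSeries.coeff j (S.x i)
  top : IntermediateField.adjoin ℚ {((PowerSeries.constantCoeff Z : 𝓞 k) : k)} = ⊤
  fr : Module.finrank ℚ k ≤ d.factorial
  loc : ∀ (i : Fin d) (ξ : ℝ), S.y N i = ξ → ∃ c' : ℝ, c i = c' ∧
    ξ ∈ IntermediateField.adjoin ℚ {ι ((PowerSeries.constantCoeff Z : 𝓞 k) : k), c'}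

private theorem twb_ext {k : Type} [Field k] [NumberField k] (g : k)
    (hg : IntermediateField.adjoin ℚ {g} = ⊤) (f₁ f₂ : k →+* ℂ) (h : f₁ g = f₂ g) : f₁ = f₂ := by
  ext x
  have hx : x ∈ IntermediateField.adjoin ℚ {g} := by
    rw [hg]
    exact IntermediateField.mem_top
  induction hx using IntermediateField.adjoin_induction with
  | mem y hy =>
    rw [Set.mem_singleton_iff] at hy
    rw [hy, h]
  | algebraMap q =>
    rw [eq_ratCast, map_ratCast, map_ratCast]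
  | add y z _ _ hy hz => rw [map_add, map_add, hy, hz]
  | inv y _ hy => rw [map_inv₀, map_inv₀, hy]
  | mul y z _ _ hy hz => rw [map_mul, map_mul, hy, hz]

theorem exists_tw (H : GHyp d m a B N c) (S : SerC d m a B c) {Ω : Type} [Field Ω]
    [NumberField Ω] (Bg : Big S N Ω) {w : ℕ} (hw : ∀ τ : Equiv.Perm (Fin d),
      ∑ i, wv d w (S.y N (τ i)) * c i = ∑ i, wv d w (S.y N i) * c i → τ = 1) :
    ∃ (k : Type) (_ : Field k) (_ : NumberField k), Nonempty (Tw S N w k) := by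
  classical
  have hx0 : ∀ i, PowerSeries.coeff 0 (S.x i) = c i := fun i => by
    rw [PowerSeries.coeff_zero_eq_constantCoeff_apply, S.x0]
  -- the permutation of an embedding that fixes the generator
  have hτ : ∀ (σ : Ω →+* ℂ) (τ : Equiv.Perm (Fin d)),
      (∀ j, σ (zz Bg w j : Ω) = ∑ i, wv d w (S.y N (τ i)) * PowerSeries.coeff j (S.x i)) →
      σ (zz Bg w 0 : Ω) = Bg.ι0 (zz Bg w 0 : Ω) → τ = 1 := by
    intro σ τ h1 h2
    apply hw
    rw [h1 0, zz_val] at h2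
    simp only [hx0] at h2
    exact h2
  have hz : ∀ j, (zz Bg w j : Ω) ∈ IntermediateField.adjoin ℚ {(zz Bg w 0 : Ω)} := by
    intro j
    refine gal_mem Bg.ι0 _ _ fun σ hσ => ?_
    obtain ⟨π0, π, τ, _, _, _, h4⟩ := zz_perm Bg w σ
    have h5 := hτ σ τ h4 (hσ _ (Set.mem_singleton _))
    rw [h4 j, zz_val, h5]
    rfl
  obtain ⟨k, hF, hNF, ι, em, Z, h1, h2, h3, h4⟩ := exists_subfield Bg.ι0 (fun j => zz Bg w j) hz
    (zz_real H Bg w 0)
  have hσ : ∀ σ : k →+* ℂ, ∃ τ : Equiv.Perm (Fin d), ∀ j,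
      σ ((PowerSeries.coeff j Z : 𝓞 k) : k) =
        ∑ i, wv d w (S.y N (τ i)) * PowerSeries.coeff j (S.x i) := by
    intro σ'
    obtain ⟨σ, hσ⟩ := h4 σ'
    obtain ⟨π0, π, τ, _, _, _, h5⟩ := zz_perm Bg w σ
    refine ⟨τ, fun j => ?_⟩
    rw [← hσ, h2, h5]
  have hfr : Module.finrank ℚ k ≤ d.factorial := by
    choose T hT using hσ
    have hinj : Function.Injective T := by
      intro f₁ f₂ h
      refine twb_ext _ h3 f₁ f₂ ?_
      have h5 := hT f₁ 0
      have h6 := hT f₂ 0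
      rw [h] at h5
      rw [PowerSeries.coeff_zero_eq_constantCoeff_apply] at h5 h6
      rw [h5, h6]
    calc Module.finrank ℚ k = Fintype.card (k →+* ℂ) := (NumberField.Embeddings.card k ℂ).symm
      _ ≤ Fintype.card (Equiv.Perm (Fin d)) := Fintype.card_le_of_injective T hinj
      _ = d.factorial := by rw [Fintype.card_perm, Fintype.card_fin]
  have h10 : Bg.ι0 (zz Bg w 0 : Ω) = (ι ((PowerSeries.constantCoeff Z : 𝓞 k) : k) : ℝ) := by
    rw [h1, ← PowerSeries.coeff_zero_eq_constantCoeff_apply, h2]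
  refine ⟨k, hF, hNF, ⟨{
    ι := ι
    Z := Z
    hι := ?_
    hσ := hσ
    top := h3
    fr := hfr
    loc := ?_ }⟩⟩
  · intro j
    rw [h1, h2, zz_val]
  · intro i ξ hξ
    obtain ⟨r, hr⟩ := y_real H Bg i ξ hξ
    refine ⟨r, hr, ?_⟩
    refine real_mem Bg.ι0 (Bg.yo i : Ω) (zz Bg w 0 : Ω) (Bg.co i : Ω) ξ _ r
      (by rw [Bg.hyo, hξ]) h10 (by rw [Bg.hco, hr]) ?_
    refine gal_mem Bg.ι0 _ _ fun σ hσ' => ?_
    obtain ⟨π0, π, τ, h5, h6, h7, h8⟩ := zz_perm Bg w σ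
    have h9 := hτ σ τ h8 (hσ' _ (Set.mem_insert _ _))
    have h11 := hσ' _ (Set.mem_insert_of_mem _ (Set.mem_singleton _))
    rw [h5, Bg.hco] at h11
    have h12 := H.inj h11
    rw [h6, h7 h9, h12, Bg.hyo]

end Pool.Agent.H97.GA
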